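import Pool.Agent.H390R2.Triple

open Finset Nat

namespace Pool.Agent.H390R2

/-- From a short vector for every congruence to an abc-triple. -/
theorem exists_triple {m N : ℕ} {lam : ℝ} (hN : 0 < N) (hlam : 0 < lam)
    (hlat : ∀ W : {p // p ∈ primesLE m} → ℤ, ∃ e : {p // p ∈ primesLE m} → ℤ, e ≠ 0 ∧
      (N : ℤ) ∣ ∑ i, W i * e i ∧ ∑ i : {p // p ∈ primesLE m}, |(e i : ℝ)| * Real.log (i : ℕ) ≤ lam) :
    ∃ a b c : ℕ, IsABCTriple a b c ∧
      Real.log c ≤ (lam + lam * (lam + 1) / (N * Real.log 2)) / 2 ∧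
      Real.log N + Real.log (Real.log 2) - ∑ p ∈ primesLE m, Real.log p
        - Real.log (lam * (lam + 1)) ≤ Real.log c - Real.log (rad (a * b * c)) := by
  have hl2 : (0 : ℝ) < Real.log 2 := Real.log_pos one_lt_two
  have hN' : (0 : ℝ) < N := by exact_mod_cast hN
  set M : ℝ := N / (lam + 1) with hM
  have hM0 : 0 < M := by positivity
  obtain ⟨e, he, hdvd, hsum⟩ := hlat fun p => ⌊M * Real.log (p : ℕ)⌋
  have hlogp : ∀ p : {p // p ∈ primesLE m}, Real.log 2 ≤ Real.log (p : ℕ) := fun p =>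
    Real.log_le_log two_pos (by exact_mod_cast two_le_of_mem_primesLE p.2)
  -- the integer combination vanishes
  have hW : ∀ p : {p // p ∈ primesLE m},
      |((⌊M * Real.log (p : ℕ)⌋ : ℤ) : ℝ)| ≤ M * Real.log (p : ℕ) := by
    intro p
    have h0 : 0 ≤ M * Real.log (p : ℕ) := by
      have := hlogp p
      have h1 : 0 ≤ Real.log (p : ℕ) := by linarith
      positivity
    rw [abs_of_nonneg (by exact_mod_cast Int.floor_nonneg.mpr h0)]
    exact Int.floor_le _
  have habs : |((∑ i : {p // p ∈ primesLE m}, ⌊M * Real.log (i : ℕ)⌋ * e i : ℤ) : ℝ)| < N := by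
    push_cast
    calc |∑ i : {p // p ∈ primesLE m}, (⌊M * Real.log (i : ℕ)⌋ : ℝ) * (e i : ℝ)|
        ≤ ∑ i : {p // p ∈ primesLE m}, |(⌊M * Real.log (i : ℕ)⌋ : ℝ) * (e i : ℝ)| :=
          Finset.abs_sum_le_sum_abs _ _
      _ ≤ ∑ i : {p // p ∈ primesLE m}, M * (|(e i : ℝ)| * Real.log (i : ℕ)) := by
          refine Finset.sum_le_sum fun i _ => ?_
          rw [abs_mul]
          have := mul_le_mul_of_nonneg_right (hW i) (abs_nonneg (e i : ℝ))
          linarith
      _ = M * ∑ i : {p // p ∈ primesLE m}, |(e i : ℝ)| * Real.log (i : ℕ) := by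
          rw [Finset.mul_sum]
      _ ≤ M * lam := mul_le_mul_of_nonneg_left hsum hM0.le
      _ < M * (lam + 1) := by nlinarith
      _ = N := by rw [hM]; field_simp
  have hzero : (∑ i : {p // p ∈ primesLE m}, ⌊M * Real.log (i : ℕ)⌋ * e i : ℤ) = 0 := by
    refine Int.eq_zero_of_abs_lt_dvd hdvd ?_
    exact_mod_cast habs
  set l : ℝ := ∑ p : {p // p ∈ primesLE m}, (e p : ℝ) * Real.log (p : ℕ) with hl
  have hMl : M * |l| ≤ lam / Real.log 2 := by
    have h1 : M * l = ∑ p : {p // p ∈ primesLE m},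
        (M * Real.log (p : ℕ) - (⌊M * Real.log (p : ℕ)⌋ : ℤ)) * (e p : ℝ) := by
      have h2 : ∑ p : {p // p ∈ primesLE m}, ((⌊M * Real.log (p : ℕ)⌋ : ℤ) : ℝ) * (e p : ℝ) = 0 := by
        have := congrArg (fun z : ℤ => (z : ℝ)) hzero
        push_cast at this
        exact this
      rw [hl, Finset.mul_sum]
      simp only [sub_mul]
      rw [Finset.sum_sub_distrib, h2, sub_zero]
      exact Finset.sum_congr rfl fun _ _ => by ring
    rw [← abs_of_pos hM0, ← abs_mul, h1]
    calc |∑ p : {p // p ∈ primesLE m},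
        (M * Real.log (p : ℕ) - (⌊M * Real.log (p : ℕ)⌋ : ℤ)) * (e p : ℝ)|
        ≤ ∑ p : {p // p ∈ primesLE m},
          |(M * Real.log (p : ℕ) - (⌊M * Real.log (p : ℕ)⌋ : ℤ)) * (e p : ℝ)| :=
          Finset.abs_sum_le_sum_abs _ _
      _ ≤ ∑ p : {p // p ∈ primesLE m}, (|(e p : ℝ)| * Real.log (p : ℕ)) / Real.log 2 := by
          refine Finset.sum_le_sum fun p _ => ?_
          rw [abs_mul]
          have h3 : |M * Real.log (p : ℕ) - (⌊M * Real.log (p : ℕ)⌋ : ℤ)| ≤ 1 := by
            rw [abs_of_nonneg (by linarith [Int.floor_le (M * Real.log (p : ℕ))])]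
            linarith [Int.lt_floor_add_one (M * Real.log (p : ℕ))]
          have h4 : |(e p : ℝ)| ≤ |(e p : ℝ)| * Real.log (p : ℕ) / Real.log 2 := by
            rw [le_div_iff₀ hl2]
            exact mul_le_mul_of_nonneg_left (hlogp p) (abs_nonneg _)
          have := mul_le_mul_of_nonneg_right h3 (abs_nonneg (e p : ℝ))
          linarith
      _ = (∑ p : {p // p ∈ primesLE m}, |(e p : ℝ)| * Real.log (p : ℕ)) / Real.log 2 := by
          rw [Finset.sum_div]
      _ ≤ lam / Real.log 2 := by gcongr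
  have hl1 : |l| ≤ lam * (lam + 1) / (N * Real.log 2) := by
    rw [hM] at hMl
    rw [le_div_iff₀ (by positivity)] at hMl ⊢
    have h5 : N / (lam + 1) * |l| * Real.log 2 * (lam + 1) ≤ lam * (lam + 1) :=
      mul_le_mul_of_nonneg_right hMl (by positivity)
    have h6 : N / (lam + 1) * |l| * Real.log 2 * (lam + 1) = |l| * (N * Real.log 2) := by
      field_simp
    linarith
  obtain ⟨a, b, c, habc, hc, hr⟩ := triple e he
  rw [← hl] at hc hr
  refine ⟨a, b, c, habc, ?_, ?_⟩
  · rw [hc]; linarith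
  · obtain ⟨ha0, hb0, hc0, -⟩ := habc
    have hrad : (0 : ℝ) < rad (a * b * c) := by
      have : 0 < rad (a * b * c) := by
        unfold rad
        exact Finset.prod_pos fun p hp => (Nat.prime_of_mem_primeFactors hp).pos
      exact_mod_cast this
    have hc0' : (0 : ℝ) < c := by exact_mod_cast hc0
    have hP : (0 : ℝ) < ∏ p ∈ primesLE m, (p : ℝ) :=
      Finset.prod_pos fun p hp => by exact_mod_cast (prime_of_mem_primesLE hp).pos
    have hlpos : 0 < |l| := by
      rcases (abs_nonneg l).eq_or_lt with h | h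
      · rw [← h] at hr
        simp only [mul_zero, zero_mul] at hr
        linarith
      · exact h
    have h7 := Real.log_le_log hrad hr
    rw [Real.log_mul (by positivity) hP.ne', Real.log_mul hc0'.ne' hlpos.ne',
      Real.log_prod (fun p hp => by
        have : (0 : ℝ) < p := by exact_mod_cast (prime_of_mem_primesLE hp).pos
        exact this.ne')] at h7
    have h8 := Real.log_le_log hlpos hl1
    rw [Real.log_div (by positivity) (by positivity), Real.log_mul hN'.ne' hl2.ne'] at h8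
    linarith

end Pool.Agent.H390R2
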