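import Mathlib

open MeasureTheory Finset
open scoped ComplexConjugate

namespace Pool.Agent.H390R2

noncomputable section

/-- Normalised Haar measure on the circle `ℝ/ℤ`. -/
abbrev hm : Measure UnitAddCircle := AddCircle.haarAddCircle

/-- The Fejer kernel on the circle. -/
def fejer (D : ℕ) (x : UnitAddCircle) : ℝ :=
  ‖∑ j ∈ range D, (fourier (j : ℤ) x : ℂ)‖ ^ 2 / D

lemma fejer_nonneg (D : ℕ) (x : UnitAddCircle) : 0 ≤ fejer D x := by
  unfold fejer; positivity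

lemma sum_Icc_neg (f : ℤ → ℂ) (D : ℕ) :
    ∑ k ∈ Icc (-(D : ℤ)) D, f k =
      ∑ j ∈ range D, f (j - D) + f 0 + ∑ j ∈ range D, f (D - j) := by
  induction D with
  | zero => simp
  | succ n ih =>
    have h1 : Icc (-((n + 1 : ℕ) : ℤ)) ((n + 1 : ℕ) : ℤ) =
        insert (-((n + 1 : ℕ) : ℤ)) (insert ((n + 1 : ℕ) : ℤ) (Icc (-(n : ℤ)) n)) := by
      ext k
      simp only [mem_Icc, mem_insert]
      push_cast
      omega
    rw [h1, sum_insert, sum_insert, ih]
    · rw [sum_range_succ', sum_range_succ']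
      have e1 : ∀ j : ℕ, f (((j + 1 : ℕ) : ℤ) - ((n + 1 : ℕ) : ℤ)) = f (j - n) := by
        intro j; congr 1; push_cast; ring
      have e2 : ∀ j : ℕ, f (((n + 1 : ℕ) : ℤ) - ((j + 1 : ℕ) : ℤ)) = f (n - j) := by
        intro j; congr 1; push_cast; ring
      simp only [e1, e2]
      have e3 : f (((0 : ℕ) : ℤ) - ((n + 1 : ℕ) : ℤ)) = f (-((n + 1 : ℕ) : ℤ)) := by
        simp
      have e4 : f (((n + 1 : ℕ) : ℤ) - ((0 : ℕ) : ℤ)) = f ((n + 1 : ℕ) : ℤ) := by
        simp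
      rw [e3, e4]
      ring
    · simp only [mem_Icc]; push_cast; omega
    · simp only [mem_insert, mem_Icc]; push_cast; omega

lemma fejer_aux (D : ℕ) (x : UnitAddCircle) :
    ((‖∑ j ∈ range D, (fourier (j : ℤ) x : ℂ)‖ ^ 2 : ℝ) : ℂ) =
      ∑ k ∈ Ioo (-(D : ℤ)) D, ((D : ℂ) - ((|k| : ℤ) : ℂ)) * fourier k x := by
  induction D with
  | zero => simp
  | succ n ih =>
    have key : ∀ z w : ℂ, ((‖z + w‖ ^ 2 : ℝ) : ℂ) =
        ((‖z‖ ^ 2 : ℝ) : ℂ) + z * conj w + conj z * w + ((‖w‖ ^ 2 : ℝ) : ℂ) := by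
      intro z w
      push_cast
      rw [← Complex.mul_conj', ← Complex.mul_conj', ← Complex.mul_conj', map_add]
      ring
    rw [sum_range_succ, key, ih]
    have hn : ‖(fourier (n : ℤ) x : ℂ)‖ = 1 := by
      rw [fourier_apply]; exact Circle.norm_coe _
    rw [hn]
    have h1 : Ioo (-((n + 1 : ℕ) : ℤ)) ((n + 1 : ℕ) : ℤ) = Icc (-(n : ℤ)) n := by
      ext k
      simp only [mem_Icc, mem_Ioo]
      push_cast
      omega
    rw [h1]
    have h2 : ∑ k ∈ Icc (-(n : ℤ)) n, (((n + 1 : ℕ) : ℂ) - ((|k| : ℤ) : ℂ)) * fourier k x =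
        ∑ k ∈ Icc (-(n : ℤ)) n, ((n : ℂ) - ((|k| : ℤ) : ℂ)) * fourier k x +
        ∑ k ∈ Icc (-(n : ℤ)) n, (fourier k x : ℂ) := by
      rw [← sum_add_distrib]
      refine sum_congr rfl fun k _ => ?_
      push_cast; ring
    have h3 : ∑ k ∈ Icc (-(n : ℤ)) n, ((n : ℂ) - ((|k| : ℤ) : ℂ)) * fourier k x =
        ∑ k ∈ Ioo (-(n : ℤ)) n, ((n : ℂ) - ((|k| : ℤ) : ℂ)) * fourier k x := by
      symm
      refine sum_subset (fun k hk => ?_) (fun k hk hk' => ?_)
      · simp only [mem_Icc, mem_Ioo] at hk ⊢; omega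
      · have hk2 : |k| = n := by
          simp only [mem_Icc, mem_Ioo, not_and, not_lt] at hk hk'
          rcases abs_cases k with h | h <;> omega
        rw [hk2]; simp
    rw [h2, h3, sum_Icc_neg (fun k => (fourier k x : ℂ))]
    have h4 : (∑ j ∈ range n, (fourier (j : ℤ) x : ℂ)) * conj (fourier (n : ℤ) x : ℂ) =
        ∑ j ∈ range n, (fourier ((j : ℤ) - n) x : ℂ) := by
      rw [sum_mul]
      refine sum_congr rfl fun j _ => ?_
      rw [← fourier_neg, ← fourier_add, sub_eq_add_neg]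
    have h5 : conj (∑ j ∈ range n, (fourier (j : ℤ) x : ℂ)) * (fourier (n : ℤ) x : ℂ) =
        ∑ j ∈ range n, (fourier ((n : ℤ) - j) x : ℂ) := by
      rw [map_sum, sum_mul]
      refine sum_congr rfl fun j _ => ?_
      rw [← fourier_neg, ← fourier_add, sub_eq_add_neg, add_comm]
    rw [h4, h5]
    simp only [fourier_zero]
    push_cast
    ring

lemma fejer_eq {D : ℕ} (hD : 0 < D) (x : UnitAddCircle) :
    (fejer D x : ℂ) =
      ∑ k ∈ Ioo (-(D : ℤ)) D, ((1 - |(k : ℝ)| / D : ℝ) : ℂ) * fourier k x := by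
  unfold fejer
  have hD' : (D : ℂ) ≠ 0 := by exact_mod_cast hD.ne'
  rw [Complex.ofReal_div, fejer_aux, sum_div]
  refine sum_congr rfl fun k _ => ?_
  have hk : ((|k| : ℤ) : ℂ) = ((|(k : ℝ)| : ℝ) : ℂ) := by
    rw [← Int.cast_abs, Complex.ofReal_intCast]
  rw [hk]
  push_cast
  field_simp

lemma continuous_fejer (D : ℕ) : Continuous (fejer D) := by
  unfold fejer
  fun_prop

end

end Pool.Agent.H390R2
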