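import Mathlib
import Pool.Agent.H390R2.Fejer

open MeasureTheory Finset
open scoped ComplexConjugate

namespace Pool.Agent.H390R2

noncomputable section

variable {ι : Type} [Fintype ι]

/-- Product measure on the torus. -/
abbrev tm (ι : Type) [Fintype ι] : Measure (ι → UnitAddCircle) := Measure.pi (fun _ => hm)

/-- Characters of the torus. -/
def chi (e : ι → ℤ) (x : ι → UnitAddCircle) : ℂ := ∏ i, fourier (e i) (x i)

lemma chi_zero (x : ι → UnitAddCircle) : chi (0 : ι → ℤ) x = 1 := by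
  simp [chi]

lemma chi_neg (e : ι → ℤ) (x : ι → UnitAddCircle) : chi (-e) x = conj (chi e x) := by
  simp only [chi, Pi.neg_apply, fourier_neg, map_prod]

lemma norm_chi (e : ι → ℤ) (x : ι → UnitAddCircle) : ‖chi e x‖ = 1 := by
  unfold chi
  rw [norm_prod]
  refine prod_eq_one fun i _ => ?_
  rw [fourier_apply]; exact Circle.norm_coe _

lemma chi_add (e : ι → ℤ) (x y : ι → UnitAddCircle) : chi e (x + y) = chi e x * chi e y := by
  unfold chi
  rw [← prod_mul_distrib]
  refine prod_congr rfl fun i _ => ?_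
  simp [fourier_apply, AddCircle.toCircle_add, smul_add]

lemma chi_neg_arg (e : ι → ℤ) (x : ι → UnitAddCircle) : chi e (-x) = conj (chi e x) := by
  unfold chi
  rw [map_prod]
  refine prod_congr rfl fun i _ => ?_
  rw [← fourier_neg]
  simp [fourier_apply]

lemma chi_sub (e : ι → ℤ) (x y : ι → UnitAddCircle) :
    chi e (x - y) = chi e x * chi (-e) y := by
  rw [sub_eq_add_neg, chi_add, chi_neg_arg, chi_neg]

lemma continuous_chi (e : ι → ℤ) : Continuous (chi e) := by
  unfold chi; fun_prop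

/-- The product Fejer kernel. -/
def KK (D : ι → ℕ) (x : ι → UnitAddCircle) : ℝ := ∏ i, fejer (D i) (x i)

lemma KK_nonneg (D : ι → ℕ) (x : ι → UnitAddCircle) : 0 ≤ KK D x :=
  prod_nonneg fun _ _ => fejer_nonneg _ _

lemma continuous_KK (D : ι → ℕ) : Continuous (KK D) := by
  unfold KK
  exact continuous_finsetProd _ fun i _ => (continuous_fejer _).comp (continuous_apply i)

/-- Fourier coefficients of the product Fejer kernel. -/
def cc (D : ι → ℕ) (e : ι → ℤ) : ℝ := ∏ i, (1 - |(e i : ℝ)| / D i)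

/-- Support of the Fourier transform of the product Fejer kernel. -/
def box [DecidableEq ι] (D : ι → ℕ) : Finset (ι → ℤ) :=
  Fintype.piFinset fun i => Ioo (-(D i : ℤ)) (D i)

lemma KK_eq [DecidableEq ι] {D : ι → ℕ} (hD : ∀ i, 0 < D i) (x : ι → UnitAddCircle) :
    (KK D x : ℂ) = ∑ e ∈ box D, (cc D e : ℂ) * chi e x := by
  unfold KK box
  rw [Complex.ofReal_prod]
  simp_rw [fejer_eq (hD _)]
  rw [prod_univ_sum]
  refine sum_congr rfl fun e _ => ?_
  rw [prod_mul_distrib]
  simp [cc, chi]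

/-- A measurable bounded function on the torus. -/
structure BM (f : (ι → UnitAddCircle) → ℝ) : Prop where
  meas : Measurable f
  bdd : ∃ C, ∀ x, |f x| ≤ C

lemma BM.integrable {f : (ι → UnitAddCircle) → ℝ} (hf : BM f) : Integrable f (tm ι) := by
  obtain ⟨C, hC⟩ := hf.bdd
  exact Integrable.of_bound hf.meas.aestronglyMeasurable C (Filter.Eventually.of_forall hC)

omit [Fintype ι] in
lemma BM.mul {f g : (ι → UnitAddCircle) → ℝ} (hf : BM f) (hg : BM g) :
    BM (fun x => f x * g x) := by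
  obtain ⟨C, hC⟩ := hf.bdd
  obtain ⟨C', hC'⟩ := hg.bdd
  refine ⟨hf.meas.mul hg.meas, C * C', fun x => ?_⟩
  rw [abs_mul]
  exact mul_le_mul (hC x) (hC' x) (abs_nonneg _) ((abs_nonneg _).trans (hC x))

/-- Fourier coefficients. -/
def ft (f : (ι → UnitAddCircle) → ℝ) (e : ι → ℤ) : ℂ := ∫ x, (f x : ℂ) * chi (-e) x ∂(tm ι)

lemma ft_conj (f : (ι → UnitAddCircle) → ℝ) (e : ι → ℤ) :
    ∫ x, (f x : ℂ) * chi e x ∂(tm ι) = conj (ft f e) := by
  unfold ft
  rw [← integral_conj]
  refine integral_congr_ae (Filter.Eventually.of_forall fun x => ?_)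
  simp [chi_neg]

lemma BM.integrable_chi {f : (ι → UnitAddCircle) → ℝ} (hf : BM f) (e : ι → ℤ) :
    Integrable (fun x => (f x : ℂ) * chi e x) (tm ι) := by
  obtain ⟨C, hC⟩ := hf.bdd
  refine Integrable.of_bound ?_ C (Filter.Eventually.of_forall fun x => ?_)
  · exact ((Complex.measurable_ofReal.comp hf.meas).mul
      (continuous_chi e).measurable).aestronglyMeasurable
  · rw [norm_mul, norm_chi, mul_one, Complex.norm_real]
    exact hC x

lemma double_integral [DecidableEq ι] {D : ι → ℕ} (hD : ∀ i, 0 < D i)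
    {f : (ι → UnitAddCircle) → ℝ} (hf : BM f) :
    ∫ x, ∫ y, f x * f y * KK D (x - y) ∂(tm ι) ∂(tm ι) =
      ∑ e ∈ box D, cc D e * ‖ft f e‖ ^ 2 := by
  have h1 : ∀ x, ((∫ y, f x * f y * KK D (x - y) ∂(tm ι) : ℝ) : ℂ) =
      ∑ e ∈ box D, (cc D e : ℂ) * ft f e * ((f x : ℂ) * chi e x) := by
    intro x
    rw [← integral_complex_ofReal]
    have h2 : ∀ y, ((f x * f y * KK D (x - y) : ℝ) : ℂ) =
        ∑ e ∈ box D, (cc D e : ℂ) * ((f x : ℂ) * chi e x) * ((f y : ℂ) * chi (-e) y) := by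
      intro y
      push_cast
      rw [KK_eq hD, mul_sum]
      refine sum_congr rfl fun e _ => ?_
      rw [chi_sub]
      ring
    simp_rw [h2]
    rw [integral_finsetSum]
    · refine sum_congr rfl fun e _ => ?_
      rw [integral_const_mul]
      unfold ft
      ring
    · intro e _
      exact (hf.integrable_chi (-e)).const_mul _
  have h3 : ((∫ x, ∫ y, f x * f y * KK D (x - y) ∂(tm ι) ∂(tm ι) : ℝ) : ℂ) =
      ((∑ e ∈ box D, cc D e * ‖ft f e‖ ^ 2 : ℝ) : ℂ) := by
    rw [← integral_complex_ofReal]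
    simp_rw [h1]
    rw [integral_finsetSum]
    · push_cast
      refine sum_congr rfl fun e _ => ?_
      rw [integral_const_mul, ft_conj, mul_assoc, Complex.mul_conj']
    · intro e _
      exact (hf.integrable_chi e).const_mul _
  exact_mod_cast h3

lemma integral_chi (e : ι → ℤ) (he : e ≠ 0) : ∫ x, chi e x ∂(tm ι) = 0 := by
  unfold chi
  rw [integral_fintype_prod_eq_prod]
  obtain ⟨i, hi⟩ := Function.ne_iff.mp he
  refine prod_eq_zero (mem_univ i) ?_
  have := fourierCoeff_fourier (T := 1) (e i)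
  have h0 := congrFun this 0
  simp only [fourierCoeff] at h0
  have hi' : e i ≠ 0 := hi
  simpa [Pi.single_apply, hi', hi'.symm] using h0

lemma bessel {f : (ι → UnitAddCircle) → ℝ} (hf : BM f) (S : Finset (ι → ℤ)) :
    ∑ e ∈ S, ‖ft f e‖ ^ 2 ≤ ∫ x, f x ^ 2 ∂(tm ι) := by
  obtain ⟨C, hC⟩ := hf.bdd
  have hm : MemLp (fun x => (f x : ℂ)) 2 (tm ι) := by
    refine MemLp.of_bound ?_ C (Filter.Eventually.of_forall fun x => ?_)
    · exact (Complex.measurable_ofReal.comp hf.meas).aestronglyMeasurable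
    · rw [Complex.norm_real]; exact hC x
  have h := UnitAddTorus.hasSum_sq_mFourierCoeff (d := ι) (hm.toLp _)
  have h1 : ∀ e, UnitAddTorus.mFourierCoeff (hm.toLp _) e = ft f e := by
    intro e
    refine integral_congr_ae ?_
    filter_upwards [hm.coeFn_toLp] with x hx
    rw [hx, smul_eq_mul, mul_comm]
    rfl
  have h2 : ∫ x, ‖(hm.toLp _) x‖ ^ 2 ∂(tm ι) = ∫ x, f x ^ 2 ∂(tm ι) := by
    refine integral_congr_ae ?_
    filter_upwards [hm.coeFn_toLp] with x hx
    rw [hx, Complex.norm_real]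
    simp
  rw [← h2]
  simp_rw [h1] at h
  exact sum_le_hasSum S (fun _ _ => by positivity) h

end

end Pool.Agent.H390R2
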