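import Mathlib
import Pool.Agent.H390R2.Torus

open MeasureTheory Finset
open scoped ComplexConjugate

namespace Pool.Agent.H390R2

noncomputable section

variable {ι : Type} [Fintype ι]

/-- The square function of `φ` over the cyclic orbit generated by `v`. -/
def orb (N : ℕ) (v : ι → UnitAddCircle) (φ : (ι → UnitAddCircle) → ℝ)
    (x : ι → UnitAddCircle) : ℝ :=
  √(∑ j ∈ range N, φ (x - j • v) ^ 2)

omit [Fintype ι] in
lemma orb_sq (N : ℕ) (v : ι → UnitAddCircle) (φ : (ι → UnitAddCircle) → ℝ)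
    (x : ι → UnitAddCircle) : orb N v φ x ^ 2 = ∑ j ∈ range N, φ (x - j • v) ^ 2 :=
  Real.sq_sqrt (sum_nonneg fun _ _ => sq_nonneg _)

omit [Fintype ι] in
lemma orb_nonneg (N : ℕ) (v : ι → UnitAddCircle) (φ : (ι → UnitAddCircle) → ℝ)
    (x : ι → UnitAddCircle) : 0 ≤ orb N v φ x := Real.sqrt_nonneg _

omit [Fintype ι] in
lemma orb_periodic {N : ℕ} {v : ι → UnitAddCircle} (hv : N • v = 0)
    (φ : (ι → UnitAddCircle) → ℝ) (x : ι → UnitAddCircle) :
    orb N v φ (x - v) = orb N v φ x := by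
  unfold orb
  congr 1
  have h1 : ∀ j : ℕ, φ (x - v - j • v) ^ 2 = φ (x - (j + 1) • v) ^ 2 := by
    intro j
    rw [add_smul, one_smul, sub_sub, add_comm v]
  simp_rw [h1]
  have h2 := sum_range_succ (fun j : ℕ => φ (x - j • v) ^ 2) N
  have h3 := sum_range_succ' (fun j : ℕ => φ (x - j • v) ^ 2) N
  rw [hv] at h2
  simp only [zero_smul] at h3
  linarith

omit [Fintype ι] in
lemma BM.orb {φ : (ι → UnitAddCircle) → ℝ} (hφ : BM φ) (N : ℕ) (v : ι → UnitAddCircle) :
    BM (orb N v φ) := by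
  obtain ⟨C, hC⟩ := hφ.bdd
  constructor
  · unfold Pool.Agent.H390R2.orb
    refine Measurable.sqrt (Finset.measurable_sum _ fun j _ => ?_)
    exact (hφ.meas.comp (measurable_sub_const _)).pow_const 2
  · refine ⟨√(N * C ^ 2), fun x => ?_⟩
    rw [abs_of_nonneg (orb_nonneg _ _ _ _)]
    refine Real.sqrt_le_sqrt ?_
    have : ∀ j ∈ range N, φ (x - j • v) ^ 2 ≤ C ^ 2 := by
      intro j _
      rw [← sq_abs]
      have h0 := abs_nonneg (φ (x - j • v))
      have h1 := hC (x - j • v)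
      nlinarith
    simpa using sum_le_sum this

omit [Fintype ι] in
lemma BM.shift {φ : (ι → UnitAddCircle) → ℝ} (hφ : BM φ) (v : ι → UnitAddCircle) :
    BM (fun x => φ (x - v)) := by
  obtain ⟨C, hC⟩ := hφ.bdd
  exact ⟨hφ.meas.comp (measurable_sub_const _), C, fun x => hC _⟩

omit [Fintype ι] in
lemma BM.sq {φ : (ι → UnitAddCircle) → ℝ} (hφ : BM φ) : BM (fun x => φ x ^ 2) := by
  have := hφ.mul hφ
  simpa [pow_two] using this

lemma integral_shift (f : (ι → UnitAddCircle) → ℝ) (v : ι → UnitAddCircle) :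
    ∫ x, f (x - v) ∂(tm ι) = ∫ x, f x ∂(tm ι) :=
  integral_sub_right_eq_self f v

lemma integral_orb_sq {φ : (ι → UnitAddCircle) → ℝ} (hφ : BM φ) (N : ℕ)
    (v : ι → UnitAddCircle) :
    ∫ x, orb N v φ x ^ 2 ∂(tm ι) = N * ∫ x, φ x ^ 2 ∂(tm ι) := by
  simp_rw [orb_sq]
  rw [integral_finsetSum]
  · have : ∀ j ∈ range N, ∫ x, φ (x - j • v) ^ 2 ∂(tm ι) = ∫ x, φ x ^ 2 ∂(tm ι) :=
      fun j _ => integral_shift (fun x => φ x ^ 2) (j • v)
    rw [sum_congr rfl this]
    simp
  · intro j _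
    exact ((hφ.shift (j • v)).sq).integrable

lemma BM_KK (D : ι → ℕ) : BM (KK D) := by
  refine ⟨(continuous_KK D).measurable, ?_⟩
  obtain ⟨C, hC⟩ := (isCompact_univ (X := ι → UnitAddCircle)).exists_bound_of_continuousOn
    (continuous_KK D).continuousOn
  exact ⟨C, fun x => by simpa using hC x (Set.mem_univ x)⟩

/-- The quadratic form of the convolution operator with the product Fejer kernel. -/
def Q (D : ι → ℕ) (f g : (ι → UnitAddCircle) → ℝ) : ℝ :=
  ∫ x, ∫ y, f x * g y * KK D (x - y) ∂(tm ι) ∂(tm ι)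

lemma inner_BM (D : ι → ℕ) {f g : (ι → UnitAddCircle) → ℝ} (hf : BM f) (hg : BM g) :
    BM (fun x => ∫ y, f x * g y * KK D (x - y) ∂(tm ι)) := by
  obtain ⟨C, hC⟩ := hf.bdd
  obtain ⟨C', hC'⟩ := hg.bdd
  obtain ⟨C'', hC''⟩ := (BM_KK D).bdd
  constructor
  · have : Measurable (fun p : (ι → UnitAddCircle) × (ι → UnitAddCircle) =>
        f p.1 * g p.2 * KK D (p.1 - p.2)) :=
      ((hf.meas.comp measurable_fst).mul (hg.meas.comp measurable_snd)).mul
        ((continuous_KK D).measurable.comp (measurable_fst.sub measurable_snd))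
    exact (this.stronglyMeasurable.integral_prod_right (ν := tm ι)).measurable
  · refine ⟨C * C' * C'', fun x => ?_⟩
    have h := norm_integral_le_of_norm_le_const (μ := tm ι)
      (f := fun y => f x * g y * KK D (x - y)) (C := C * C' * C'')
      (Filter.Eventually.of_forall fun y => ?_)
    · simpa using h
    · rw [norm_mul, norm_mul]
      have a1 := hC x
      have a2 := hC' y
      have a3 := hC'' (x - y)
      have b1 := abs_nonneg (f x)
      have b2 := abs_nonneg (g y)
      have b3 := abs_nonneg (KK D (x - y))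
      simp only [Real.norm_eq_abs]
      exact mul_le_mul (mul_le_mul a1 a2 b2 (b1.trans a1)) a3 b3
        (mul_nonneg (b1.trans a1) (b2.trans a2))

lemma section_BM (D : ι → ℕ) {f g : (ι → UnitAddCircle) → ℝ} (hg : BM g)
    (x : ι → UnitAddCircle) :
    BM (fun y => f x * g y * KK D (x - y)) := by
  obtain ⟨C', hC'⟩ := hg.bdd
  obtain ⟨C'', hC''⟩ := (BM_KK D).bdd
  constructor
  · exact (measurable_const.mul hg.meas).mul
      ((continuous_KK D).measurable.comp (measurable_const_sub _))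
  · refine ⟨|f x| * C' * C'', fun y => ?_⟩
    rw [abs_mul, abs_mul]
    have a2 := hC' y
    have a3 := hC'' (x - y)
    have b1 := abs_nonneg (f x)
    have b2 := abs_nonneg (g y)
    have b3 := abs_nonneg (KK D (x - y))
    exact mul_le_mul (mul_le_mul le_rfl a2 b2 b1) a3 b3 (mul_nonneg b1 (b2.trans a2))

lemma Q_mono (D : ι → ℕ) {f g f' g' : (ι → UnitAddCircle) → ℝ} (hf : BM f) (hg : BM g)
    (hf' : BM f') (hg' : BM g') (h : ∀ x y, f x * g y ≤ f' x * g' y) :
    Q D f g ≤ Q D f' g' := by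
  unfold Q
  refine integral_mono (inner_BM D hf hg).integrable (inner_BM D hf' hg').integrable
    fun x => ?_
  refine integral_mono (section_BM D hg x).integrable (section_BM D hg' x).integrable
    fun y => ?_
  exact mul_le_mul_of_nonneg_right (h x y) (KK_nonneg D _)

lemma Q_shift (D : ι → ℕ) (f g : (ι → UnitAddCircle) → ℝ) (v : ι → UnitAddCircle) :
    Q D (fun x => f (x - v)) (fun x => g (x - v)) = Q D f g := by
  unfold Q
  have h1 : ∀ x, ∫ y, f (x - v) * g (y - v) * KK D (x - y) ∂(tm ι) =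
      ∫ y, f (x - v) * g y * KK D (x - v - y) ∂(tm ι) := by
    intro x
    rw [← integral_shift (fun y => f (x - v) * g y * KK D (x - v - y)) v]
    simp
  simp_rw [h1]
  exact integral_shift (fun x => ∫ y, f x * g y * KK D (x - y) ∂(tm ι)) v

end

end Pool.Agent.H390R2
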