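import Mathlib
import Pool.Agent.H390R2.Orbit

open MeasureTheory Finset
open scoped ComplexConjugate

namespace Pool.Agent.H390R2

noncomputable section

variable {ι : Type} [Fintype ι]

/-- Generator of the finite cyclic subgroup of the torus dual to the lattice. -/
def vec (N : ℕ) (W : ι → ℤ) : ι → UnitAddCircle :=
  fun i => (((W i : ℝ) / N : ℝ) : UnitAddCircle)

omit [Fintype ι] in
lemma N_smul_vec {N : ℕ} (hN : 0 < N) (W : ι → ℤ) : N • vec N W = 0 := by
  funext i
  have hN' : (N : ℝ) ≠ 0 := by exact_mod_cast hN.ne'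
  simp only [Pi.smul_apply, vec, Pi.zero_apply]
  rw [← AddCircle.coe_nsmul, AddCircle.coe_eq_zero_iff]
  refine ⟨W i, ?_⟩
  simp only [nsmul_eq_mul, zsmul_eq_mul, mul_one]
  field_simp

lemma chi_vec_ne_one {N : ℕ} (hN : 0 < N) (W : ι → ℤ) (e : ι → ℤ)
    (h : ¬ (N : ℤ) ∣ ∑ i, W i * e i) : chi e (vec N W) ≠ 1 := by
  have hN' : (N : ℂ) ≠ 0 := by exact_mod_cast hN.ne'
  have h1 : chi e (vec N W) =
      Complex.exp (2 * Real.pi * Complex.I * ((∑ i, W i * e i : ℤ) : ℂ) / N) := by
    unfold chi vec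
    simp_rw [fourier_coe_apply]
    rw [← Complex.exp_sum]
    congr 1
    push_cast
    rw [mul_sum, sum_div]
    refine sum_congr rfl fun i _ => ?_
    simp
    ring
  rw [h1]
  intro h2
  rw [Complex.exp_eq_one_iff] at h2
  obtain ⟨n, hn⟩ := h2
  apply h
  refine ⟨n, ?_⟩
  have hpi : (2 * Real.pi * Complex.I : ℂ) ≠ 0 := Complex.two_pi_I_ne_zero
  have h3 : ((∑ i, W i * e i : ℤ) : ℂ) = (N : ℂ) * n := by
    have : (2 * Real.pi * Complex.I : ℂ) * ((∑ i, W i * e i : ℤ) : ℂ) =
        (2 * Real.pi * Complex.I : ℂ) * ((N : ℂ) * n) := by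
      field_simp at hn
      linear_combination (2 * Real.pi * Complex.I : ℂ) * hn
    exact mul_left_cancel₀ hpi this
  exact_mod_cast h3

lemma ft_eq_zero {N : ℕ} (hN : 0 < N) (W : ι → ℤ) {f : (ι → UnitAddCircle) → ℝ}
    (hf : ∀ x, f (x - vec N W) = f x) (e : ι → ℤ)
    (h : ¬ (N : ℤ) ∣ ∑ i, W i * e i) : ft f e = 0 := by
  have h1 : ft f e = chi e (vec N W) * ft f e := by
    conv_lhs => unfold ft
    rw [← integral_sub_right_eq_self (fun x => (f x : ℂ) * chi (-e) x) (vec N W)]
    unfold ft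
    rw [← integral_const_mul]
    refine integral_congr_ae (Filter.Eventually.of_forall fun x => ?_)
    simp only [hf]
    rw [chi_sub, neg_neg]
    ring
  have h2 := chi_vec_ne_one hN W e h
  have h3 : (1 - chi e (vec N W)) * ft f e = 0 := by
    rw [sub_mul, one_mul, ← h1, sub_self]
  rcases mul_eq_zero.mp h3 with h4 | h4
  · exact absurd (sub_eq_zero.mp h4).symm h2
  · exact h4

omit [Fintype ι] in
lemma cauchy {f g : (ι → UnitAddCircle) → ℝ} [Fintype ι] (hf : BM f) (hg : BM g) :
    (∫ x, f x * g x ∂(tm ι)) ^ 2 ≤ (∫ x, f x ^ 2 ∂(tm ι)) * ∫ x, g x ^ 2 ∂(tm ι) := by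
  have key : ∀ t : ℝ, 0 ≤ (∫ x, g x ^ 2 ∂(tm ι)) * (t * t) +
      (-2 * ∫ x, f x * g x ∂(tm ι)) * t + ∫ x, f x ^ 2 ∂(tm ι) := by
    intro t
    have h0 : 0 ≤ ∫ x, (f x - t * g x) ^ 2 ∂(tm ι) := integral_nonneg fun x => sq_nonneg _
    have h1 : ∫ x, (f x - t * g x) ^ 2 ∂(tm ι) =
        (∫ x, f x ^ 2 ∂(tm ι)) - 2 * t * (∫ x, f x * g x ∂(tm ι)) +
          t ^ 2 * ∫ x, g x ^ 2 ∂(tm ι) := by
      rw [← integral_const_mul, ← integral_const_mul, ← integral_sub, ← integral_add]
      · refine integral_congr_ae (Filter.Eventually.of_forall fun x => ?_)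
        simp only
        ring
      · exact (hf.sq.integrable).sub ((hf.mul hg).integrable.const_mul _)
      · exact (hg.sq.integrable).const_mul _
      · exact hf.sq.integrable
      · exact (hf.mul hg).integrable.const_mul _
    rw [h1] at h0
    nlinarith
  have h := discrim_le_zero key
  unfold discrim at h
  nlinarith

/-- The spectral inequality on the torus: a nonnegative function supported on `Ω` cannot have
large correlation with its Fejer average, unless the lattice has short vectors or the translates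
of `Ω` fill the torus. -/
theorem torus_ineq {N : ℕ} (hN : 0 < N) (W : ι → ℤ) {D : ι → ℕ} (hD : ∀ i, 0 < D i)
    {κ : ℝ} (hκ0 : 0 ≤ κ)
    (hκ : ∀ e : ι → ℤ, e ≠ 0 → (N : ℤ) ∣ ∑ i, W i * e i → (∀ i, |e i| < D i) → cc D e ≤ κ)
    {φ : (ι → UnitAddCircle) → ℝ} (hφ : BM φ) {Ω : Set (ι → UnitAddCircle)}
    (hΩ : MeasurableSet Ω) (hsupp : ∀ x, x ∉ Ω → φ x = 0) :
    Q D φ φ ≤ (κ + N * (tm ι).real Ω) * ∫ x, φ x ^ 2 ∂(tm ι) := by
  classical
  set v := vec N W with hv
  have hNv : N • v = 0 := N_smul_vec hN W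
  set f := orb N v φ with hf
  have hfB : BM f := hφ.orb N v
  set A := ∫ x, φ x ^ 2 ∂(tm ι) with hA
  have hA0 : 0 ≤ A := integral_nonneg fun x => sq_nonneg _
  have hfA : ∫ x, f x ^ 2 ∂(tm ι) = N * A := integral_orb_sq hφ N v
  -- lower bound
  have h1 : N * Q D φ φ ≤ Q D f f := by
    have hB : ∀ j : ℕ, BM (fun x => φ (x - j • v)) := fun j => hφ.shift _
    have h2 : N * Q D φ φ = ∫ x, ∑ j ∈ range N, ∫ y, φ (x - j • v) * φ (y - j • v) *
        KK D (x - y) ∂(tm ι) ∂(tm ι) := by
      rw [integral_finsetSum]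
      · have h4 : ∀ j ∈ range N, ∫ x, ∫ y, φ (x - j • v) * φ (y - j • v) *
            KK D (x - y) ∂(tm ι) ∂(tm ι) = Q D φ φ := fun j _ => Q_shift D φ φ (j • v)
        rw [sum_congr rfl h4]
        simp
      · intro j _
        exact (inner_BM D (hB j) (hB j)).integrable
    rw [h2]
    unfold Q
    refine integral_mono ?_ (inner_BM D hfB hfB).integrable fun x => ?_
    · exact integrable_finsetSum _ fun j _ => (inner_BM D (hB j) (hB j)).integrable
    · simp only
      rw [← integral_finsetSum]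
      · refine integral_mono ?_ (section_BM D hfB x).integrable fun y => ?_
        · exact integrable_finsetSum _ fun j _ =>
            (section_BM (f := fun x => φ (x - j • v)) D (hB j) x).integrable
        · simp only
          rw [← sum_mul]
          refine mul_le_mul_of_nonneg_right ?_ (KK_nonneg D _)
          exact Real.sum_mul_le_sqrt_mul_sqrt _ _ _
      · intro j _
        exact (section_BM (f := fun x => φ (x - j • v)) D (hB j) x).integrable
  -- upper bound
  have h2 : Q D f f ≤ ‖ft f 0‖ ^ 2 + κ * (N * A) := by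
    unfold Q
    rw [double_integral hD hfB]
    have h0 : (0 : ι → ℤ) ∈ box D := by
      simp only [box, Fintype.mem_piFinset, mem_Ioo, Pi.zero_apply]
      intro i
      have := hD i
      constructor <;> omega
    rw [← add_sum_erase _ _ h0]
    have hc0 : cc D (0 : ι → ℤ) = 1 := by simp [cc]
    rw [hc0, one_mul]
    refine add_le_add le_rfl ?_
    have h3 : ∀ e ∈ (box D).erase 0, cc D e * ‖ft f e‖ ^ 2 ≤ κ * ‖ft f e‖ ^ 2 := by
      intro e he
      rw [mem_erase] at he
      by_cases hdiv : (N : ℤ) ∣ ∑ i, W i * e i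
      · refine mul_le_mul_of_nonneg_right (hκ e he.1 hdiv fun i => ?_) (by positivity)
        have := he.2
        simp only [box, Fintype.mem_piFinset, mem_Ioo] at this
        exact abs_lt.mpr (this i)
      · rw [ft_eq_zero hN W (fun x => orb_periodic hNv φ x) e hdiv]
        simp
    refine (sum_le_sum h3).trans ?_
    rw [← mul_sum, ← hfA]
    exact mul_le_mul_of_nonneg_left (bessel hfB _) hκ0
  -- the zero coefficient
  have h3 : ‖ft f 0‖ ^ 2 ≤ N * A * (N * (tm ι).real Ω) := by
    have h4 : ft f 0 = ((∫ x, f x ∂(tm ι) : ℝ) : ℂ) := by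
      unfold ft
      rw [← integral_complex_ofReal]
      refine integral_congr_ae (Filter.Eventually.of_forall fun x => ?_)
      simp [chi_zero]
    rw [h4, Complex.norm_real, Real.norm_eq_abs, sq_abs]
    set χ : (ι → UnitAddCircle) → ℝ := Ω.indicator (fun _ => 1) with hχ
    have hχB : BM χ := by
      refine ⟨measurable_const.indicator hΩ, 1, fun x => ?_⟩
      by_cases hx : x ∈ Ω <;> simp [hχ, hx]
    have hχA : ∫ x, χ x ^ 2 ∂(tm ι) = (tm ι).real Ω := by
      have : ∀ x, χ x ^ 2 = Ω.indicator (fun _ => (1 : ℝ)) x := by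
        intro x
        by_cases hx : x ∈ Ω <;> simp [hχ, hx]
      simp_rw [this]
      rw [integral_indicator hΩ]
      simp
    set g := orb N v χ with hg
    have hgB : BM g := hχB.orb N v
    have hgA : ∫ x, g x ^ 2 ∂(tm ι) = N * (tm ι).real Ω := by
      rw [← hχA]; exact integral_orb_sq hχB N v
    have hfg : ∀ x, f x ≤ f x * g x := by
      intro x
      by_cases hx : f x = 0
      · rw [hx]; simp
      · have hfx : 0 ≤ f x := orb_nonneg _ _ _ _
        have hex : ∃ j ∈ range N, φ (x - j • v) ≠ 0 := by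
          by_contra hcon
          push Not at hcon
          apply hx
          simp only [hf, orb]
          rw [sum_eq_zero fun j hj => by rw [hcon j hj]; simp]
          simp
        obtain ⟨j, hj, hjx⟩ := hex
        have hjΩ : x - j • v ∈ Ω := by
          by_contra hcon
          exact hjx (hsupp _ hcon)
        have hg1 : 1 ≤ g x := by
          simp only [hg, orb]
          rw [Real.one_le_sqrt]
          have := single_le_sum (f := fun j : ℕ => χ (x - j • v) ^ 2)
            (fun j _ => sq_nonneg _) hj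
          refine le_trans ?_ this
          simp [hχ, hjΩ]
        nlinarith
    have h5 : ∫ x, f x ∂(tm ι) ≤ ∫ x, f x * g x ∂(tm ι) :=
      integral_mono hfB.integrable (hfB.mul hgB).integrable hfg
    have h6 : 0 ≤ ∫ x, f x ∂(tm ι) := integral_nonneg fun x => orb_nonneg _ _ _ _
    have h7 := cauchy hfB hgB
    rw [hfA, hgA] at h7
    exact (pow_le_pow_left₀ h6 h5 2).trans h7
  have hN' : (0 : ℝ) < N := by exact_mod_cast hN
  have h4 : N * Q D φ φ ≤ N * ((κ + N * (tm ι).real Ω) * A) := by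
    calc N * Q D φ φ ≤ Q D f f := h1
      _ ≤ ‖ft f 0‖ ^ 2 + κ * (N * A) := h2
      _ ≤ N * A * (N * (tm ι).real Ω) + κ * (N * A) := by linarith
      _ = N * ((κ + N * (tm ι).real Ω) * A) := by ring
  exact le_of_mul_le_mul_left h4 hN'

end

end Pool.Agent.H390R2
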