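import Mathlib
import Pool.Agent.H390R2.Fejer

open MeasureTheory Finset
open scoped ComplexConjugate

namespace Pool.Agent.H390R2

noncomputable section

/-- The coordinate `z = exp(2 pi i x)` on the circle. -/
def zz (x : UnitAddCircle) : ℂ := fourier 1 x

lemma norm_zz (x : UnitAddCircle) : ‖zz x‖ = 1 := by
  unfold zz; rw [fourier_apply]; exact Circle.norm_coe _

lemma continuous_zz : Continuous zz := by unfold zz; fun_prop

lemma zz_pow (n : ℕ) (x : UnitAddCircle) : zz x ^ n = fourier (n : ℤ) x := by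
  induction n with
  | zero => simp
  | succ n ih =>
    rw [pow_succ, ih, zz, ← fourier_add]
    push_cast; rfl

lemma integral_fourier (k : ℤ) : ∫ x, (fourier k x : ℂ) ∂hm = if k = 0 then 1 else 0 := by
  have := fourierCoeff_fourier (T := 1) k
  have h0 := congrFun this 0
  simp only [fourierCoeff] at h0
  by_cases hk : k = 0
  · subst hk; simpa using h0
  · simpa [Pi.single_apply, hk, Ne.symm hk] using h0

lemma integral_zz_pow (k : ℕ) : ∫ x, zz x ^ k ∂hm = if k = 0 then 1 else 0 := by
  simp_rw [zz_pow]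
  rw [integral_fourier]
  simp

lemma integral_zz_pow_mul_conj (k l : ℕ) :
    ∫ x, zz x ^ k * conj (zz x ^ l) ∂hm = if k = l then 1 else 0 := by
  have : ∀ x, zz x ^ k * conj (zz x ^ l) = (fourier ((k : ℤ) - l) x : ℂ) := by
    intro x
    rw [zz_pow, zz_pow, ← fourier_neg, ← fourier_add, sub_eq_add_neg]
  simp_rw [this]
  rw [integral_fourier]
  simp [sub_eq_zero]

/-- A power series in `z` with absolutely summable coefficients. -/
def ps (a : ℕ → ℝ) (x : UnitAddCircle) : ℂ := ∑' k, (a k : ℂ) * zz x ^ k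

lemma summable_ps {a : ℕ → ℝ} (ha : Summable fun k => |a k|) (x : UnitAddCircle) :
    Summable fun k => (a k : ℂ) * zz x ^ k := by
  refine Summable.of_norm ?_
  simpa [norm_zz] using ha

lemma norm_ps_le {a : ℕ → ℝ} (ha : Summable fun k => |a k|) (x : UnitAddCircle) :
    ‖ps a x‖ ≤ ∑' k, |a k| := by
  unfold ps
  refine (norm_tsum_le_tsum_norm ?_).trans ?_
  · simpa [norm_zz] using ha
  · simp [norm_zz]

lemma continuous_ps {a : ℕ → ℝ} (ha : Summable fun k => |a k|) : Continuous (ps a) := by
  unfold ps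
  refine continuous_tsum (fun k => by have := continuous_zz; fun_prop) ha fun k x => ?_
  simp [norm_zz]

lemma termwise {a : ℕ → ℝ} (ha : Summable fun k => |a k|) {g : UnitAddCircle → ℂ}
    (hg : Continuous g) :
    HasSum (fun k => (a k : ℂ) * ∫ x, zz x ^ k * g x ∂hm) (∫ x, ps a x * g x ∂hm) := by
  obtain ⟨C, hC⟩ := (isCompact_univ (X := UnitAddCircle)).exists_bound_of_continuousOn
    hg.continuousOn
  have hC' : ∀ x, ‖g x‖ ≤ C := fun x => hC x (Set.mem_univ x)
  have hz := continuous_zz
  have h1 := hasSum_integral_of_summable_integral_norm (μ := hm)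
    (F := fun (k : ℕ) x => (a k : ℂ) * (zz x ^ k * g x)) ?_ ?_
  · have e1 : ∀ x, ∑' k, (a k : ℂ) * (zz x ^ k * g x) = ps a x * g x := by
      intro x
      unfold ps
      rw [← tsum_mul_right]
      exact tsum_congr fun k => by ring
    simp_rw [e1] at h1
    simpa [integral_const_mul] using h1
  · intro k
    refine Integrable.of_bound ?_ (|a k| * C) (Filter.Eventually.of_forall fun x => ?_)
    · exact (Continuous.aestronglyMeasurable (by fun_prop))
    · rw [norm_mul, norm_mul, norm_pow, norm_zz]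
      simp only [one_pow, one_mul, Complex.norm_real, Real.norm_eq_abs]
      exact mul_le_mul_of_nonneg_left (hC' x) (abs_nonneg _)
  · refine Summable.of_nonneg_of_le (fun k => integral_nonneg fun x => norm_nonneg _)
      (fun k => ?_) (ha.mul_right C)
    have h2 := norm_integral_le_of_norm_le_const (μ := hm)
      (f := fun x => ‖(a k : ℂ) * (zz x ^ k * g x)‖) (C := |a k| * C)
      (Filter.Eventually.of_forall fun x => ?_)
    · have h3 := le_abs_self (∫ x, ‖(a k : ℂ) * (zz x ^ k * g x)‖ ∂hm)
      simp only [Real.norm_eq_abs, probReal_univ, mul_one] at h2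
      exact h3.trans h2
    · rw [norm_norm, norm_mul, norm_mul, norm_pow, norm_zz]
      simp only [one_pow, one_mul, Complex.norm_real, Real.norm_eq_abs]
      exact mul_le_mul_of_nonneg_left (hC' x) (abs_nonneg _)

lemma integral_zz_pow_mul_ps {c : ℕ → ℝ} (hc : Summable fun k => |c k|) (k : ℕ) :
    ∫ x, zz x ^ k * ps c x ∂hm = if k = 0 then (c 0 : ℂ) else 0 := by
  have hz := continuous_zz
  have h := termwise hc (g := fun x => zz x ^ k) (by fun_prop)
  have h1 : ∀ l, (c l : ℂ) * ∫ x, zz x ^ l * zz x ^ k ∂hm =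
      if l = 0 then (if k = 0 then (c 0 : ℂ) else 0) else 0 := by
    intro l
    simp_rw [← pow_add]
    rw [integral_zz_pow]
    by_cases hl : l = 0 <;> by_cases hk : k = 0 <;> simp [hl, hk]
  simp_rw [h1] at h
  have h2 := h.unique (hasSum_ite_eq 0 (if k = 0 then (c 0 : ℂ) else 0))
  rw [← h2]
  exact integral_congr_ae (Filter.Eventually.of_forall fun x => mul_comm _ _)

lemma integral_zz_pow_mul_conj_ps {c : ℕ → ℝ} (hc : Summable fun k => |c k|) (k : ℕ) :
    ∫ x, zz x ^ k * conj (ps c x) ∂hm = (c k : ℂ) := by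
  have hz := continuous_zz
  have h := termwise hc (g := fun x => conj (zz x ^ k)) (by fun_prop)
  have h1 : ∀ l, (c l : ℂ) * ∫ x, zz x ^ l * conj (zz x ^ k) ∂hm =
      if l = k then (c k : ℂ) else 0 := by
    intro l
    rw [integral_zz_pow_mul_conj]
    by_cases hl : l = k
    · subst hl; simp
    · simp [hl]
  simp_rw [h1] at h
  have h2 := h.unique (hasSum_ite_eq k (c k : ℂ))
  have h3 : ∫ x, zz x ^ k * conj (ps c x) ∂hm =
      conj (∫ x, ps c x * conj (zz x ^ k) ∂hm) := by
    rw [← integral_conj]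
    refine integral_congr_ae (Filter.Eventually.of_forall fun x => ?_)
    simp [mul_comm]
  rw [h3, h2, Complex.conj_ofReal]

lemma integral_ps_mul_ps {a c : ℕ → ℝ} (ha : Summable fun k => |a k|)
    (hc : Summable fun k => |c k|) :
    ∫ x, ps a x * ps c x ∂hm = (a 0 : ℂ) * c 0 := by
  have h := termwise ha (continuous_ps hc)
  simp_rw [integral_zz_pow_mul_ps hc] at h
  have h1 : ∀ k, (a k : ℂ) * (if k = 0 then (c 0 : ℂ) else 0) =
      if k = 0 then (a 0 : ℂ) * c 0 else 0 := by
    intro k
    by_cases hk : k = 0 <;> simp [hk]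
  simp_rw [h1] at h
  exact h.unique (hasSum_ite_eq 0 _)

lemma integral_ps_mul_conj_ps {a c : ℕ → ℝ} (ha : Summable fun k => |a k|)
    (hc : Summable fun k => |c k|) :
    HasSum (fun k => ((a k * c k : ℝ) : ℂ)) (∫ x, ps a x * conj (ps c x) ∂hm) := by
  have h := termwise ha (g := fun x => conj (ps c x))
    (by have := continuous_ps hc; fun_prop)
  simp_rw [integral_zz_pow_mul_conj_ps hc] at h
  simpa using h

lemma integral_ps {a : ℕ → ℝ} (ha : Summable fun k => |a k|) :
    ∫ x, ps a x ∂hm = (a 0 : ℂ) := by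
  have := integral_zz_pow_mul_ps ha 0
  simpa using this

end

end Pool.Agent.H390R2
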