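import Mathlib
import Pool.Agent.H390R2.Circle

open MeasureTheory Finset
open scoped ComplexConjugate

namespace Pool.Agent.H390R2

noncomputable section

lemma hasSum_choose {𝕜 : Type*} [NormedField 𝕜] [CompleteSpace 𝕜] (j : ℕ) {w : 𝕜}
    (hw : ‖w‖ < 1) :
    HasSum (fun k : ℕ => (k.choose j : 𝕜) * w ^ k) (w ^ j / (1 - w) ^ (j + 1)) := by
  have h := (hasSum_choose_mul_geometric_of_norm_lt_one j hw).mul_left (w ^ j)
  rw [← hasSum_nat_add_iff' j]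
  have h0 : ∑ i ∈ range j, (i.choose j : 𝕜) * w ^ i = 0 := by
    refine sum_eq_zero fun i hi => ?_
    rw [mem_range] at hi
    rw [Nat.choose_eq_zero_of_lt hi]
    simp
  rw [h0, sub_zero]
  convert! h using 1
  · funext n
    rw [pow_add]; ring
  · rw [mul_one_div]

/-- The function `|1 - ρ z|^2` on the circle. -/
def PP (ρ : ℝ) (x : UnitAddCircle) : ℝ := ‖1 - (ρ : ℂ) * zz x‖ ^ 2

lemma continuous_PP (ρ : ℝ) : Continuous (PP ρ) := by
  have := continuous_zz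
  unfold PP; fun_prop

lemma PP_lower {ρ : ℝ} (h0 : 0 < ρ) (h1 : ρ < 1) (x : UnitAddCircle) :
    (1 - ρ) ^ 2 ≤ PP ρ x := by
  unfold PP
  have h2 : 1 - ρ ≤ ‖1 - (ρ : ℂ) * zz x‖ := by
    have h3 := norm_sub_norm_le (1 : ℂ) ((ρ : ℂ) * zz x)
    rw [norm_one, norm_mul, norm_zz, Complex.norm_real, Real.norm_eq_abs, abs_of_pos h0] at h3
    linarith
  exact pow_le_pow_left₀ (by linarith) h2 2

lemma PP_pos {ρ : ℝ} (h0 : 0 < ρ) (h1 : ρ < 1) (x : UnitAddCircle) : 0 < PP ρ x :=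
  lt_of_lt_of_le (by nlinarith) (PP_lower h0 h1 x)

lemma PP_upper {ρ : ℝ} (h0 : 0 < ρ) (h1 : ρ < 1) (x : UnitAddCircle) :
    PP ρ x ≤ 4 := by
  unfold PP
  have h2 : ‖1 - (ρ : ℂ) * zz x‖ ≤ 2 := by
    have h3 := norm_sub_le (1 : ℂ) ((ρ : ℂ) * zz x)
    rw [norm_one, norm_mul, norm_zz, Complex.norm_real, Real.norm_eq_abs, abs_of_pos h0] at h3
    linarith
  have := pow_le_pow_left₀ (norm_nonneg _) h2 2
  linarith

lemma PP_eq (ρ : ℝ) (x : UnitAddCircle) :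
    (PP ρ x : ℂ) = (1 - (ρ : ℂ) * zz x) * (1 - conj ((ρ : ℂ) * zz x)) := by
  unfold PP
  have := Complex.mul_conj' (1 - (ρ : ℂ) * zz x)
  rw [map_sub, map_one] at this
  rw [this]; push_cast; rfl

lemma w_mul (ρ : ℝ) (x : UnitAddCircle) :
    ((ρ : ℂ) * zz x) * conj ((ρ : ℂ) * zz x) = (ρ : ℂ) ^ 2 := by
  rw [Complex.mul_conj', norm_mul, norm_zz, Complex.norm_real, mul_one]
  rw [Real.norm_eq_abs, ← Complex.ofReal_pow, sq_abs]
  push_cast; rfl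

lemma one_sub_ne {ρ : ℝ} (h0 : 0 < ρ) (h1 : ρ < 1) (x : UnitAddCircle) :
    1 - (ρ : ℂ) * zz x ≠ 0 := by
  have := PP_pos h0 h1 x
  unfold PP at this
  intro h
  rw [h] at this
  simp at this

/-- coefficient sequence of a rational function -/
def coef (ρ : ℝ) (b : ℕ → ℝ) (k : ℕ) : ℝ :=
  (b 0 + b 1 * (k.choose 1) + b 2 * (k.choose 2) + b 3 * (k.choose 3)) * ρ ^ k

lemma hasSum_coef {ρ : ℝ} (b : ℕ → ℝ) {z : ℂ} (hz : ‖(ρ : ℂ) * z‖ < 1) :
    HasSum (fun k => (coef ρ b k : ℂ) * z ^ k)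
      (b 0 / (1 - ρ * z) + b 1 * (ρ * z) / (1 - ρ * z) ^ 2 +
        b 2 * (ρ * z) ^ 2 / (1 - ρ * z) ^ 3 + b 3 * (ρ * z) ^ 3 / (1 - ρ * z) ^ 4) := by
  have h0 := (hasSum_choose 0 hz).mul_left (b 0 : ℂ)
  have h1 := (hasSum_choose 1 hz).mul_left (b 1 : ℂ)
  have h2 := (hasSum_choose 2 hz).mul_left (b 2 : ℂ)
  have h3 := (hasSum_choose 3 hz).mul_left (b 3 : ℂ)
  have h := ((h0.add h1).add h2).add h3
  convert! h using 1
  · funext k
    unfold coef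
    push_cast
    rw [mul_pow]
    simp only [Nat.choose_zero_right]
    push_cast
    ring
  · simp only [pow_zero, zero_add, pow_one]
    ring

lemma hasSum_coef_real {ρ : ℝ} (b : ℕ → ℝ) {r : ℝ} (hz : |ρ * r| < 1) :
    HasSum (fun k => coef ρ b k * r ^ k)
      (b 0 / (1 - ρ * r) + b 1 * (ρ * r) / (1 - ρ * r) ^ 2 +
        b 2 * (ρ * r) ^ 2 / (1 - ρ * r) ^ 3 + b 3 * (ρ * r) ^ 3 / (1 - ρ * r) ^ 4) := by
  have hz' : ‖ρ * r‖ < 1 := by simpa using hz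
  have h0 := (hasSum_choose 0 hz').mul_left (b 0)
  have h1 := (hasSum_choose 1 hz').mul_left (b 1)
  have h2 := (hasSum_choose 2 hz').mul_left (b 2)
  have h3 := (hasSum_choose 3 hz').mul_left (b 3)
  have h := ((h0.add h1).add h2).add h3
  convert! h using 1
  · funext k
    unfold coef
    rw [mul_pow]
    simp only [Nat.choose_zero_right]
    push_cast
    ring
  · simp only [pow_zero, zero_add, pow_one]
    ring

lemma summable_coef {ρ : ℝ} (h0 : 0 < ρ) (h1 : ρ < 1) (b : ℕ → ℝ) :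
    Summable fun k => |coef ρ b k| := by
  have h := (hasSum_coef_real (ρ := ρ) (fun i => |b i|) (r := 1)
    (by rw [mul_one, abs_of_pos h0]; exact h1)).summable
  refine Summable.of_nonneg_of_le (fun k => abs_nonneg _) (fun k => ?_) h
  unfold coef
  rw [one_pow, mul_one, abs_mul, abs_of_pos (pow_pos h0 k)]
  refine mul_le_mul_of_nonneg_right ?_ (pow_pos h0 k).le
  have c1 : (0 : ℝ) ≤ (k.choose 1 : ℝ) := by positivity
  have c2 : (0 : ℝ) ≤ (k.choose 2 : ℝ) := by positivity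
  have c3 : (0 : ℝ) ≤ (k.choose 3 : ℝ) := by positivity
  calc |b 0 + b 1 * (k.choose 1) + b 2 * (k.choose 2) + b 3 * (k.choose 3)|
      ≤ |b 0 + b 1 * (k.choose 1) + b 2 * (k.choose 2)| + |b 3 * (k.choose 3)| := abs_add_le _ _
    _ ≤ |b 0 + b 1 * (k.choose 1)| + |b 2 * (k.choose 2)| + |b 3 * (k.choose 3)| := by
        gcongr; exact abs_add_le _ _
    _ ≤ |b 0| + |b 1 * (k.choose 1)| + |b 2 * (k.choose 2)| + |b 3 * (k.choose 3)| := by
        gcongr; exact abs_add_le _ _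
    _ = _ := by
        rw [abs_mul, abs_mul, abs_mul, abs_of_nonneg c1, abs_of_nonneg c2, abs_of_nonneg c3]

lemma norm_rho_zz {ρ : ℝ} (h0 : 0 < ρ) (h1 : ρ < 1) (x : UnitAddCircle) :
    ‖(ρ : ℂ) * zz x‖ < 1 := by
  rw [norm_mul, norm_zz, Complex.norm_real, Real.norm_eq_abs, abs_of_pos h0, mul_one]
  exact h1

lemma ps_coef {ρ : ℝ} (h0 : 0 < ρ) (h1 : ρ < 1) (b : ℕ → ℝ) (x : UnitAddCircle) :
    ps (coef ρ b) x = b 0 / (1 - ρ * zz x) + b 1 * (ρ * zz x) / (1 - ρ * zz x) ^ 2 +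
        b 2 * (ρ * zz x) ^ 2 / (1 - ρ * zz x) ^ 3 +
        b 3 * (ρ * zz x) ^ 3 / (1 - ρ * zz x) ^ 4 :=
  (hasSum_coef b (norm_rho_zz h0 h1 x)).tsum_eq

/-- `B0(q) = 1 + 9q + 9q² + q³`. -/
def B0 (q : ℝ) : ℝ := 1 + 9 * q + 9 * q ^ 2 + q ^ 3

/-- Coefficients for `P^{-1}`. -/
def b1 (_q : ℝ) : ℕ → ℝ := fun i => if i = 0 then 1 else 0

/-- Coefficients for `P^{-2}`. -/
def b2 (q : ℝ) : ℕ → ℝ := fun i => if i = 0 then 1 + q else if i = 1 then 1 - q else 0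

/-- Coefficients for `P^{-4}`. -/
def b4 (q : ℝ) : ℕ → ℝ := fun i =>
  if i = 0 then B0 q else if i = 1 then (1 - q) * (3 + 6 * q + q ^ 2)
  else if i = 2 then (1 - q) ^ 2 * (3 + q) else (1 - q) ^ 3

lemma ident1 {ρ : ℝ} (h0 : 0 < ρ) (h1 : ρ < 1) (x : UnitAddCircle) :
    (((1 - ρ ^ 2) * (PP ρ x)⁻¹ : ℝ) : ℂ) =
      ps (coef ρ (b1 (ρ ^ 2))) x + conj (ps (coef ρ (b1 (ρ ^ 2))) x) - 1 := by
  rw [ps_coef h0 h1]
  push_cast
  rw [PP_eq]
  have hw := w_mul ρ x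
  have ha := one_sub_ne h0 h1 x
  have hb : 1 - conj ((ρ : ℂ) * zz x) ≠ 0 := by
    intro h
    apply ha
    have := congrArg conj h
    simpa using this
  set w := (ρ : ℂ) * zz x with hwdef
  set v := conj w with hv
  simp only [b1, map_add, map_div₀, map_mul, map_pow, map_sub, map_one, ← hv]
  simp
  rw [← hw]
  field_simp
  ring

lemma ident2 {ρ : ℝ} (h0 : 0 < ρ) (h1 : ρ < 1) (x : UnitAddCircle) :
    (((1 - ρ ^ 2) ^ 3 * ((PP ρ x) ^ 2)⁻¹ : ℝ) : ℂ) =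
      ps (coef ρ (b2 (ρ ^ 2))) x + conj (ps (coef ρ (b2 (ρ ^ 2))) x) - (1 + (ρ : ℂ) ^ 2) := by
  rw [ps_coef h0 h1]
  push_cast
  rw [PP_eq]
  have hw := w_mul ρ x
  have ha := one_sub_ne h0 h1 x
  have hb : 1 - conj ((ρ : ℂ) * zz x) ≠ 0 := by
    intro h
    apply ha
    have := congrArg conj h
    simpa using this
  set w := (ρ : ℂ) * zz x with hwdef
  set v := conj w with hv
  simp only [b2, map_add, map_div₀, map_mul, map_pow, map_sub, map_one, ← hv, Complex.conj_ofReal]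
  simp
  rw [← hw]
  field_simp
  ring

lemma ident4 {ρ : ℝ} (h0 : 0 < ρ) (h1 : ρ < 1) (x : UnitAddCircle) :
    (((1 - ρ ^ 2) ^ 7 * ((PP ρ x) ^ 4)⁻¹ : ℝ) : ℂ) =
      ps (coef ρ (b4 (ρ ^ 2))) x + conj (ps (coef ρ (b4 (ρ ^ 2))) x) - (B0 (ρ ^ 2) : ℂ) := by
  rw [ps_coef h0 h1]
  push_cast
  rw [PP_eq]
  have hw := w_mul ρ x
  have ha := one_sub_ne h0 h1 x
  have hb : 1 - conj ((ρ : ℂ) * zz x) ≠ 0 := by
    intro h
    apply ha
    have := congrArg conj h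
    simpa using this
  set w := (ρ : ℂ) * zz x with hwdef
  set v := conj w with hv
  simp only [b4, B0, map_add, map_div₀, map_mul, map_pow, map_sub, map_one, ← hv,
    Complex.conj_ofReal]
  simp
  rw [← hw]
  field_simp
  ring

end

end Pool.Agent.H390R2
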