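import Mathlib
import Pool.Agent.H390R2.Pfun

open MeasureTheory Finset
open scoped ComplexConjugate

namespace Pool.Agent.H390R2

noncomputable section

/-- The integral of `P^{-4}` in closed form. -/
def S0 (q : ℝ) : ℝ := B0 q / (1 - q) ^ 7

/-- The rational part of the mean of `log P`. -/
def RR (q : ℝ) : ℝ := (q * (3 + 6 * q + q ^ 2) + q ^ 2 * (3 + q) / 2 + q ^ 3 / 3) / B0 q

lemma B0_pos {q : ℝ} (hq : 0 ≤ q) : 1 ≤ B0 q := by
  unfold B0
  have : 0 ≤ q ^ 2 := by positivity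
  have : 0 ≤ q ^ 3 := by positivity
  linarith

lemma S0_pos {q : ℝ} (hq : 0 ≤ q) (hq1 : q < 1) : 0 < S0 q := by
  unfold S0
  have := B0_pos hq
  have h2 : 0 < (1 - q) ^ 7 := pow_pos (by linarith) 7
  positivity

section
variable {ρ : ℝ} (h0 : 0 < ρ) (h1 : ρ < 1)
include h0 h1

lemma q_lt : ρ ^ 2 < 1 := by nlinarith

lemma one_sub_q_pos : 0 < 1 - ρ ^ 2 := by have := q_lt h0 h1; linarith

omit h0 h1 in
lemma integrable_of_cont {g : UnitAddCircle → ℂ} (hg : Continuous g) : Integrable g hm := by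
  obtain ⟨C, hC⟩ := (isCompact_univ (X := UnitAddCircle)).exists_bound_of_continuousOn
    hg.continuousOn
  exact Integrable.of_bound hg.aestronglyMeasurable C
    (Filter.Eventually.of_forall fun x => hC x (Set.mem_univ x))

omit h0 h1 in
lemma integrable_of_cont_real {g : UnitAddCircle → ℝ} (hg : Continuous g) :
    Integrable g hm := by
  obtain ⟨C, hC⟩ := (isCompact_univ (X := UnitAddCircle)).exists_bound_of_continuousOn
    hg.continuousOn
  exact Integrable.of_bound hg.aestronglyMeasurable C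
    (Filter.Eventually.of_forall fun x => hC x (Set.mem_univ x))

lemma continuous_inv_pow (n : ℕ) : Continuous fun x => ((PP ρ x) ^ n)⁻¹ := by
  have := continuous_PP ρ
  refine Continuous.inv₀ (by fun_prop) fun x => ?_
  exact (pow_pos (PP_pos h0 h1 x) n).ne'

lemma continuous_log_PP : Continuous fun x => Real.log (PP ρ x) := by
  have := continuous_PP ρ
  exact Continuous.log this fun x => (PP_pos h0 h1 x).ne'

lemma integral_P1 : ∫ x, (PP ρ x)⁻¹ ∂hm = 1 / (1 - ρ ^ 2) := by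
  have hs := summable_coef h0 h1 (b1 (ρ ^ 2))
  have hc := continuous_ps hs
  have h : (((1 - ρ ^ 2) * ∫ x, (PP ρ x)⁻¹ ∂hm : ℝ) : ℂ) = 1 := by
    rw [← integral_const_mul, ← integral_complex_ofReal]
    simp_rw [ident1 h0 h1]
    rw [integral_sub, integral_add, integral_conj, integral_ps hs]
    · simp [coef, b1]
    · exact integrable_of_cont hc
    · exact integrable_of_cont (by fun_prop)
    · exact integrable_of_cont (by fun_prop)
    · exact integrable_of_cont (by fun_prop)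
  have h2 : (1 - ρ ^ 2) * ∫ x, (PP ρ x)⁻¹ ∂hm = 1 := by exact_mod_cast h
  have h3 := one_sub_q_pos h0 h1
  rw [eq_div_iff h3.ne', mul_comm]
  exact h2

lemma integral_P4 : ∫ x, ((PP ρ x) ^ 4)⁻¹ ∂hm = S0 (ρ ^ 2) := by
  have hs := summable_coef h0 h1 (b4 (ρ ^ 2))
  have hc := continuous_ps hs
  have h : (((1 - ρ ^ 2) ^ 7 * ∫ x, ((PP ρ x) ^ 4)⁻¹ ∂hm : ℝ) : ℂ) = (B0 (ρ ^ 2) : ℂ) := by
    rw [← integral_const_mul, ← integral_complex_ofReal]
    simp_rw [ident4 h0 h1]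
    rw [integral_sub, integral_add, integral_conj, integral_ps hs]
    · simp [coef, b4]
    · exact integrable_of_cont hc
    · exact integrable_of_cont (by fun_prop)
    · exact integrable_of_cont (by fun_prop)
    · exact integrable_of_cont (by fun_prop)
  have h2 : (1 - ρ ^ 2) ^ 7 * ∫ x, ((PP ρ x) ^ 4)⁻¹ ∂hm = B0 (ρ ^ 2) := by exact_mod_cast h
  have h3 := pow_pos (one_sub_q_pos h0 h1) 7
  unfold S0
  rw [eq_div_iff h3.ne', mul_comm]
  exact h2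

/-- Fourier coefficients of `P^{-2}`. -/
lemma coeff_nat (k : ℕ) : ∫ x, (((PP ρ x) ^ 2)⁻¹ : ℝ) * conj (zz x ^ k) ∂hm =
    ((coef ρ (b2 (ρ ^ 2)) k / (1 - ρ ^ 2) ^ 3 : ℝ) : ℂ) := by
  have hs := summable_coef h0 h1 (b2 (ρ ^ 2))
  have hc := continuous_ps hs
  have hz := continuous_zz
  have h3 := (pow_pos (one_sub_q_pos h0 h1) 3).ne'
  have h3' : (((1 - ρ ^ 2) ^ 3 : ℝ) : ℂ) ≠ 0 := by exact_mod_cast h3
  have h : (((1 - ρ ^ 2) ^ 3 : ℝ) : ℂ) * ∫ x, (((PP ρ x) ^ 2)⁻¹ : ℝ) * conj (zz x ^ k) ∂hm =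
      (coef ρ (b2 (ρ ^ 2)) k : ℂ) := by
    rw [← integral_const_mul]
    have e1 : ∀ x, (((1 - ρ ^ 2) ^ 3 : ℝ) : ℂ) * ((((PP ρ x) ^ 2)⁻¹ : ℝ) * conj (zz x ^ k)) =
        ps (coef ρ (b2 (ρ ^ 2))) x * conj (zz x ^ k) +
        conj (zz x ^ k * ps (coef ρ (b2 (ρ ^ 2))) x) -
        (1 + (ρ : ℂ) ^ 2) * conj (zz x ^ k) := by
      intro x
      rw [← mul_assoc, ← Complex.ofReal_mul, ident2 h0 h1, map_mul]
      ring
    simp_rw [e1]
    rw [integral_sub, integral_add, integral_conj, integral_zz_pow_mul_ps hs, integral_const_mul,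
      integral_conj, integral_zz_pow]
    · have e2 : ∫ x, ps (coef ρ (b2 (ρ ^ 2))) x * conj (zz x ^ k) ∂hm =
          (coef ρ (b2 (ρ ^ 2)) k : ℂ) := by
        have e3 := congrArg conj (integral_zz_pow_mul_conj_ps hs k)
        rw [← integral_conj, Complex.conj_ofReal] at e3
        rw [← e3]
        refine integral_congr_ae (Filter.Eventually.of_forall fun x => ?_)
        simp [mul_comm]
      rw [e2]
      by_cases hk : k = 0
      · subst hk
        simp [coef, b2]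
      · simp [hk]
    · exact integrable_of_cont (by fun_prop)
    · exact integrable_of_cont (by fun_prop)
    · exact integrable_of_cont (by fun_prop)
    · exact integrable_of_cont (by fun_prop)
  push_cast at h h3' ⊢
  rw [eq_div_iff h3', mul_comm]
  exact h

end

/-- Fourier coefficients of `P^{-2}`, indexed by integers. -/
def sc (ρ : ℝ) (k : ℤ) : ℝ := coef ρ (b2 (ρ ^ 2)) k.natAbs / (1 - ρ ^ 2) ^ 3

lemma coeff_int {ρ : ℝ} (h0 : 0 < ρ) (h1 : ρ < 1) (k : ℤ) :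
    ∫ x, (((PP ρ x) ^ 2)⁻¹ : ℝ) * (fourier (-k) x : ℂ) ∂hm = (sc ρ k : ℂ) := by
  rcases Int.eq_nat_or_neg k with ⟨n, rfl | rfl⟩
  · have := coeff_nat h0 h1 n
    simp_rw [zz_pow, ← fourier_neg] at this
    rw [this]
    simp [sc]
  · have := congrArg conj (coeff_nat h0 h1 n)
    rw [← integral_conj, Complex.conj_ofReal] at this
    simp only [map_mul, Complex.conj_ofReal, Complex.conj_conj] at this
    simp_rw [zz_pow] at this
    rw [neg_neg, this]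
    simp [sc]

/-- coefficient sequence of `-log(1 - ρ z)` -/
def lc (ρ : ℝ) (k : ℕ) : ℝ := ρ ^ k / k

lemma summable_lc {ρ : ℝ} (h0 : 0 < ρ) (h1 : ρ < 1) : Summable fun k => |lc ρ k| := by
  have h := summable_geometric_of_lt_one h0.le h1
  refine Summable.of_nonneg_of_le (fun k => abs_nonneg _) (fun k => ?_) h
  unfold lc
  rw [abs_of_nonneg (by positivity)]
  rcases Nat.eq_zero_or_pos k with hk | hk
  · subst hk; simp
  · exact div_le_self (by positivity) (by exact_mod_cast hk)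

lemma ps_lc {ρ : ℝ} (h0 : 0 < ρ) (h1 : ρ < 1) (x : UnitAddCircle) :
    ps (lc ρ) x = -Complex.log (1 - ρ * zz x) := by
  have h := Complex.hasSum_taylorSeries_neg_log (norm_rho_zz h0 h1 x)
  unfold ps
  rw [← h.tsum_eq]
  refine tsum_congr fun k => ?_
  unfold lc
  push_cast
  rw [mul_pow]
  ring

lemma log_PP {ρ : ℝ} (h0 : 0 < ρ) (h1 : ρ < 1) (x : UnitAddCircle) :
    ((Real.log (PP ρ x) : ℝ) : ℂ) = -(ps (lc ρ) x + conj (ps (lc ρ) x)) := by
  rw [Complex.add_conj, ps_lc h0 h1]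
  unfold PP
  rw [Real.log_pow, Complex.neg_re, Complex.log_re]
  push_cast
  ring

lemma hasSum_choose_div {q : ℝ} (hq : 0 ≤ q) (hq1 : q < 1) (j : ℕ) :
    HasSum (fun k : ℕ => (k.choose (j + 1) : ℝ) * q ^ k / k) ((q / (1 - q)) ^ (j + 1) / (j + 1)) := by
  have h := (hasSum_choose j (w := q) (by rw [Real.norm_eq_abs, abs_of_nonneg hq]; exact hq1)).mul_left
    (q / (j + 1))
  rw [← hasSum_nat_add_iff' 1]
  simp only [range_one, sum_singleton, Nat.choose_zero_succ, Nat.cast_zero, zero_mul, div_zero,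
    sub_zero]
  convert! h using 1
  · funext n
    have h2 : ((n + 1 : ℕ) : ℝ) * (n.choose j : ℝ) =
        ((n + 1).choose (j + 1) : ℝ) * ((j + 1 : ℕ) : ℝ) := by
      exact_mod_cast Nat.add_one_mul_choose_eq n j
    have h3 : ((n + 1 : ℕ) : ℝ) ≠ 0 := by positivity
    have h4 : ((j + 1 : ℕ) : ℝ) ≠ 0 := by positivity
    push_cast at h2 h3 h4 ⊢
    field_simp
    rw [pow_succ]
    linear_combination (-(q ^ n * q)) * h2
  · have h3 : (1 - q) ≠ 0 := by linarith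
    rw [div_pow]
    field_simp
    ring

lemma hasSum_zero_div {q : ℝ} (hq : 0 ≤ q) (hq1 : q < 1) :
    HasSum (fun k : ℕ => q ^ k / k) (-Real.log (1 - q)) := by
  have h := Real.hasSum_pow_div_log_of_abs_lt_one (x := q) (by rw [abs_of_nonneg hq]; exact hq1)
  rw [← hasSum_nat_add_iff' 1]
  simpa using h

lemma integral_P4_log {ρ : ℝ} (h0 : 0 < ρ) (h1 : ρ < 1) :
    ∫ x, ((PP ρ x) ^ 4)⁻¹ * Real.log (PP ρ x) ∂hm =
      S0 (ρ ^ 2) * (2 * Real.log (1 - ρ ^ 2) - 2 * RR (ρ ^ 2)) := by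
  have hs := summable_coef h0 h1 (b4 (ρ ^ 2))
  have hc := continuous_ps hs
  have hls := summable_lc h0 h1
  have hlc := continuous_ps hls
  have hq1 := q_lt h0 h1
  have hq0 : 0 ≤ ρ ^ 2 := by positivity
  have hone := one_sub_q_pos h0 h1
  -- the sum
  have hX : ∫ x, ps (coef ρ (b4 (ρ ^ 2))) x * conj (ps (lc ρ) x) ∂hm =
      ((B0 (ρ ^ 2) * (-Real.log (1 - ρ ^ 2)) + b4 (ρ ^ 2) 1 * (ρ ^ 2 / (1 - ρ ^ 2)) +
        b4 (ρ ^ 2) 2 * ((ρ ^ 2 / (1 - ρ ^ 2)) ^ 2 / 2) +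
        b4 (ρ ^ 2) 3 * ((ρ ^ 2 / (1 - ρ ^ 2)) ^ 3 / 3) : ℝ) : ℂ) := by
    have h := integral_ps_mul_conj_ps hs hls
    have g0 := (hasSum_zero_div hq0 hq1).mul_left (B0 (ρ ^ 2))
    have g1 := (hasSum_choose_div hq0 hq1 0).mul_left (b4 (ρ ^ 2) 1)
    have g2 := (hasSum_choose_div hq0 hq1 1).mul_left (b4 (ρ ^ 2) 2)
    have g3 := (hasSum_choose_div hq0 hq1 2).mul_left (b4 (ρ ^ 2) 3)
    have g := ((g0.add g1).add g2).add g3
    have g' := Complex.hasSum_ofReal.mpr g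
    have e1 : (fun k => ((coef ρ (b4 (ρ ^ 2)) k * lc ρ k : ℝ) : ℂ)) =
        fun k : ℕ => ((B0 (ρ ^ 2) * ((ρ ^ 2) ^ k / k) +
          b4 (ρ ^ 2) 1 * ((k.choose (0 + 1) : ℝ) * (ρ ^ 2) ^ k / k) +
          b4 (ρ ^ 2) 2 * ((k.choose (1 + 1) : ℝ) * (ρ ^ 2) ^ k / k) +
          b4 (ρ ^ 2) 3 * ((k.choose (2 + 1) : ℝ) * (ρ ^ 2) ^ k / k) : ℝ) : ℂ) := by
      funext k
      congr 1
      unfold coef lc
      have : b4 (ρ ^ 2) 0 = B0 (ρ ^ 2) := by simp [b4]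
      rw [this, ← pow_mul, mul_comm 2 k, pow_mul, pow_two (ρ ^ k)]
      norm_num
      ring
    rw [e1] at h
    rw [h.unique g']
    congr 1
    norm_num
  have h : (((1 - ρ ^ 2) ^ 7 * ∫ x, ((PP ρ x) ^ 4)⁻¹ * Real.log (PP ρ x) ∂hm : ℝ) : ℂ) =
      -(2 * ∫ x, ps (coef ρ (b4 (ρ ^ 2))) x * conj (ps (lc ρ) x) ∂hm) := by
    rw [← integral_const_mul, ← integral_complex_ofReal]
    have e1 : ∀ x, (((1 - ρ ^ 2) ^ 7 * (((PP ρ x) ^ 4)⁻¹ * Real.log (PP ρ x)) : ℝ) : ℂ) =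
        -((ps (coef ρ (b4 (ρ ^ 2))) x * ps (lc ρ) x +
          conj (ps (coef ρ (b4 (ρ ^ 2))) x * ps (lc ρ) x)) +
          (ps (coef ρ (b4 (ρ ^ 2))) x * conj (ps (lc ρ) x) +
          conj (ps (coef ρ (b4 (ρ ^ 2))) x * conj (ps (lc ρ) x))) -
          (B0 (ρ ^ 2) : ℂ) * (ps (lc ρ) x + conj (ps (lc ρ) x))) := by
      intro x
      rw [← mul_assoc, Complex.ofReal_mul, ident4 h0 h1, log_PP h0 h1]
      simp only [map_mul, Complex.conj_conj]
      ring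
    simp_rw [e1]
    rw [integral_neg, integral_sub, integral_add, integral_add, integral_add, integral_conj,
      integral_conj, integral_ps_mul_ps hs hls, integral_const_mul, integral_add, integral_conj,
      integral_ps hls, hX, Complex.conj_ofReal]
    · have hl0 : lc ρ 0 = 0 := by simp [lc]
      rw [hl0]
      simp only [Complex.ofReal_zero, mul_zero, map_zero]
      ring
    all_goals exact integrable_of_cont (by fun_prop)
  rw [hX] at h
  have h2 : (1 - ρ ^ 2) ^ 7 * ∫ x, ((PP ρ x) ^ 4)⁻¹ * Real.log (PP ρ x) ∂hm =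
      -(2 * (B0 (ρ ^ 2) * (-Real.log (1 - ρ ^ 2)) + b4 (ρ ^ 2) 1 * (ρ ^ 2 / (1 - ρ ^ 2)) +
        b4 (ρ ^ 2) 2 * ((ρ ^ 2 / (1 - ρ ^ 2)) ^ 2 / 2) +
        b4 (ρ ^ 2) 3 * ((ρ ^ 2 / (1 - ρ ^ 2)) ^ 3 / 3))) := by
    exact_mod_cast h
  have h3 := (pow_pos hone 7).ne'
  have hB := (B0_pos hq0)
  have hB' : B0 (ρ ^ 2) ≠ 0 := by positivity
  have h4 : ∫ x, ((PP ρ x) ^ 4)⁻¹ * Real.log (PP ρ x) ∂hm =
      -(2 * (B0 (ρ ^ 2) * (-Real.log (1 - ρ ^ 2)) + b4 (ρ ^ 2) 1 * (ρ ^ 2 / (1 - ρ ^ 2)) +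
        b4 (ρ ^ 2) 2 * ((ρ ^ 2 / (1 - ρ ^ 2)) ^ 2 / 2) +
        b4 (ρ ^ 2) 3 * ((ρ ^ 2 / (1 - ρ ^ 2)) ^ 3 / 3))) / (1 - ρ ^ 2) ^ 7 := by
    rw [eq_div_iff h3, mul_comm]; exact h2
  rw [h4]
  unfold S0 RR
  simp only [b4]
  norm_num
  field_simp
  ring

end

end Pool.Agent.H390R2
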