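import Mathlib
import Pool.Agent.H390R2.Pint

open MeasureTheory Finset
open scoped ComplexConjugate

namespace Pool.Agent.H390R2

noncomputable section

lemma sum_Ioo_natAbs (F : ℕ → ℝ) {D : ℕ} (hD : 0 < D) :
    ∑ k ∈ Ioo (-(D : ℤ)) D, F k.natAbs = 2 * ∑ k ∈ range D, F k - F 0 := by
  induction D, hD using Nat.le_induction with
  | base =>
    have : Ioo (-((Nat.succ 0 : ℕ) : ℤ)) ((Nat.succ 0 : ℕ) : ℤ) = {0} := by
      ext k; simp only [mem_Ioo, mem_singleton]; omega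
    rw [this]
    simp
    ring
  | succ n hn ih =>
    have h1 : Ioo (-((n + 1 : ℕ) : ℤ)) ((n + 1 : ℕ) : ℤ) =
        insert (-(n : ℤ)) (insert (n : ℤ) (Ioo (-(n : ℤ)) n)) := by
      ext k
      simp only [mem_Ioo, mem_insert]
      push_cast
      omega
    rw [h1, sum_insert, sum_insert, ih, sum_range_succ]
    · simp
      ring
    · simp
    · simp only [mem_insert, mem_Ioo]; omega

lemma cast_choose_three (k : ℕ) : (k.choose 3 : ℝ) = k * (k - 1) * (k - 2) / 6 := by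
  induction k with
  | zero => simp
  | succ n ih =>
    rw [Nat.choose_succ_succ' n 2]
    push_cast
    rw [ih, Nat.cast_choose_two]
    ring

lemma coef_sq (ρ : ℝ) (k : ℕ) :
    coef ρ (b2 (ρ ^ 2)) k ^ 2 = ((1 + ρ ^ 2) + (1 - ρ ^ 2) * k) ^ 2 * (ρ ^ 2) ^ k := by
  unfold coef
  have e0 : b2 (ρ ^ 2) 0 = 1 + ρ ^ 2 := by simp [b2]
  have e1 : b2 (ρ ^ 2) 1 = 1 - ρ ^ 2 := by simp [b2]
  have e2 : b2 (ρ ^ 2) 2 = 0 := by simp [b2]
  have e3 : b2 (ρ ^ 2) 3 = 0 := by simp [b2]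
  rw [e0, e1, e2, e3, mul_pow, ← pow_mul, mul_comm k 2, pow_mul]
  simp

lemma hasSum_t {q : ℝ} (hq : 0 ≤ q) (hq1 : q < 1) :
    HasSum (fun k : ℕ => ((1 + q) + (1 - q) * k) ^ 2 * q ^ k) ((1 + 5 * q + 4 * q ^ 2) / (1 - q)) := by
  have hn : ‖q‖ < 1 := by rw [Real.norm_eq_abs, abs_of_nonneg hq]; exact hq1
  have g0 := (hasSum_choose 0 hn).mul_left ((1 + q) ^ 2)
  have g1 := (hasSum_choose 1 hn).mul_left (2 * (1 + q) * (1 - q) + (1 - q) ^ 2)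
  have g2 := (hasSum_choose 2 hn).mul_left (2 * (1 - q) ^ 2)
  have g := (g0.add g1).add g2
  convert! g using 1
  · funext k
    rw [Nat.cast_choose_two]
    simp only [Nat.choose_zero_right, Nat.choose_one_right]
    push_cast
    ring
  · have h3 : (1 - q) ≠ 0 := by linarith
    field_simp
    ring

lemma hasSum_kt {q : ℝ} (hq : 0 ≤ q) (hq1 : q < 1) :
    HasSum (fun k : ℕ => (k : ℝ) * (((1 + q) + (1 - q) * k) ^ 2 * q ^ k))
      (q * (4 + 10 * q + 4 * q ^ 2) / (1 - q) ^ 2) := by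
  have hn : ‖q‖ < 1 := by rw [Real.norm_eq_abs, abs_of_nonneg hq]; exact hq1
  have g1 := (hasSum_choose 1 hn).mul_left ((1 + q) ^ 2 + 2 * (1 + q) * (1 - q) + (1 - q) ^ 2)
  have g2 := (hasSum_choose 2 hn).mul_left (4 * (1 + q) * (1 - q) + 6 * (1 - q) ^ 2)
  have g3 := (hasSum_choose 3 hn).mul_left (6 * (1 - q) ^ 2)
  have g := (g1.add g2).add g3
  convert! g using 1
  · funext k
    rw [cast_choose_three, Nat.cast_choose_two]
    simp only [Nat.choose_one_right]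
    ring
  · have h3 : (1 - q) ≠ 0 := by linarith
    field_simp
    ring

lemma energy {ρ : ℝ} (h0 : 0 < ρ) (h1 : ρ < 1) {D : ℕ} (hD : 0 < D) :
    S0 (ρ ^ 2) * (1 - 9 / 5 / ((1 - ρ ^ 2) * D)) ≤
      ∑ k ∈ Ioo (-(D : ℤ)) D, (1 - |(k : ℝ)| / D) * sc ρ k ^ 2 := by
  have hq1 := q_lt h0 h1
  have hq0 : 0 ≤ ρ ^ 2 := by positivity
  have hone := one_sub_q_pos h0 h1
  have hD' : (0 : ℝ) < D := by exact_mod_cast hD
  set q := ρ ^ 2 with hq
  set F : ℕ → ℝ := fun n : ℕ => (1 - (n : ℝ) / D) *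
    ((((1 + q) + (1 - q) * n) ^ 2 * q ^ n) / (1 - q) ^ 6) with hF
  have e1 : ∀ k ∈ Ioo (-(D : ℤ)) D, (1 - |(k : ℝ)| / D) * sc ρ k ^ 2 = F k.natAbs := by
    intro k _
    simp only [hF]
    rw [Nat.cast_natAbs, Int.cast_abs]
    congr 1
    unfold sc
    rw [div_pow, coef_sq, Nat.cast_natAbs, Int.cast_abs]
    simp only [hq]
    ring
  rw [sum_congr rfl e1, sum_Ioo_natAbs F hD]
  have g0 := hasSum_t hq0 hq1
  have g1 := (hasSum_kt hq0 hq1).mul_right (1 / (D : ℝ))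
  have g := (g0.sub g1).div_const ((1 - q) ^ 6)
  have h2 : (((1 + 5 * q + 4 * q ^ 2) / (1 - q) -
      q * (4 + 10 * q + 4 * q ^ 2) / (1 - q) ^ 2 * (1 / (D : ℝ))) / (1 - q) ^ 6) ≤
      ∑ n ∈ range D, (1 - (n : ℝ) / D) * ((((1 + q) + (1 - q) * n) ^ 2 * q ^ n) / (1 - q) ^ 6) := by
    have g' := g.neg
    have h3 := sum_le_hasSum (range D) (fun n hn => ?_) g'
    · rw [sum_neg_distrib] at h3
      have h4 := neg_le_neg_iff.mp h3
      refine h4.trans (le_of_eq (sum_congr rfl fun n _ => ?_))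
      ring
    · rw [mem_range, not_lt] at hn
      have hn' : (D : ℝ) ≤ n := by exact_mod_cast hn
      have h5 : 0 ≤ (((1 + q) + (1 - q) * n) ^ 2 * q ^ n) := by positivity
      have h6 : 1 ≤ (n : ℝ) / D := by rw [one_le_div hD']; exact hn'
      rw [neg_nonneg]
      apply div_nonpos_of_nonpos_of_nonneg _ (by positivity)
      have h7 : (n : ℝ) * (((1 + q) + (1 - q) * n) ^ 2 * q ^ n) * (1 / D) =
          ((n : ℝ) / D) * (((1 + q) + (1 - q) * n) ^ 2 * q ^ n) := by ring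
      rw [h7]
      nlinarith
  have h8 : F 0 = (1 + q) ^ 2 / (1 - q) ^ 6 := by
    simp [hF]
  rw [h8]
  have h9 : S0 q * (1 - 9 / 5 / ((1 - q) * D)) ≤ 2 * (((1 + 5 * q + 4 * q ^ 2) / (1 - q) -
      q * (4 + 10 * q + 4 * q ^ 2) / (1 - q) ^ 2 * (1 / (D : ℝ))) / (1 - q) ^ 6) -
      (1 + q) ^ 2 / (1 - q) ^ 6 := by
    have h10 : 2 * (((1 + 5 * q + 4 * q ^ 2) / (1 - q) -
      q * (4 + 10 * q + 4 * q ^ 2) / (1 - q) ^ 2 * (1 / (D : ℝ))) / (1 - q) ^ 6) -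
      (1 + q) ^ 2 / (1 - q) ^ 6 - S0 q * (1 - 9 / 5 / ((1 - q) * D)) =
        (9 / 5 + 10 * q + 31 / 5 * q ^ 2) / ((1 - q) ^ 7 * D) := by
      unfold S0 B0
      field_simp
      ring
    have h11 : 0 ≤ (9 / 5 + 10 * q + 31 / 5 * q ^ 2) / ((1 - q) ^ 7 * D) := by positivity
    linarith
  refine h9.trans ?_
  linarith

lemma integral_P3 {ρ : ℝ} (h0 : 0 < ρ) (h1 : ρ < 1) :
    ∫ x, ((PP ρ x) ^ 3)⁻¹ ∂hm ≤ (1 - ρ ^ 2) ^ 2 * S0 (ρ ^ 2) := by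
  have hq0 : 0 ≤ ρ ^ 2 := by positivity
  have hone := one_sub_q_pos h0 h1
  set q := ρ ^ 2 with hq
  have hpt : ∀ x, ((PP ρ x) ^ 3)⁻¹ ≤ (2 / 3 * (1 - q) ^ 2) * ((PP ρ x) ^ 4)⁻¹ +
      (1 / 3 / (1 - q) ^ 4) * (PP ρ x)⁻¹ := by
    intro x
    have hP := PP_pos h0 h1 x
    set P := PP ρ x
    have h2 : (2 / 3 * (1 - q) ^ 2) * (P ^ 4)⁻¹ + (1 / 3 / (1 - q) ^ 4) * P⁻¹ - (P ^ 3)⁻¹ =
        (2 * (1 - q) ^ 6 + P ^ 3 - 3 * (1 - q) ^ 4 * P) / (3 * (1 - q) ^ 4 * P ^ 4) := by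
      field_simp
    have h3 : 0 ≤ 2 * (1 - q) ^ 6 + P ^ 3 - 3 * (1 - q) ^ 4 * P := by
      have h4 : 2 * (1 - q) ^ 6 + P ^ 3 - 3 * (1 - q) ^ 4 * P =
          (P - (1 - q) ^ 2) ^ 2 * (P + 2 * (1 - q) ^ 2) := by ring
      rw [h4]; positivity
    have h5 : 0 ≤ (2 * (1 - q) ^ 6 + P ^ 3 - 3 * (1 - q) ^ 4 * P) / (3 * (1 - q) ^ 4 * P ^ 4) := by
      positivity
    linarith
  have hc3 := continuous_inv_pow h0 h1 3
  have hc4 := continuous_inv_pow h0 h1 4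
  have hc1 := continuous_inv_pow h0 h1 1
  simp only [pow_one] at hc1
  have h6 := integral_mono (μ := hm) (integrable_of_cont_real hc3)
    (integrable_of_cont_real (by fun_prop)) hpt
  rw [integral_add (integrable_of_cont_real (by fun_prop)) (integrable_of_cont_real (by fun_prop)),
    integral_const_mul, integral_const_mul, integral_P4 h0 h1, integral_P1 h0 h1, ← hq] at h6
  refine h6.trans ?_
  have hB := B0_pos hq0
  have h7 : (1 - q) ^ 2 * S0 q - (2 / 3 * (1 - q) ^ 2 * S0 q + 1 / 3 / (1 - q) ^ 4 * (1 / (1 - q))) =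
      (B0 q - 1) / (3 * (1 - q) ^ 5) := by
    unfold S0
    field_simp
    ring
  have h8 : 0 ≤ (B0 q - 1) / (3 * (1 - q) ^ 5) := by
    apply div_nonneg <;> [linarith; positivity]
  linarith

/-- The mean of `log P` with respect to the density `P^{-4}`. -/
def mu (q : ℝ) : ℝ := 2 * Real.log (1 - q) - 2 * RR q

lemma sq_log_le {X : ℝ} (hX : 1 ≤ X) : Real.log X ^ 2 ≤ X := by
  have h0 : 0 < X := by linarith
  set s := √√X with hs
  have hs0 : 0 < s := Real.sqrt_pos.mpr (Real.sqrt_pos.mpr h0)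
  have hs2 : s ^ 2 = √X := Real.sq_sqrt (Real.sqrt_nonneg _)
  have hs4 : s ^ 4 = X := by
    have : s ^ 4 = (s ^ 2) ^ 2 := by ring
    rw [this, hs2, Real.sq_sqrt h0.le]
  have h1 : Real.log X = 4 * Real.log s := by
    rw [← hs4, Real.log_pow]; push_cast; ring
  have h2 : Real.log s ≤ s - 1 := Real.log_le_sub_one_of_pos hs0
  have h3 : 0 ≤ Real.log X := Real.log_nonneg hX
  have h4 : Real.log X ≤ s ^ 2 := by nlinarith [sq_nonneg (s - 2)]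
  calc Real.log X ^ 2 ≤ (s ^ 2) ^ 2 := pow_le_pow_left₀ h3 h4 2
    _ = X := by rw [← hs4]; ring

lemma variance {ρ : ℝ} (h0 : 0 < ρ) (h1 : ρ < 1) :
    ∫ x, ((PP ρ x) ^ 4)⁻¹ * (Real.log (PP ρ x) - mu (ρ ^ 2)) ^ 2 ∂hm ≤ 4 * S0 (ρ ^ 2) := by
  have hq0 : 0 ≤ ρ ^ 2 := by positivity
  have hone := one_sub_q_pos h0 h1
  have hS := S0_pos hq0 (q_lt h0 h1)
  have hρ1 : 0 < 1 - ρ := by linarith
  set c := Real.log ((1 - ρ) ^ 2) with hc
  have hc3 := continuous_inv_pow h0 h1 3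
  have hc4 := continuous_inv_pow h0 h1 4
  have hlog := continuous_log_PP h0 h1
  have hm1 := integral_P4_log h0 h1
  have hm0 := integral_P4 h0 h1
  -- expand
  have e1 : ∀ m : ℝ, ∫ x, ((PP ρ x) ^ 4)⁻¹ * (Real.log (PP ρ x) - m) ^ 2 ∂hm =
      (∫ x, ((PP ρ x) ^ 4)⁻¹ * Real.log (PP ρ x) ^ 2 ∂hm) -
        2 * m * (S0 (ρ ^ 2) * mu (ρ ^ 2)) + m ^ 2 * S0 (ρ ^ 2) := by
    intro m
    unfold mu
    rw [← hm1, ← hm0, ← integral_const_mul, ← integral_const_mul, ← integral_sub, ← integral_add]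
    · refine integral_congr_ae (Filter.Eventually.of_forall fun x => ?_)
      simp only
      ring
    all_goals exact integrable_of_cont_real (by fun_prop)
  have h2 : ∫ x, ((PP ρ x) ^ 4)⁻¹ * (Real.log (PP ρ x) - mu (ρ ^ 2)) ^ 2 ∂hm ≤
      ∫ x, ((PP ρ x) ^ 4)⁻¹ * (Real.log (PP ρ x) - c) ^ 2 ∂hm := by
    rw [e1, e1]
    nlinarith [mul_nonneg hS.le (sq_nonneg (mu (ρ ^ 2) - c))]
  refine h2.trans ?_
  have h3 : ∀ x, ((PP ρ x) ^ 4)⁻¹ * (Real.log (PP ρ x) - c) ^ 2 ≤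
      (1 / (1 - ρ) ^ 2) * ((PP ρ x) ^ 3)⁻¹ := by
    intro x
    have hP := PP_pos h0 h1 x
    have hPl := PP_lower h0 h1 x
    have h4 : Real.log (PP ρ x) - c = Real.log (PP ρ x / (1 - ρ) ^ 2) := by
      rw [hc, Real.log_div hP.ne' (by positivity)]
    have h5 : 1 ≤ PP ρ x / (1 - ρ) ^ 2 := by
      rw [one_le_div (by positivity)]; exact hPl
    have h6 := sq_log_le h5
    rw [h4]
    calc ((PP ρ x) ^ 4)⁻¹ * Real.log (PP ρ x / (1 - ρ) ^ 2) ^ 2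
        ≤ ((PP ρ x) ^ 4)⁻¹ * (PP ρ x / (1 - ρ) ^ 2) :=
          mul_le_mul_of_nonneg_left h6 (by positivity)
      _ = (1 / (1 - ρ) ^ 2) * ((PP ρ x) ^ 3)⁻¹ := by
          field_simp
  have h7 := integral_mono (μ := hm) (integrable_of_cont_real (by fun_prop))
    (integrable_of_cont_real (by fun_prop)) h3
  rw [integral_const_mul] at h7
  refine h7.trans ?_
  have h8 := integral_P3 h0 h1
  calc (1 / (1 - ρ) ^ 2) * ∫ x, ((PP ρ x) ^ 3)⁻¹ ∂hm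
      ≤ (1 / (1 - ρ) ^ 2) * ((1 - ρ ^ 2) ^ 2 * S0 (ρ ^ 2)) :=
        mul_le_mul_of_nonneg_left h8 (by positivity)
    _ = (1 + ρ) ^ 2 * S0 (ρ ^ 2) := by
        have : (1 - ρ ^ 2) = (1 - ρ) * (1 + ρ) := by ring
        rw [this]
        field_simp
    _ ≤ 4 * S0 (ρ ^ 2) := by
        apply mul_le_mul_of_nonneg_right _ hS.le
        nlinarith

end

end Pool.Agent.H390R2
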