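import Mathlib
import Pool.Agent.H390R2.Main
import Pool.Agent.H390R2.Penergy

open MeasureTheory Finset
open scoped ComplexConjugate

namespace Pool.Agent.H390R2

noncomputable section

variable {ι : Type} [Fintype ι]

lemma BM_of_cont {f : (ι → UnitAddCircle) → ℝ} (hf : Continuous f) : BM f := by
  refine ⟨hf.measurable, ?_⟩
  obtain ⟨C, hC⟩ := (isCompact_univ (X := ι → UnitAddCircle)).exists_bound_of_continuousOn
    hf.continuousOn
  exact ⟨C, fun x => by simpa using hC x (Set.mem_univ x)⟩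

lemma fejer_neg (D : ℕ) (x : UnitAddCircle) : fejer D (-x) = fejer D x := by
  unfold fejer
  have : ∑ j ∈ range D, (fourier (j : ℤ) (-x) : ℂ) =
      conj (∑ j ∈ range D, (fourier (j : ℤ) x : ℂ)) := by
    rw [map_sum]
    refine sum_congr rfl fun j _ => ?_
    rw [← fourier_neg]
    simp [fourier_apply]
  rw [this, RCLike.norm_conj]

lemma KK_neg (D : ι → ℕ) (x : ι → UnitAddCircle) : KK D (-x) = KK D x := by
  unfold KK
  exact prod_congr rfl fun i _ => fejer_neg _ _

lemma integral_fejer {D : ℕ} (hD : 0 < D) : ∫ x, fejer D x ∂hm = 1 := by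
  have h : ((∫ x, fejer D x ∂hm : ℝ) : ℂ) = 1 := by
    rw [← integral_complex_ofReal]
    simp_rw [fejer_eq hD]
    rw [integral_finsetSum]
    · have e1 : ∀ k ∈ Ioo (-(D : ℤ)) D, ∫ x, ((1 - |(k : ℝ)| / D : ℝ) : ℂ) * (fourier k x : ℂ) ∂hm =
          if k = 0 then 1 else 0 := by
        intro k _
        rw [integral_const_mul, integral_fourier]
        by_cases hk : k = 0
        · subst hk; simp
        · simp [hk]
      rw [sum_congr rfl e1, sum_ite_eq']
      have : (0 : ℤ) ∈ Ioo (-(D : ℤ)) D := by simp only [mem_Ioo]; omega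
      simp [this]
    · intro k _
      exact integrable_of_cont (by fun_prop)
  exact_mod_cast h

lemma integral_KK {D : ι → ℕ} (hD : ∀ i, 0 < D i) : ∫ x, KK D x ∂(tm ι) = 1 := by
  unfold KK
  rw [integral_fintype_prod_eq_prod]
  exact prod_eq_one fun i _ => integral_fejer (hD i)

lemma integral_KK_sub {D : ι → ℕ} (hD : ∀ i, 0 < D i) (x : ι → UnitAddCircle) :
    ∫ y, KK D (x - y) ∂(tm ι) = 1 := by
  have h1 : ∀ y, KK D (x - y) = KK D (y - x) := by
    intro y; rw [← KK_neg, neg_sub]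
  simp_rw [h1]
  rw [integral_shift (KK D) x]
  exact integral_KK hD

lemma Q_comm (D : ι → ℕ) {f g : (ι → UnitAddCircle) → ℝ} (hf : BM f) (hg : BM g) :
    Q D f g = Q D g f := by
  unfold Q
  rw [integral_integral_swap]
  · refine integral_congr_ae (Filter.Eventually.of_forall fun x => ?_)
    refine integral_congr_ae (Filter.Eventually.of_forall fun y => ?_)
    simp only
    rw [← KK_neg, neg_sub]
    ring
  · obtain ⟨C, hC⟩ := hf.bdd
    obtain ⟨C', hC'⟩ := hg.bdd
    obtain ⟨C'', hC''⟩ := (BM_KK D).bdd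
    have hm : Measurable (fun p : (ι → UnitAddCircle) × (ι → UnitAddCircle) =>
        f p.1 * g p.2 * KK D (p.1 - p.2)) :=
      ((hf.meas.comp measurable_fst).mul (hg.meas.comp measurable_snd)).mul
        ((continuous_KK D).measurable.comp (measurable_fst.sub measurable_snd))
    refine Integrable.of_bound hm.aestronglyMeasurable (C * C' * C'')
      (Filter.Eventually.of_forall fun p => ?_)
    simp only [Function.uncurry]
    rw [norm_mul, norm_mul]
    have a1 := hC p.1
    have a2 := hC' p.2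
    have a3 := hC'' (p.1 - p.2)
    have b1 := abs_nonneg (f p.1)
    have b2 := abs_nonneg (g p.2)
    have b3 := abs_nonneg (KK D (p.1 - p.2))
    simp only [Real.norm_eq_abs]
    exact mul_le_mul (mul_le_mul a1 a2 b2 (b1.trans a1)) a3 b3
      (mul_nonneg (b1.trans a1) (b2.trans a2))

lemma Q_one {D : ι → ℕ} (hD : ∀ i, 0 < D i) (f : (ι → UnitAddCircle) → ℝ) :
    Q D f (fun _ => 1) = ∫ x, f x ∂(tm ι) := by
  unfold Q
  refine integral_congr_ae (Filter.Eventually.of_forall fun x => ?_)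
  simp only [mul_one]
  rw [integral_const_mul, integral_KK_sub hD, mul_one]

omit [Fintype ι] in
lemma BM_const (c : ℝ) : BM (fun _ : ι → UnitAddCircle => c) :=
  ⟨measurable_const, |c|, fun _ => le_rfl⟩

omit [Fintype ι] in
lemma BM.add {f g : (ι → UnitAddCircle) → ℝ} (hf : BM f) (hg : BM g) :
    BM (fun x => f x + g x) := by
  obtain ⟨C, hC⟩ := hf.bdd
  obtain ⟨C', hC'⟩ := hg.bdd
  exact ⟨hf.meas.add hg.meas, C + C', fun x => (abs_add_le _ _).trans (add_le_add (hC x) (hC' x))⟩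

lemma Q_add_left (D : ι → ℕ) {f g h : (ι → UnitAddCircle) → ℝ} (hf : BM f) (hg : BM g)
    (hh : BM h) : Q D (fun x => f x + g x) h = Q D f h + Q D g h := by
  unfold Q
  rw [← integral_add (inner_BM D hf hh).integrable (inner_BM D hg hh).integrable]
  refine integral_congr_ae (Filter.Eventually.of_forall fun x => ?_)
  simp only
  rw [← integral_add (section_BM D hh x).integrable (section_BM D hh x).integrable]
  refine integral_congr_ae (Filter.Eventually.of_forall fun y => ?_)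
  simp only
  ring

lemma Q_smul_left (D : ι → ℕ) (c : ℝ) (f g : (ι → UnitAddCircle) → ℝ) :
    Q D (fun x => c * f x) g = c * Q D f g := by
  unfold Q
  rw [← integral_const_mul]
  refine integral_congr_ae (Filter.Eventually.of_forall fun x => ?_)
  simp only
  rw [← integral_const_mul]
  refine integral_congr_ae (Filter.Eventually.of_forall fun y => ?_)
  simp only
  ring

/-- Cauchy-Schwarz in arithmetic-geometric form. -/
lemma Q_amgm {D : ι → ℕ} (hD : ∀ i, 0 < D i) {a b : (ι → UnitAddCircle) → ℝ} (ha : BM a)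
    (hb : BM b) {s : ℝ} (hs : 0 < s) :
    Q D a b ≤ 1 / 2 * (1 / s * ∫ x, a x ^ 2 ∂(tm ι) + s * ∫ x, b x ^ 2 ∂(tm ι)) := by
  have h1 : Q D (fun x => (1 / 2 * (1 / s)) * a x ^ 2) (fun _ => 1) =
      (1 / 2 * (1 / s)) * ∫ x, a x ^ 2 ∂(tm ι) := by
    rw [Q_smul_left, Q_one hD]
  have h2 : Q D (fun _ => 1) (fun x => (1 / 2 * s) * b x ^ 2) =
      (1 / 2 * s) * ∫ x, b x ^ 2 ∂(tm ι) := by
    rw [Q_comm D (BM_const 1) ((BM_const _).mul hb.sq), Q_smul_left, Q_one hD]
  have hA : BM (fun x => (1 / 2 * (1 / s)) * a x ^ 2) := (BM_const _).mul ha.sq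
  have hB : BM (fun x => (1 / 2 * s) * b x ^ 2) := (BM_const _).mul hb.sq
  have h3 : Q D a b ≤ Q D (fun x => (1 / 2 * (1 / s)) * a x ^ 2) (fun _ => 1) +
      Q D (fun _ => 1) (fun x => (1 / 2 * s) * b x ^ 2) := by
    unfold Q
    rw [← integral_add (inner_BM D hA (BM_const 1)).integrable
      (inner_BM D (BM_const 1) hB).integrable]
    refine integral_mono (inner_BM D ha hb).integrable
      ((inner_BM D hA (BM_const 1)).integrable.add (inner_BM D (BM_const 1) hB).integrable)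
      fun x => ?_
    simp only
    rw [← integral_add (section_BM (f := fun x => (1 / 2 * (1 / s)) * a x ^ 2) D
      (BM_const 1) x).integrable (section_BM (f := fun _ => 1) D hB x).integrable]
    refine integral_mono (section_BM D hb x).integrable
      ((section_BM (f := fun x => (1 / 2 * (1 / s)) * a x ^ 2) D
      (BM_const 1) x).integrable.add (section_BM (f := fun _ => 1) D hB x).integrable) fun y => ?_
    simp only
    rw [← add_mul]
    refine mul_le_mul_of_nonneg_right ?_ (KK_nonneg D _)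
    have h4 : 0 ≤ (a x - s * b y) ^ 2 / (2 * s) := by positivity
    have h5 : (a x - s * b y) ^ 2 / (2 * s) =
        (1 / 2 * (1 / s) * a x ^ 2 * 1 + 1 * (1 / 2 * s * b y ^ 2)) - a x * b y := by
      field_simp
      ring
    linarith
  rw [h1, h2] at h3
  linarith

/-- The (unnormalised) product test function. -/
def Psi (ρ : ι → ℝ) (x : ι → UnitAddCircle) : ℝ := ∏ i, ((PP (ρ i) (x i)) ^ 2)⁻¹

section
variable {ρ : ι → ℝ} (h0 : ∀ i, 0 < ρ i) (h1 : ∀ i, ρ i < 1)
include h0 h1

lemma Psi_pos (x : ι → UnitAddCircle) : 0 < Psi ρ x :=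
  prod_pos fun i _ => inv_pos.mpr (pow_pos (PP_pos (h0 i) (h1 i) _) 2)

lemma continuous_Psi : Continuous (Psi ρ) := by
  unfold Psi
  exact continuous_finsetProd _ fun i _ =>
    (continuous_inv_pow (h0 i) (h1 i) 2).comp (continuous_apply i)

omit h0 h1 in
lemma Psi_sq (x : ι → UnitAddCircle) : Psi ρ x ^ 2 = ∏ i, ((PP (ρ i) (x i)) ^ 4)⁻¹ := by
  unfold Psi
  rw [← prod_pow]
  refine prod_congr rfl fun i _ => ?_
  rw [inv_pow, ← pow_mul]

lemma integral_Psi_sq : ∫ x, Psi ρ x ^ 2 ∂(tm ι) = ∏ i, S0 (ρ i ^ 2) := by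
  simp_rw [Psi_sq]
  rw [integral_fintype_prod_eq_prod (fun i (y : UnitAddCircle) => ((PP (ρ i) y) ^ 4)⁻¹)]
  exact prod_congr rfl fun i _ => integral_P4 (h0 i) (h1 i)

lemma ft_Psi (e : ι → ℤ) : ft (Psi ρ) e = ((∏ i, sc (ρ i) (e i) : ℝ) : ℂ) := by
  unfold ft Psi chi
  push_cast
  simp_rw [← prod_mul_distrib]
  have := integral_fintype_prod_eq_prod (𝕜 := ℂ) (μ := fun _ : ι => hm)
    (fun i (y : UnitAddCircle) => (((PP (ρ i) y : ℂ) ^ 2)⁻¹) * (fourier ((-e) i) y : ℂ))
  rw [this]
  refine prod_congr rfl fun i _ => ?_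
  have h := coeff_int (h0 i) (h1 i) (e i)
  rw [← h]
  refine integral_congr_ae (Filter.Eventually.of_forall fun x => ?_)
  simp

lemma Q_Psi {D : ι → ℕ} (hD : ∀ i, 0 < D i)
    (hpos : ∀ i, 0 ≤ 1 - 9 / 5 / ((1 - ρ i ^ 2) * D i)) :
    (∏ i, S0 (ρ i ^ 2)) * ∏ i, (1 - 9 / 5 / ((1 - ρ i ^ 2) * D i)) ≤ Q D (Psi ρ) (Psi ρ) := by
  classical
  have hB : BM (Psi ρ) := BM_of_cont (continuous_Psi h0 h1)
  unfold Q
  rw [double_integral hD hB]
  have e1 : ∀ e ∈ box D, cc D e * ‖ft (Psi ρ) e‖ ^ 2 =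
      ∏ i, ((1 - |(e i : ℝ)| / D i) * sc (ρ i) (e i) ^ 2) := by
    intro e _
    rw [ft_Psi h0 h1, Complex.norm_real, Real.norm_eq_abs, sq_abs, cc, prod_mul_distrib, prod_pow]
  rw [sum_congr rfl e1]
  unfold box
  rw [← prod_univ_sum (fun i => Ioo (-(D i : ℤ)) (D i))
    (fun i k => (1 - |(k : ℝ)| / D i) * sc (ρ i) k ^ 2), ← prod_mul_distrib]
  refine prod_le_prod (fun i _ => ?_) (fun i _ => energy (h0 i) (h1 i) (hD i))
  exact mul_nonneg (S0_pos (by positivity) (q_lt (h0 i) (h1 i))).le (hpos i)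

/-- The sum of the centred logarithms. -/
def GG (ρ : ι → ℝ) (x : ι → UnitAddCircle) : ℝ :=
  ∑ i, (Real.log (PP (ρ i) (x i)) - mu (ρ i ^ 2))

lemma continuous_GG : Continuous (GG ρ) := by
  unfold GG
  refine continuous_finsetSum _ fun i _ => ?_
  have := (continuous_log_PP (h0 i) (h1 i)).comp (continuous_apply (A := fun _ : ι => UnitAddCircle) i)
  exact this.sub continuous_const

lemma second_moment : ∫ x, Psi ρ x ^ 2 * GG ρ x ^ 2 ∂(tm ι) ≤
    4 * Fintype.card ι * ∏ i, S0 (ρ i ^ 2) := by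
  classical
  have hexp : ∀ x, Psi ρ x ^ 2 * GG ρ x ^ 2 = ∑ i, ∑ j, ∏ k, (((PP (ρ k) (x k)) ^ 4)⁻¹ *
      ((if k = i then (Real.log (PP (ρ k) (x k)) - mu (ρ k ^ 2)) else 1) *
       (if k = j then (Real.log (PP (ρ k) (x k)) - mu (ρ k ^ 2)) else 1))) := by
    intro x
    rw [Psi_sq, GG, pow_two (∑ i, _), sum_mul_sum, mul_sum]
    refine sum_congr rfl fun i _ => ?_
    rw [mul_sum]
    refine sum_congr rfl fun j _ => ?_
    rw [prod_mul_distrib, prod_mul_distrib, prod_ite_eq', prod_ite_eq']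
    simp
  simp_rw [hexp]
  have hcont : ∀ (k : ι) (c : Prop) [Decidable c], Continuous fun y : UnitAddCircle =>
      if c then (Real.log (PP (ρ k) y) - mu (ρ k ^ 2)) else 1 := by
    intro k c _
    split_ifs
    · exact (continuous_log_PP (h0 k) (h1 k)).sub continuous_const
    · exact continuous_const
  have hint : ∀ i j : ι, Integrable (fun x : ι → UnitAddCircle => ∏ k, (((PP (ρ k) (x k)) ^ 4)⁻¹ *
      ((if k = i then (Real.log (PP (ρ k) (x k)) - mu (ρ k ^ 2)) else 1) *
       (if k = j then (Real.log (PP (ρ k) (x k)) - mu (ρ k ^ 2)) else 1)))) (tm ι) := by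
    intro i j
    refine (BM_of_cont (continuous_finsetProd _ fun k _ => ?_)).integrable
    have := ((continuous_inv_pow (h0 k) (h1 k) 4).mul
      ((hcont k (k = i)).mul (hcont k (k = j)))).comp
      (continuous_apply (A := fun _ : ι => UnitAddCircle) k)
    exact this
  rw [integral_finsetSum _ fun i _ => integrable_finsetSum _ fun j _ => hint i j]
  have hval : ∀ i j : ι, ∫ x : ι → UnitAddCircle, ∏ k, (((PP (ρ k) (x k)) ^ 4)⁻¹ *
      ((if k = i then (Real.log (PP (ρ k) (x k)) - mu (ρ k ^ 2)) else 1) *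
       (if k = j then (Real.log (PP (ρ k) (x k)) - mu (ρ k ^ 2)) else 1))) ∂(tm ι) ≤
      if i = j then 4 * ∏ i, S0 (ρ i ^ 2) else 0 := by
    intro i j
    rw [integral_fintype_prod_eq_prod (fun k (y : UnitAddCircle) => (((PP (ρ k) y) ^ 4)⁻¹ *
      ((if k = i then (Real.log (PP (ρ k) y) - mu (ρ k ^ 2)) else 1) *
       (if k = j then (Real.log (PP (ρ k) y) - mu (ρ k ^ 2)) else 1))))]
    by_cases hij : i = j
    · subst hij
      rw [if_pos rfl]
      rw [← mul_prod_erase _ _ (mem_univ i), ← mul_prod_erase _ (fun i => S0 (ρ i ^ 2)) (mem_univ i),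
        ← mul_assoc]
      have e2 : ∏ k ∈ univ.erase i, ∫ y, (((PP (ρ k) y) ^ 4)⁻¹ *
          ((if k = i then (Real.log (PP (ρ k) y) - mu (ρ k ^ 2)) else 1) *
          (if k = i then (Real.log (PP (ρ k) y) - mu (ρ k ^ 2)) else 1))) ∂hm =
          ∏ k ∈ univ.erase i, S0 (ρ k ^ 2) := by
        refine prod_congr rfl fun k hk => ?_
        have hk' : k ≠ i := (mem_erase.mp hk).1
        simp only [hk', if_false, mul_one]
        exact integral_P4 (h0 k) (h1 k)
      rw [e2]
      refine mul_le_mul_of_nonneg_right ?_ (prod_nonneg fun k _ =>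
        (S0_pos (by positivity) (q_lt (h0 k) (h1 k))).le)
      simp only [if_true]
      have := variance (h0 i) (h1 i)
      refine le_trans (le_of_eq ?_) this
      refine integral_congr_ae (Filter.Eventually.of_forall fun y => ?_)
      simp only
      ring
    · rw [if_neg hij]
      refine le_of_eq (prod_eq_zero (mem_univ i) ?_)
      simp only [if_true, hij, if_false, mul_one]
      have e3 : ∀ y, ((PP (ρ i) y) ^ 4)⁻¹ * (Real.log (PP (ρ i) y) - mu (ρ i ^ 2)) =
          ((PP (ρ i) y) ^ 4)⁻¹ * Real.log (PP (ρ i) y) - mu (ρ i ^ 2) * ((PP (ρ i) y) ^ 4)⁻¹ := by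
        intro y; ring
      have hc4 := continuous_inv_pow (h0 i) (h1 i) 4
      have hl := continuous_log_PP (h0 i) (h1 i)
      simp_rw [e3]
      rw [integral_sub, integral_const_mul, integral_P4_log (h0 i) (h1 i), integral_P4 (h0 i) (h1 i)]
      · unfold mu; ring
      · exact integrable_of_cont_real (by fun_prop)
      · exact integrable_of_cont_real (by fun_prop)
  have h5 : ∀ i ∈ (univ : Finset ι), ∫ x : ι → UnitAddCircle, ∑ j, ∏ k, (((PP (ρ k) (x k)) ^ 4)⁻¹ *
      ((if k = i then (Real.log (PP (ρ k) (x k)) - mu (ρ k ^ 2)) else 1) *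
       (if k = j then (Real.log (PP (ρ k) (x k)) - mu (ρ k ^ 2)) else 1))) ∂(tm ι) ≤
      4 * ∏ i, S0 (ρ i ^ 2) := by
    intro i _
    rw [integral_finsetSum _ fun j _ => hint i j]
    refine (sum_le_sum fun j _ => hval i j).trans ?_
    rw [sum_ite_eq]
    simp
  refine (sum_le_sum h5).trans ?_
  rw [sum_const, card_univ, nsmul_eq_mul]
  linarith

end

end

end Pool.Agent.H390R2
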