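import Mathlib
import Pool.Agent.H390R2.Prod

open MeasureTheory Finset
open scoped ComplexConjugate

namespace Pool.Agent.H390R2

noncomputable section

variable {ι : Type} [Fintype ι]

/-- The typical set. -/
def Om (ρ : ι → ℝ) (δ : ℝ) : Set (ι → UnitAddCircle) :=
  {x | GG ρ x ≤ δ * Fintype.card ι}

section
variable {ρ : ι → ℝ} (h0 : ∀ i, 0 < ρ i) (h1 : ∀ i, ρ i < 1)
include h0 h1

lemma measurableSet_Om (δ : ℝ) : MeasurableSet (Om ρ δ) :=
  measurableSet_le (continuous_GG h0 h1).measurable measurable_const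

omit [Fintype ι] in
lemma exp_mu (i : ι) : Real.exp (4 * mu (ρ i ^ 2)) * S0 (ρ i ^ 2) =
    (1 - ρ i ^ 2) * B0 (ρ i ^ 2) * Real.exp (-8 * RR (ρ i ^ 2)) := by
  have hone := one_sub_q_pos (h0 i) (h1 i)
  unfold mu S0
  have e1 : 4 * (2 * Real.log (1 - ρ i ^ 2) - 2 * RR (ρ i ^ 2)) =
      (8 : ℕ) * Real.log (1 - ρ i ^ 2) + (-8 * RR (ρ i ^ 2)) := by push_cast; ring
  rw [e1, Real.exp_add, Real.exp_nat_mul, Real.exp_log hone]
  field_simp

lemma measure_Om (δ : ℝ) : (tm ι).real (Om ρ δ) ≤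
    Real.exp (4 * δ * Fintype.card ι) *
      ∏ i, ((1 - ρ i ^ 2) * B0 (ρ i ^ 2) * Real.exp (-8 * RR (ρ i ^ 2))) := by
  have hm := measurableSet_Om h0 h1 δ
  have e1 : (tm ι).real (Om ρ δ) = ∫ x, (Om ρ δ).indicator (fun _ => (1 : ℝ)) x ∂(tm ι) := by
    rw [integral_indicator hm]; simp
  have hcont : Continuous fun x : ι → UnitAddCircle =>
      Real.exp (4 * δ * Fintype.card ι) *
        ∏ i, (Real.exp (4 * mu (ρ i ^ 2)) * ((PP (ρ i) (x i)) ^ 4)⁻¹) := by
    refine continuous_const.mul (continuous_finsetProd _ fun i _ => ?_)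
    exact continuous_const.mul ((continuous_inv_pow (h0 i) (h1 i) 4).comp
      (continuous_apply (A := fun _ : ι => UnitAddCircle) i))
  have hBind : BM ((Om ρ δ).indicator (fun _ => (1 : ℝ))) := by
    refine ⟨measurable_const.indicator hm, 1, fun x => ?_⟩
    by_cases hx : x ∈ Om ρ δ <;> simp [hx]
  rw [e1]
  have h2 := integral_mono (μ := tm ι) hBind.integrable (BM_of_cont hcont).integrable
    (fun x => ?_)
  · refine h2.trans (le_of_eq ?_)
    rw [integral_const_mul]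
    congr 1
    rw [integral_fintype_prod_eq_prod (fun i (y : UnitAddCircle) =>
      Real.exp (4 * mu (ρ i ^ 2)) * ((PP (ρ i) y) ^ 4)⁻¹)]
    refine prod_congr rfl fun i _ => ?_
    rw [integral_const_mul, integral_P4 (h0 i) (h1 i), exp_mu h0 h1 i]
  · by_cases hx : x ∈ Om ρ δ
    · rw [Set.indicator_of_mem hx]
      have hx' : GG ρ x ≤ δ * Fintype.card ι := hx
      have e3 : ∏ i, (Real.exp (4 * mu (ρ i ^ 2)) * ((PP (ρ i) (x i)) ^ 4)⁻¹) =
          Real.exp (-4 * GG ρ x) := by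
        unfold GG
        rw [mul_sum, Real.exp_sum]
        refine prod_congr rfl fun i _ => ?_
        have hP := PP_pos (h0 i) (h1 i) (x i)
        rw [← Real.exp_log hP, Real.log_exp, ← Real.exp_nat_mul, ← Real.exp_neg, ← Real.exp_add]
        congr 1
        push_cast; ring
      rw [e3, ← Real.exp_add]
      apply Real.one_le_exp
      nlinarith
    · rw [Set.indicator_of_notMem hx]
      have : ∀ i, 0 < Real.exp (4 * mu (ρ i ^ 2)) * ((PP (ρ i) (x i)) ^ 4)⁻¹ := by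
        intro i
        have hP := PP_pos (h0 i) (h1 i) (x i)
        positivity
      exact mul_nonneg (Real.exp_pos _).le (prod_nonneg fun i _ => (this i).le)

lemma tail_Om {δ : ℝ} (hδ : 0 < δ) (hn : 0 < Fintype.card ι) :
    ∫ x, (Psi ρ x * (Om ρ δ)ᶜ.indicator (fun _ => (1 : ℝ)) x) ^ 2 ∂(tm ι) ≤
      4 / (δ ^ 2 * Fintype.card ι) * ∏ i, S0 (ρ i ^ 2) := by
  have hn' : (0 : ℝ) < Fintype.card ι := by exact_mod_cast hn
  have hm := measurableSet_Om h0 h1 δ
  have hBind : BM ((Om ρ δ)ᶜ.indicator (fun _ => (1 : ℝ))) := by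
    refine ⟨measurable_const.indicator hm.compl, 1, fun x => ?_⟩
    by_cases hx : x ∈ (Om ρ δ)ᶜ
    · rw [Set.indicator_of_mem hx]; simp
    · rw [Set.indicator_of_notMem hx]; simp
  have hBΨ : BM (Psi ρ) := BM_of_cont (continuous_Psi h0 h1)
  have hBG : BM (GG ρ) := BM_of_cont (continuous_GG h0 h1)
  have h2 := second_moment h0 h1
  have h3 : ∫ x, (Psi ρ x * (Om ρ δ)ᶜ.indicator (fun _ => (1 : ℝ)) x) ^ 2 ∂(tm ι) ≤
      ∫ x, (1 / (δ * Fintype.card ι) ^ 2) * (Psi ρ x ^ 2 * GG ρ x ^ 2) ∂(tm ι) := by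
    refine integral_mono (hBΨ.mul hBind).sq.integrable
      ((BM_const _).mul (hBΨ.sq.mul hBG.sq)).integrable fun x => ?_
    simp only
    by_cases hx : x ∈ (Om ρ δ)ᶜ
    · rw [Set.indicator_of_mem hx]
      have hx' : δ * Fintype.card ι < GG ρ x := by
        have : ¬ (GG ρ x ≤ δ * Fintype.card ι) := hx
        exact not_le.mp this
      have h4 : 1 ≤ (1 / (δ * Fintype.card ι) ^ 2) * GG ρ x ^ 2 := by
        rw [one_div, inv_mul_eq_div, one_le_div (by positivity)]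
        exact pow_le_pow_left₀ (by positivity) hx'.le 2
      have h5 : 0 ≤ Psi ρ x ^ 2 := sq_nonneg _
      nlinarith
    · rw [Set.indicator_of_notMem hx]
      rw [mul_zero, zero_pow (by norm_num)]
      positivity
  refine h3.trans ?_
  rw [integral_const_mul]
  calc (1 / (δ * Fintype.card ι) ^ 2) * ∫ x, Psi ρ x ^ 2 * GG ρ x ^ 2 ∂(tm ι)
      ≤ (1 / (δ * Fintype.card ι) ^ 2) * (4 * Fintype.card ι * ∏ i, S0 (ρ i ^ 2)) :=
        mul_le_mul_of_nonneg_left h2 (by positivity)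
    _ = _ := by field_simp

/-- The finite inequality behind the lattice theorem. -/
theorem finite_ineq {N : ℕ} (hN : 0 < N) (W : ι → ℤ) {D : ι → ℕ} (hD : ∀ i, 0 < D i)
    {κ : ℝ} (hκ0 : 0 ≤ κ)
    (hκ : ∀ e : ι → ℤ, e ≠ 0 → (N : ℤ) ∣ ∑ i, W i * e i → (∀ i, |e i| < D i) → cc D e ≤ κ)
    (hpos : ∀ i, 0 ≤ 1 - 9 / 5 / ((1 - ρ i ^ 2) * D i))
    {δ : ℝ} (hδ : 0 < δ) (hn : 0 < Fintype.card ι) :
    ∏ i, (1 - 9 / 5 / ((1 - ρ i ^ 2) * D i)) ≤
      κ + N * (Real.exp (4 * δ * Fintype.card ι) *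
        ∏ i, ((1 - ρ i ^ 2) * B0 (ρ i ^ 2) * Real.exp (-8 * RR (ρ i ^ 2)))) +
      4 / (δ * √(Fintype.card ι)) := by
  have hn' : (0 : ℝ) < Fintype.card ι := by exact_mod_cast hn
  have hm := measurableSet_Om h0 h1 δ
  set S := ∏ i, S0 (ρ i ^ 2) with hS
  have hSpos : 0 < S := prod_pos fun i _ => S0_pos (by positivity) (q_lt (h0 i) (h1 i))
  set χ : (ι → UnitAddCircle) → ℝ := (Om ρ δ).indicator (fun _ => (1 : ℝ)) with hχ
  set χ' : (ι → UnitAddCircle) → ℝ := (Om ρ δ)ᶜ.indicator (fun _ => (1 : ℝ)) with hχ'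
  have hBχ : BM χ := by
    refine ⟨measurable_const.indicator hm, 1, fun x => ?_⟩
    by_cases hx : x ∈ Om ρ δ
    · rw [hχ, Set.indicator_of_mem hx]; simp
    · rw [hχ, Set.indicator_of_notMem hx]; simp
  have hBχ' : BM χ' := by
    refine ⟨measurable_const.indicator hm.compl, 1, fun x => ?_⟩
    by_cases hx : x ∈ (Om ρ δ)ᶜ
    · rw [hχ', Set.indicator_of_mem hx]; simp
    · rw [hχ', Set.indicator_of_notMem hx]; simp
  have hsum : ∀ x, χ x + χ' x = 1 := by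
    intro x
    by_cases hx : x ∈ Om ρ δ
    · rw [hχ, hχ', Set.indicator_of_mem hx, Set.indicator_of_notMem (by simpa using hx)]; simp
    · rw [hχ, hχ', Set.indicator_of_notMem hx, Set.indicator_of_mem (by simpa using hx)]; simp
  have hχ01 : ∀ x, 0 ≤ χ x ∧ χ x ≤ 1 := by
    intro x
    by_cases hx : x ∈ Om ρ δ
    · rw [hχ, Set.indicator_of_mem hx]; simp
    · rw [hχ, Set.indicator_of_notMem hx]; simp
  have hχ'0 : ∀ x, 0 ≤ χ' x := by
    intro x
    have := hχ01 x; have := hsum x; linarith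
  have hBΨ : BM (Psi ρ) := BM_of_cont (continuous_Psi h0 h1)
  set φ : (ι → UnitAddCircle) → ℝ := fun x => Psi ρ x * χ x with hφ
  set a : (ι → UnitAddCircle) → ℝ := fun x => Psi ρ x * χ' x with ha
  have hBφ : BM φ := hBΨ.mul hBχ
  have hBa : BM a := hBΨ.mul hBχ'
  have hΨ : Psi ρ = fun x => φ x + a x := by
    funext x
    simp only [hφ, ha]
    rw [← mul_add, hsum, mul_one]
  have hΨpos := Psi_pos h0 h1
  -- decomposition
  have hq1 : Q D (Psi ρ) (Psi ρ) = Q D φ (Psi ρ) + Q D a (Psi ρ) := by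
    conv_lhs => rw [hΨ]
    rw [Q_add_left D hBφ hBa (hBφ.add hBa), ← hΨ]
  have hq2 : Q D φ (Psi ρ) = Q D φ φ + Q D a φ := by
    rw [Q_comm D hBφ hBΨ]
    conv_lhs => rw [hΨ]
    rw [Q_add_left D hBφ hBa hBφ]
  have hq3 : Q D a φ ≤ Q D a (Psi ρ) := by
    refine Q_mono D hBa hBφ hBa hBΨ fun x y => ?_
    refine mul_le_mul_of_nonneg_left ?_ (mul_nonneg (hΨpos x).le (hχ'0 x))
    simp only [hφ]
    have := hΨpos y
    have := hχ01 y
    nlinarith
  set s := 2 / (δ * √(Fintype.card ι)) with hs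
  have hspos : 0 < s := by positivity
  have hs2 : 4 / (δ ^ 2 * Fintype.card ι) = s ^ 2 := by
    rw [hs, div_pow, mul_pow, Real.sq_sqrt hn'.le]; norm_num
  have hq4 : Q D a (Psi ρ) ≤ s * S := by
    refine (Q_amgm hD hBa hBΨ hspos).trans ?_
    have ht := tail_Om h0 h1 hδ hn
    rw [hs2] at ht
    have hP := integral_Psi_sq h0 h1
    rw [hP, ← hS]
    have ht' : 1 / s * ∫ x, a x ^ 2 ∂(tm ι) ≤ 1 / s * (s ^ 2 * S) :=
      mul_le_mul_of_nonneg_left ht (by positivity)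
    have e5 : 1 / s * (s ^ 2 * S) = s * S := by field_simp
    rw [e5] at ht'
    linarith
  have hq5 := Q_Psi h0 h1 hD hpos
  have hφA : ∫ x, φ x ^ 2 ∂(tm ι) ≤ S := by
    rw [hS, ← integral_Psi_sq h0 h1]
    refine integral_mono hBφ.sq.integrable hBΨ.sq.integrable fun x => ?_
    simp only [hφ]
    rw [mul_pow]
    have h6 := hχ01 x
    have h7 : χ x ^ 2 ≤ 1 := by nlinarith
    have h8 : 0 ≤ Psi ρ x ^ 2 := sq_nonneg _
    nlinarith
  have hq6 := torus_ineq hN W hD hκ0 hκ hBφ hm (fun x hx => by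
    simp only [hφ]
    rw [hχ, Set.indicator_of_notMem hx, mul_zero])
  have hq7 : Q D φ φ ≤ (κ + N * (tm ι).real (Om ρ δ)) * S := by
    refine hq6.trans (mul_le_mul_of_nonneg_left hφA ?_)
    have : 0 ≤ (tm ι).real (Om ρ δ) := measureReal_nonneg
    positivity
  have hmeas := measure_Om h0 h1 δ
  set V := Real.exp (4 * δ * Fintype.card ι) *
        ∏ i, ((1 - ρ i ^ 2) * B0 (ρ i ^ 2) * Real.exp (-8 * RR (ρ i ^ 2))) with hV
  have hq8 : S * ∏ i, (1 - 9 / 5 / ((1 - ρ i ^ 2) * D i)) ≤ S * (κ + N * V + 2 * s) := by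
    have hN' : (0 : ℝ) ≤ N := by positivity
    have h9 : (κ + N * (tm ι).real (Om ρ δ)) * S ≤ (κ + N * V) * S := by
      refine mul_le_mul_of_nonneg_right ?_ hSpos.le
      have := mul_le_mul_of_nonneg_left hmeas hN'
      linarith
    calc S * ∏ i, (1 - 9 / 5 / ((1 - ρ i ^ 2) * D i)) ≤ Q D (Psi ρ) (Psi ρ) := hq5
      _ = Q D φ φ + Q D a φ + Q D a (Psi ρ) := by rw [hq1, hq2]
      _ ≤ (κ + N * V) * S + s * S + s * S := by linarith
      _ = S * (κ + N * V + 2 * s) := by ring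
  have hq9 := le_of_mul_le_mul_left hq8 hSpos
  have h10 : 2 * s = 4 / (δ * √(Fintype.card ι)) := by rw [hs]; ring
  rw [h10] at hq9
  exact hq9

end

end

end Pool.Agent.H390R2
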