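import Mathlib
import Pool.Agent.H390R2.Finite

open MeasureTheory Finset Filter
open scoped ComplexConjugate Topology

namespace Pool.Agent.H390R2

noncomputable section

/-- The function governing the entropy of the test density. -/
def FF (q : ℝ) : ℝ := Real.log (B0 q) - 8 * RR q

lemma FF_one : FF 1 = Real.log 20 - 74 / 15 := by
  unfold FF RR B0
  norm_num

lemma continuousAt_FF : ContinuousAt FF 1 := by
  unfold FF RR B0
  have h : ((1 : ℝ) + 9 * 1 + 9 * 1 ^ 2 + 1 ^ 3) ≠ 0 := by norm_num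
  refine ContinuousAt.sub (ContinuousAt.log (by fun_prop) h) ?_
  refine ContinuousAt.mul continuousAt_const (ContinuousAt.div (by fun_prop) (by fun_prop) h)

lemma exists_eta {ε : ℝ} (hε : 0 < ε) : ∃ η > 0, ∀ q : ℝ, |q - 1| < η →
    FF q ≤ Real.log 20 - 74 / 15 + ε := by
  have h := Metric.continuousAt_iff.mp continuousAt_FF ε hε
  obtain ⟨η, hη, h⟩ := h
  refine ⟨η, hη, fun q hq => ?_⟩
  have h2 := h (x := q) (by rw [Real.dist_eq]; exact hq)
  rw [Real.dist_eq, FF_one, abs_lt] at h2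
  linarith [h2.2]

lemma exists_n0 {ε Θ : ℝ} (hε : 0 < ε) (hΘ : 0 < Θ) : ∃ n0 : ℕ, ∀ n : ℕ, n0 ≤ n →
    Real.exp (-(1 + ε) * Θ) + Real.exp (-ε * n) + 32 / (ε * √n) <
      (1 - (1 + ε / 4) * Θ / n) ^ n := by
  have h1 : Tendsto (fun n : ℕ => (1 + (-((1 + ε / 4) * Θ)) / (n : ℝ)) ^ n) atTop
      (𝓝 (Real.exp (-((1 + ε / 4) * Θ)))) := Real.tendsto_one_add_div_pow_exp _
  have h2 : Tendsto (fun n : ℕ => Real.exp (-ε * n)) atTop (𝓝 0) := by
    refine Real.tendsto_exp_atBot.comp ?_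
    exact (tendsto_natCast_atTop_atTop (R := ℝ)).const_mul_atTop_of_neg (by linarith)
  have h3 : Tendsto (fun n : ℕ => 32 / (ε * √(n : ℝ))) atTop (𝓝 0) := by
    refine tendsto_const_nhds.div_atTop ?_
    refine Tendsto.const_mul_atTop hε ?_
    exact Real.tendsto_sqrt_atTop.comp tendsto_natCast_atTop_atTop
  have h4 : Tendsto (fun n : ℕ => Real.exp (-(1 + ε) * Θ) + Real.exp (-ε * n) +
      32 / (ε * √n)) atTop (𝓝 (Real.exp (-(1 + ε) * Θ) + 0 + 0)) :=
    (tendsto_const_nhds.add h2).add h3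
  have h5 : Real.exp (-(1 + ε) * Θ) + 0 + 0 < Real.exp (-((1 + ε / 4) * Θ)) := by
    rw [add_zero, add_zero, Real.exp_lt_exp]
    nlinarith
  have h6 := h4.eventually_lt h1 h5
  obtain ⟨n0, hn0⟩ := eventually_atTop.mp h6
  refine ⟨n0, fun n hn => ?_⟩
  have := hn0 n hn
  convert! this using 2
  ring

lemma one_sub_exp_ge {x : ℝ} (hx : 0 ≤ x) : x / (1 + x) ≤ 1 - Real.exp (-x) := by
  have h1 : 1 + x ≤ Real.exp x := by linarith [Real.add_one_le_exp x]
  have h2 : Real.exp (-x) ≤ 1 / (1 + x) := by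
    rw [Real.exp_neg, ← one_div]
    exact one_div_le_one_div_of_le (by linarith) h1
  have h3 : x / (1 + x) = 1 - 1 / (1 + x) := by field_simp; ring
  linarith

/-- **Short vectors in the l¹ norm.** -/
theorem lattice {ε : ℝ} (hε : 0 < ε) (hε1 : ε ≤ 1) : ∃ n0 : ℕ, ∃ x0 > 0,
    ∀ (ι : Type) [Fintype ι] (w : ι → ℝ) (N : ℕ) (W : ι → ℤ) (σ : ℝ),
    n0 ≤ Fintype.card ι → 0 < N → (∀ i, 0 < w i) → 0 < σ → (∀ i, σ * w i ≤ x0) →
    Real.log N + ∑ i, Real.log (σ * w i) +
      Fintype.card ι * (Real.log 40 - 74 / 15 + 2 * ε) ≤ 0 →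
    ∃ e : ι → ℤ, e ≠ 0 ∧ (N : ℤ) ∣ ∑ i, W i * e i ∧
      ∑ i, |(e i : ℝ)| * w i ≤ (1 + ε) * (9 / 10) * Fintype.card ι / σ := by
  set Θ : ℝ := 1 / ε with hΘ
  have hΘ0 : 0 < Θ := by positivity
  obtain ⟨η, hη, hFF⟩ := exists_eta (ε := ε / 2) (by positivity)
  obtain ⟨n1, hn1⟩ := exists_n0 hε hΘ0
  obtain ⟨n2, hn2⟩ := exists_nat_ge (2 * Θ)
  set x0 : ℝ := min (ε / 16) (η / 4) with hx0
  refine ⟨max (max n1 n2) 1, x0, by positivity, ?_⟩
  intro ι _ w N W σ hn hN hw hσ hσw hcond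
  by_contra hcon
  push Not at hcon
  set n := Fintype.card ι with hnn
  have hn1' : n1 ≤ n := (le_max_left _ _).trans ((le_max_left _ _).trans hn)
  have hn2' : n2 ≤ n := (le_max_right _ _).trans ((le_max_left _ _).trans hn)
  have hn3' : 1 ≤ n := (le_max_right _ _).trans hn
  have hnpos : (0 : ℝ) < n := by exact_mod_cast hn3'
  have hnΘ : 2 * Θ ≤ n := hn2.trans (by exact_mod_cast hn2')
  have hx1 : x0 ≤ ε / 16 := min_le_left _ _
  have hx2 : x0 ≤ η / 4 := min_le_right _ _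
  -- parameters
  set t : ℝ := Θ * 10 / 9 * σ / n with ht
  have ht0 : 0 < t := by positivity
  have htw : ∀ i, t * w i ≤ σ * w i := by
    intro i
    refine mul_le_mul_of_nonneg_right ?_ (hw i).le
    rw [ht, div_le_iff₀ hnpos]
    nlinarith
  have htw0 : ∀ i, 0 < t * w i := fun i => mul_pos ht0 (hw i)
  have hσw0 : ∀ i, 0 < σ * w i := fun i => mul_pos hσ (hw i)
  set D : ι → ℕ := fun i => ⌊1 / (t * w i)⌋₊ with hD
  have hDle : ∀ i, (D i : ℝ) ≤ 1 / (t * w i) := fun i => Nat.floor_le (by have := htw0 i; positivity)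
  have hDge : ∀ i, 1 / (t * w i) < D i + 1 := fun i => Nat.lt_floor_add_one _
  have hsmall : ∀ i, t * w i ≤ ε / 16 := fun i => ((htw i).trans (hσw i)).trans hx1
  have hDpos : ∀ i, 0 < D i := by
    intro i
    have h1 : (1 : ℝ) ≤ 1 / (t * w i) := by
      rw [le_div_iff₀ (htw0 i)]
      have := hsmall i
      linarith
    exact Nat.floor_pos.mpr h1
  have hDpos' : ∀ i, (0 : ℝ) < D i := fun i => by exact_mod_cast hDpos i
  set ρ : ι → ℝ := fun i => Real.exp (-(σ * w i)) with hρ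
  have h0 : ∀ i, 0 < ρ i := fun i => Real.exp_pos _
  have h1 : ∀ i, ρ i < 1 := fun i => by
    simp only [hρ]
    rw [Real.exp_lt_one_iff]
    have := hσw0 i
    linarith
  have hq : ∀ i, ρ i ^ 2 = Real.exp (-(2 * (σ * w i))) := by
    intro i
    simp only [hρ]
    rw [← Real.exp_nat_mul]
    congr 1
    push_cast; ring
  have hq_le : ∀ i, 1 - ρ i ^ 2 ≤ 2 * (σ * w i) := by
    intro i
    rw [hq]
    have := Real.add_one_le_exp (-(2 * (σ * w i)))
    linarith
  have hq_ge : ∀ i, 2 * (σ * w i) / (1 + 2 * (σ * w i)) ≤ 1 - ρ i ^ 2 := by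
    intro i
    rw [hq]
    exact one_sub_exp_ge (by have := hσw0 i; positivity)
  have hqpos : ∀ i, 0 < 1 - ρ i ^ 2 := fun i => one_sub_q_pos (h0 i) (h1 i)
  -- bound for a_i
  have ha : ∀ i, 9 / 5 / ((1 - ρ i ^ 2) * D i) ≤ (1 + ε / 4) * Θ / n := by
    intro i
    have e1 : (1 - t * w i) / (t * w i) ≤ D i := by
      have := hDge i
      have e2 : (1 - t * w i) / (t * w i) = 1 / (t * w i) - 1 := by
        rw [sub_div, div_self (htw0 i).ne']
      rw [e2]; linarith
    have e3 : 0 < (1 - t * w i) / (t * w i) := by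
      have := hsmall i
      have := htw0 i
      apply div_pos <;> linarith
    have e4 : 0 < 2 * (σ * w i) / (1 + 2 * (σ * w i)) := by
      have := hσw0 i
      positivity
    have e5 : (2 * (σ * w i) / (1 + 2 * (σ * w i))) * ((1 - t * w i) / (t * w i)) ≤
        (1 - ρ i ^ 2) * D i := mul_le_mul (hq_ge i) e1 e3.le (hqpos i).le
    have e6 : 9 / 5 / ((1 - ρ i ^ 2) * D i) ≤
        9 / 5 / ((2 * (σ * w i) / (1 + 2 * (σ * w i))) * ((1 - t * w i) / (t * w i))) :=
      div_le_div_of_nonneg_left (by norm_num) (mul_pos e4 e3) e5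
    refine e6.trans ?_
    have e7 : 1 - t * w i > 0 := by
      have := hsmall i
      linarith
    have e8 : 9 / 5 / ((2 * (σ * w i) / (1 + 2 * (σ * w i))) * ((1 - t * w i) / (t * w i))) =
        Θ / n * ((1 + 2 * (σ * w i)) / (1 - t * w i)) := by
      have a1 := (hw i).ne'
      have a2 := hσ.ne'
      have a3 := e7.ne'
      have a4 : 1 + 2 * (σ * w i) ≠ 0 := by have := hσw0 i; positivity
      have a5 : t / σ = Θ * 10 / 9 / n := by rw [ht]; field_simp
      have a6 : 9 / 5 / ((2 * (σ * w i) / (1 + 2 * (σ * w i))) * ((1 - t * w i) / (t * w i))) =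
          9 / 10 * (t / σ) * ((1 + 2 * (σ * w i)) / (1 - t * w i)) := by
        field_simp
        ring
      rw [a6, a5]; ring
    rw [e8]
    have e9 : (1 + 2 * (σ * w i)) / (1 - t * w i) ≤ 1 + ε / 4 := by
      rw [div_le_iff₀ e7]
      have b1 := (hσw i).trans hx1
      have b2 := hsmall i
      have b3 := htw0 i
      nlinarith
    calc Θ / n * ((1 + 2 * (σ * w i)) / (1 - t * w i)) ≤ Θ / n * (1 + ε / 4) :=
          mul_le_mul_of_nonneg_left e9 (by positivity)
      _ = _ := by ring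
  have hmain := hn1 n hn1'
  have hbase : 0 < (1 - (1 + ε / 4) * Θ / n) ^ n := by
    refine lt_of_le_of_lt ?_ hmain
    positivity
  have hbase1 : 0 ≤ 1 - (1 + ε / 4) * Θ / n := by
    rw [sub_nonneg, div_le_one hnpos]
    nlinarith
  have hpos : ∀ i, 0 ≤ 1 - 9 / 5 / ((1 - ρ i ^ 2) * D i) := fun i => by
    have := ha i
    linarith
  -- bound for κ
  have hκ : ∀ e : ι → ℤ, e ≠ 0 → (N : ℤ) ∣ ∑ i, W i * e i → (∀ i, |e i| < D i) →
      cc D e ≤ Real.exp (-(1 + ε) * Θ) := by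
    intro e he hdiv hlt
    have hlam := hcon e he hdiv
    have c1 : cc D e ≤ ∏ i, Real.exp (-(|(e i : ℝ)| / D i)) := by
      unfold cc
      refine prod_le_prod (fun i _ => ?_) (fun i _ => ?_)
      · rw [sub_nonneg, div_le_one (hDpos' i)]
        have := hlt i
        have h2 : ((|e i| : ℤ) : ℝ) < ((D i : ℤ) : ℝ) := by exact_mod_cast this
        rw [Int.cast_abs] at h2
        push_cast at h2
        exact h2.le
      · have := Real.add_one_le_exp (-(|(e i : ℝ)| / D i))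
        linarith
    refine c1.trans ?_
    rw [← Real.exp_sum, Real.exp_le_exp, sum_neg_distrib]
    have c2 : t * ∑ i, |(e i : ℝ)| * w i ≤ ∑ i, |(e i : ℝ)| / D i := by
      rw [mul_sum]
      refine sum_le_sum fun i _ => ?_
      have c3 : t * w i ≤ 1 / D i := by
        rw [le_div_iff₀ (hDpos' i)]
        have := hDle i
        rw [le_div_iff₀ (htw0 i)] at this
        linarith
      calc t * (|(e i : ℝ)| * w i) = |(e i : ℝ)| * (t * w i) := by ring
        _ ≤ |(e i : ℝ)| * (1 / D i) := mul_le_mul_of_nonneg_left c3 (abs_nonneg _)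
        _ = _ := by ring
    have c4 : t * ((1 + ε) * (9 / 10) * n / σ) = (1 + ε) * Θ := by
      rw [ht]; field_simp
    have c5 := mul_lt_mul_of_pos_left hlam ht0
    rw [c4] at c5
    linarith
  -- bound for the volume
  have hV : N * (Real.exp (4 * (ε / 8) * n) *
      ∏ i, ((1 - ρ i ^ 2) * B0 (ρ i ^ 2) * Real.exp (-8 * RR (ρ i ^ 2)))) ≤
      Real.exp (-ε * n) := by
    have d1 : ∀ i, (1 - ρ i ^ 2) * B0 (ρ i ^ 2) * Real.exp (-8 * RR (ρ i ^ 2)) ≤
        Real.exp (Real.log (σ * w i) + (Real.log 40 - 74 / 15 + ε / 2)) := by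
      intro i
      have hB : 0 < B0 (ρ i ^ 2) := lt_of_lt_of_le one_pos (B0_pos (by positivity))
      have e1 : B0 (ρ i ^ 2) * Real.exp (-8 * RR (ρ i ^ 2)) = Real.exp (FF (ρ i ^ 2)) := by
        unfold FF
        rw [sub_eq_add_neg, Real.exp_add, Real.exp_log hB]
        congr 2
        ring
      have e2 : |ρ i ^ 2 - 1| < η := by
        rw [abs_sub_comm, abs_of_pos (hqpos i)]
        have g1 := hq_le i
        have g2 := (hσw i).trans hx2
        linarith
      have e3 := hFF _ e2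
      rw [mul_assoc, e1, Real.exp_add, Real.exp_log (hσw0 i)]
      have e4 : Real.exp (Real.log 40 - 74 / 15 + ε / 2) =
          2 * Real.exp (Real.log 20 - 74 / 15 + ε / 2) := by
        have : Real.log 40 = Real.log 2 + Real.log 20 := by
          rw [← Real.log_mul (by norm_num) (by norm_num)]; norm_num
        rw [this, show Real.log 2 + Real.log 20 - 74 / 15 + ε / 2 =
          Real.log 2 + (Real.log 20 - 74 / 15 + ε / 2) by ring, Real.exp_add,
          Real.exp_log (by norm_num)]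
      rw [e4]
      have e5 := Real.exp_le_exp.mpr e3
      calc (1 - ρ i ^ 2) * Real.exp (FF (ρ i ^ 2))
          ≤ (2 * (σ * w i)) * Real.exp (Real.log 20 - 74 / 15 + ε / 2) :=
            mul_le_mul (hq_le i) e5 (Real.exp_pos _).le (by have := hσw0 i; positivity)
        _ = _ := by ring
    have d2 : ∏ i, ((1 - ρ i ^ 2) * B0 (ρ i ^ 2) * Real.exp (-8 * RR (ρ i ^ 2))) ≤
        Real.exp (∑ i, Real.log (σ * w i) + n * (Real.log 40 - 74 / 15 + ε / 2)) := by
      have d3 : ∑ i, Real.log (σ * w i) + n * (Real.log 40 - 74 / 15 + ε / 2) =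
          ∑ i, (Real.log (σ * w i) + (Real.log 40 - 74 / 15 + ε / 2)) := by
        rw [sum_add_distrib, sum_const, card_univ, nsmul_eq_mul]
      rw [d3, Real.exp_sum]
      refine prod_le_prod (fun i _ => ?_) (fun i _ => d1 i)
      have hB : 0 < B0 (ρ i ^ 2) := lt_of_lt_of_le one_pos (B0_pos (by positivity))
      have := hqpos i
      positivity
    have hN' : (0 : ℝ) < N := by exact_mod_cast hN
    calc N * (Real.exp (4 * (ε / 8) * n) *
        ∏ i, ((1 - ρ i ^ 2) * B0 (ρ i ^ 2) * Real.exp (-8 * RR (ρ i ^ 2))))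
        ≤ N * (Real.exp (4 * (ε / 8) * n) *
          Real.exp (∑ i, Real.log (σ * w i) + n * (Real.log 40 - 74 / 15 + ε / 2))) := by
          gcongr
      _ = Real.exp (Real.log N + (4 * (ε / 8) * n +
          (∑ i, Real.log (σ * w i) + n * (Real.log 40 - 74 / 15 + ε / 2)))) := by
          rw [Real.exp_add (Real.log N), Real.exp_log hN', Real.exp_add (4 * (ε / 8) * n)]
      _ ≤ Real.exp (-ε * n) := by
          rw [Real.exp_le_exp]
          linarith
  have hfin := finite_ineq h0 h1 hN W hDpos (Real.exp_pos (-(1 + ε) * Θ)).le hκ hpos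
    (δ := ε / 8) (by positivity) (by exact_mod_cast hn3')
  have hlow : (1 - (1 + ε / 4) * Θ / n) ^ n ≤ ∏ i, (1 - 9 / 5 / ((1 - ρ i ^ 2) * D i)) := by
    have : (1 - (1 + ε / 4) * Θ / n) ^ n = ∏ _i : ι, (1 - (1 + ε / 4) * Θ / n) := by
      rw [prod_const, card_univ]
    rw [this]
    refine prod_le_prod (fun i _ => hbase1) (fun i _ => ?_)
    have := ha i
    linarith
  have hlast : 4 / (ε / 8 * √(Fintype.card ι)) = 32 / (ε * √n) := by
    rw [← hnn]
    have : 0 < √(n : ℝ) := Real.sqrt_pos.mpr hnpos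
    field_simp
    norm_num
  rw [hlast] at hfin
  linarith

end

end Pool.Agent.H390R2
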