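import Mathlib

open Finset Filter Nat
open scoped Topology

namespace Pool.Agent.H390R2

noncomputable section

/-- `n ↦ 1/n` as a multiplicative homomorphism. -/
def invHom : ℕ →* ℝ where
  toFun n := (n : ℝ)⁻¹
  map_one' := by simp
  map_mul' a b := by push_cast; rw [mul_inv]

lemma euler_lower (M : ℕ) (hM : 1 ≤ M) :
    Real.log M ≤ ∏ p ∈ primesBelow M, (1 - (p : ℝ)⁻¹)⁻¹ := by
  have h := (EulerProduct.summable_and_hasSum_smoothNumbers_prod_primesBelow_geometric
    (f := invHom) (fun {p} hp => by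
      simp only [invHom, MonoidHom.coe_mk, OneHom.coe_mk, norm_inv, Real.norm_natCast]
      exact inv_lt_one_of_one_lt₀ (by exact_mod_cast hp.one_lt)) M)
  have h2 : HasSum (fun m : M.smoothNumbers => ((m : ℕ) : ℝ)⁻¹)
      (∏ p ∈ primesBelow M, (1 - (p : ℝ)⁻¹)⁻¹) := h.2
  rw [← h2.tsum_eq]
  have hmem : ∀ m ∈ Icc 1 (M - 1), m ∈ M.smoothNumbers := by
    intro m hm
    rw [Finset.mem_Icc] at hm
    exact mem_smoothNumbers_of_lt (by omega) (by omega)
  set T : Finset M.smoothNumbers := (Icc 1 (M - 1)).attach.image fun m => ⟨m.1, hmem m.1 m.2⟩ with hT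
  have h3 : ∑ m ∈ T, ((m : ℕ) : ℝ)⁻¹ = ∑ m ∈ Icc 1 (M - 1), (m : ℝ)⁻¹ := by
    rw [hT, sum_image]
    · exact sum_attach (Icc 1 (M - 1)) (fun m => (m : ℝ)⁻¹)
    · intro a _ b _ hab
      simp only [Subtype.mk.injEq] at hab
      exact Subtype.ext hab
  have h4 : ∑ m ∈ T, ((m : ℕ) : ℝ)⁻¹ ≤ ∑' m : M.smoothNumbers, ((m : ℕ) : ℝ)⁻¹ :=
    h2.summable.sum_le_tsum T fun m _ => by positivity
  have h5 := log_add_one_le_harmonic (M - 1)
  have h6 : ((harmonic (M - 1) : ℚ) : ℝ) = ∑ m ∈ Icc 1 (M - 1), (m : ℝ)⁻¹ := by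
    rw [harmonic_eq_sum_Icc]; push_cast; rfl
  have h7 : M - 1 + 1 = M := by omega
  rw [h7, h6] at h5
  rw [h3] at h4
  exact h5.trans h4

lemma sum_tele (M : ℕ) : ∑ p ∈ primesBelow M, (1 : ℝ) / (p * (p - 1)) ≤ 1 := by
  have h1 : ∑ p ∈ primesBelow M, (1 : ℝ) / (p * (p - 1)) ≤
      ∑ p ∈ Ico 2 (M + 2), (1 : ℝ) / (p * (p - 1)) := by
    refine sum_le_sum_of_subset_of_nonneg (fun p hp => ?_) (fun p hp _ => ?_)
    · rw [mem_primesBelow] at hp
      rw [Finset.mem_Ico]
      exact ⟨hp.2.two_le, by omega⟩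
    · rw [Finset.mem_Ico] at hp
      have : (2 : ℝ) ≤ p := by exact_mod_cast hp.1
      have : (0 : ℝ) < p * (p - 1) := by nlinarith
      positivity
  refine h1.trans ?_
  have h2 : ∀ k : ℕ, ∑ p ∈ Ico 2 (k + 2), (1 : ℝ) / (p * (p - 1)) = 1 - 1 / (k + 1) := by
    intro k
    induction k with
    | zero => simp
    | succ k ih =>
      rw [sum_Ico_succ_top (by omega), ih]
      push_cast
      have : (k : ℝ) + 1 ≠ 0 := by positivity
      have : (k : ℝ) + 1 + 1 ≠ 0 := by positivity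
      have : (k : ℝ) + 2 ≠ 0 := by positivity
      have : (k : ℝ) + 2 - 1 ≠ 0 := by
        have : (k : ℝ) + 2 - 1 = k + 1 := by ring
        rw [this]; positivity
      field_simp
      ring
  rw [h2]
  have : (0 : ℝ) < 1 / (M + 1) := by positivity
  linarith

lemma mertens_lower (M : ℕ) (hM : 3 ≤ M) :
    Real.log (Real.log M) - 1 ≤ ∑ p ∈ primesBelow M, (1 : ℝ) / p := by
  have h1 := euler_lower M (by omega)
  have hlog : 0 < Real.log M := Real.log_pos (by exact_mod_cast (by omega : 1 < M))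
  have h2 := Real.log_le_log hlog h1
  rw [Real.log_prod (fun p hp => by
    have hp' := (mem_primesBelow.mp hp).2.one_lt
    have : ((p : ℝ)⁻¹) < 1 := inv_lt_one_of_one_lt₀ (by exact_mod_cast hp')
    have : 0 < 1 - (p : ℝ)⁻¹ := by linarith
    positivity)] at h2
  have h3 : ∀ p ∈ primesBelow M, Real.log ((1 - (p : ℝ)⁻¹)⁻¹) ≤ 1 / p + 1 / (p * (p - 1)) := by
    intro p hp
    have hp' := (mem_primesBelow.mp hp).2.two_le
    have hp2 : (2 : ℝ) ≤ p := by exact_mod_cast hp'
    have h4 : 0 < 1 - (p : ℝ)⁻¹ := by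
      have : ((p : ℝ)⁻¹) < 1 := inv_lt_one_of_one_lt₀ (by linarith)
      linarith
    have h5 := Real.log_le_sub_one_of_pos (inv_pos.mpr h4)
    refine h5.trans (le_of_eq ?_)
    have h6 : (p : ℝ) - 1 ≠ 0 := by linarith
    have h7 : (p : ℝ) ≠ 0 := by linarith
    have h8 : (1 - (p : ℝ)⁻¹) = (p - 1) / p := by field_simp
    rw [h8, inv_div]
    field_simp
    ring
  have h4 := sum_le_sum h3
  rw [sum_add_distrib] at h4
  have h5 := sum_tele M
  linarith

/-- `II m = ∑_{p ≤ m} log (m / p)`. -/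
def II (m : ℕ) : ℝ := ∑ p ∈ primesLE m, Real.log ((m : ℝ) / p)

lemma step {p m : ℝ} (hp : 0 < p) (hm : 1 ≤ m) (hpm : p ≤ m) :
    (Real.log (m / p) + 1) / m - (Real.log ((m + 1) / p) + 1) / (m + 1) ≤
      Real.log ((m + 1) / p) / m ^ 2 := by
  have hm0 : 0 < m := by linarith
  set a := Real.log (m / p) with ha
  have ha0 : 0 ≤ a := Real.log_nonneg ((one_le_div hp).mpr hpm)
  have h1 : Real.log ((m + 1) / p) = a + Real.log ((m + 1) / m) := by
    rw [ha, ← Real.log_mul (by positivity) (by positivity)]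
    congr 1
    field_simp
  set h := Real.log ((m + 1) / m) with hh
  have h2 : 1 / (m + 1) ≤ h := by
    have h3 := Real.log_le_sub_one_of_pos (x := m / (m + 1)) (by positivity)
    have h4 : Real.log (m / (m + 1)) = -h := by
      rw [hh, ← Real.log_inv, inv_div]
    have h5 : m / (m + 1) - 1 = -(1 / (m + 1)) := by field_simp; ring
    rw [h4, h5] at h3
    linarith
  rw [h1]
  have h6 : (a + h) / m ^ 2 - ((a + 1) / m - (a + h + 1) / (m + 1)) =
      (a * 1 + (h - 1 / (m + 1)) * (m ^ 2 + m + 1) + 1 / (m + 1)) / (m ^ 2 * (m + 1)) := by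
    field_simp
    ring
  have h7 : 0 ≤ (a * 1 + (h - 1 / (m + 1)) * (m ^ 2 + m + 1) + 1 / (m + 1)) /
      (m ^ 2 * (m + 1)) := by
    have : 0 ≤ h - 1 / (m + 1) := by linarith
    positivity
  linarith

lemma II_lower (M : ℕ) (hM : 2 ≤ M) :
    ∑ p ∈ primesBelow M, (1 / (p : ℝ) - (Real.log ((M : ℝ) / p) + 1) / M) ≤
      ∑ m ∈ Ico 2 M, II (m + 1) / (m : ℝ) ^ 2 := by
  induction M, hM using Nat.le_induction with
  | base => simp
  | succ n hn ih =>
    rw [sum_Ico_succ_top hn]
    have hn1 : (1 : ℝ) ≤ n := by exact_mod_cast (by omega : 1 ≤ n)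
    have hn0 : (0 : ℝ) < n := by linarith
    -- right side
    have h1 : ∑ p ∈ primesLE n, Real.log (((n : ℝ) + 1) / p) / (n : ℝ) ^ 2 ≤
        II (n + 1) / (n : ℝ) ^ 2 := by
      rw [← sum_div]
      refine div_le_div_of_nonneg_right ?_ (by positivity)
      unfold II
      push_cast
      refine sum_le_sum_of_subset_of_nonneg (primesLE_mono (by omega)) fun p hp _ => ?_
      rw [mem_primesLE] at hp
      have : (0 : ℝ) < p := by exact_mod_cast hp.2.pos
      refine Real.log_nonneg ((one_le_div this).mpr ?_)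
      exact_mod_cast hp.1
    have h2 : ∑ p ∈ primesLE n, ((Real.log ((n : ℝ) / p) + 1) / n -
        (Real.log (((n : ℝ) + 1) / p) + 1) / (n + 1)) ≤
        ∑ p ∈ primesLE n, Real.log (((n : ℝ) + 1) / p) / (n : ℝ) ^ 2 := by
      refine sum_le_sum fun p hp => ?_
      rw [mem_primesLE] at hp
      exact step (by exact_mod_cast hp.2.pos) hn1 (by exact_mod_cast hp.1)
    have h3 : ∑ p ∈ primesBelow (n + 1), (1 / (p : ℝ) -
        (Real.log (((n + 1 : ℕ) : ℝ) / p) + 1) / ((n + 1 : ℕ) : ℝ)) =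
        ∑ p ∈ primesBelow n, (1 / (p : ℝ) - (Real.log ((n : ℝ) / p) + 1) / n) +
        ∑ p ∈ primesLE n, ((Real.log ((n : ℝ) / p) + 1) / n -
        (Real.log (((n : ℝ) + 1) / p) + 1) / (n + 1)) := by
      have e1 : primesLE n = primesBelow (n + 1) := rfl
      rw [e1]
      have e2 : ∑ p ∈ primesBelow n, (1 / (p : ℝ) - (Real.log ((n : ℝ) / p) + 1) / n) =
          ∑ p ∈ primesBelow (n + 1), (1 / (p : ℝ) - (Real.log ((n : ℝ) / p) + 1) / n) := by
        rw [primesBelow_succ]
        split_ifs with hp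
        · rw [sum_insert (notMem_primesBelow n)]
          have : (1 / (n : ℝ) - (Real.log ((n : ℝ) / n) + 1) / n) = 0 := by
            rw [div_self hn0.ne', Real.log_one]; ring
          rw [this, zero_add]
        · rfl
      rw [e2, ← sum_add_distrib]
      refine sum_congr rfl fun p _ => ?_
      push_cast
      ring
    rw [h3]
    linarith

lemma aux_sum (M : ℕ) (hM : 2 ≤ M) :
    ∑ p ∈ primesBelow M, (Real.log ((M : ℝ) / p) + 1) / M ≤ 2 := by
  have hM0 : (0 : ℝ) < M := by exact_mod_cast (by omega : 0 < M)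
  rw [← sum_div, div_le_iff₀ hM0]
  have h1 : ∑ p ∈ primesBelow M, (Real.log ((M : ℝ) / p) + 1) ≤
      ∑ p ∈ Icc 1 M, (Real.log ((M : ℝ) / p) + 1) := by
    refine sum_le_sum_of_subset_of_nonneg (fun p hp => ?_) (fun p hp _ => ?_)
    · rw [mem_primesBelow] at hp
      rw [Finset.mem_Icc]
      exact ⟨hp.2.one_le, hp.1.le⟩
    · rw [Finset.mem_Icc] at hp
      have : (0 : ℝ) < p := by exact_mod_cast (by omega : 0 < p)
      have h2 := Real.log_nonneg ((one_le_div this).mpr (by exact_mod_cast hp.2 : (p : ℝ) ≤ M))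
      linarith
  refine h1.trans ?_
  have h2 : ∀ p ∈ Icc 1 M, Real.log ((M : ℝ) / p) + 1 = Real.log M + 1 - Real.log p := by
    intro p hp
    rw [Finset.mem_Icc] at hp
    have : (0 : ℝ) < p := by exact_mod_cast (by omega : 0 < p)
    rw [Real.log_div hM0.ne' this.ne']
    ring
  rw [sum_congr rfl h2, sum_sub_distrib, sum_const, Nat.card_Icc, nsmul_eq_mul]
  have h3 : ∑ p ∈ Icc 1 M, Real.log (p : ℝ) = Real.log (M ! : ℝ) := by
    clear h2 h1 hM0 hM
    induction M with
    | zero => simp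
    | succ n ih =>
      rw [sum_Icc_succ_top (by omega), ih, Nat.factorial_succ]
      push_cast
      rw [Real.log_mul (by positivity) (by positivity), add_comm]
  rw [h3]
  have h4 : (M : ℝ) * Real.log M - M ≤ Real.log (M ! : ℝ) := by
    have h5 : ((M : ℝ) / Real.exp 1) ^ M ≤ M ! := by
      have h6 := Real.pow_div_factorial_le_exp (M : ℝ) hM0.le M
      have h7 : (0 : ℝ) < M ! := by exact_mod_cast Nat.factorial_pos M
      rw [div_le_iff₀ h7] at h6
      rw [div_pow, div_le_iff₀ (by positivity), ← Real.exp_nat_mul, mul_one]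
      linarith
    have h8 := Real.log_le_log (by positivity) h5
    rw [Real.log_pow, Real.log_div hM0.ne' (by positivity), Real.log_exp] at h8
    linarith
  have h9 : ((M + 1 - 1 : ℕ) : ℝ) = M := by simp
  rw [h9]
  linarith

lemma upper_term {m : ℕ} (hm : 2 ≤ m) :
    ((m : ℝ) + 1) / Real.log (m + 1) / (m : ℝ) ^ 2 ≤
      (Real.log (Real.log (m + 1)) - Real.log (Real.log m)) +
        3 * (1 / ((m : ℝ) - 1) - 1 / m) := by
  have hm2 : (2 : ℝ) ≤ m := by exact_mod_cast hm
  have hm0 : (0 : ℝ) < m := by linarith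
  have hl0 : 0 < Real.log m := Real.log_pos (by linarith)
  have hl1 : 1 ≤ Real.log (m + 1) := by
    rw [Real.le_log_iff_exp_le (by linarith)]
    have := Real.exp_one_lt_d9
    linarith
  -- log log difference
  have h1 : 1 / ((m + 1) * Real.log (m + 1)) ≤
      Real.log (Real.log (m + 1)) - Real.log (Real.log m) := by
    have e1 : Real.log (Real.log (m + 1)) - Real.log (Real.log m) =
        -Real.log (Real.log m / Real.log (m + 1)) := by
      rw [Real.log_div hl0.ne' (by linarith)]; ring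
    have e2 := Real.log_le_sub_one_of_pos (x := Real.log m / Real.log (m + 1)) (by positivity)
    have e3 : 1 / ((m : ℝ) + 1) ≤ Real.log (m + 1) - Real.log m := by
      rw [← Real.log_div (by linarith) hm0.ne']
      have e4 := Real.log_le_sub_one_of_pos (x := (m : ℝ) / (m + 1)) (by positivity)
      have e5 : Real.log ((m : ℝ) / (m + 1)) = -Real.log ((m + 1) / m) := by
        rw [← Real.log_inv, inv_div]
      have e6 : (m : ℝ) / (m + 1) - 1 = -(1 / (m + 1)) := by field_simp; ring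
      rw [e5, e6] at e4
      linarith
    have e7 : 1 / (((m : ℝ) + 1) * Real.log (m + 1)) ≤
        (Real.log (m + 1) - Real.log m) / Real.log (m + 1) := by
      rw [← div_div]
      exact div_le_div_of_nonneg_right e3 (by linarith)
    have e8 : (Real.log (m + 1) - Real.log m) / Real.log (m + 1) =
        1 - Real.log m / Real.log (m + 1) := by
      have : Real.log ((m : ℝ) + 1) ≠ 0 := by linarith
      field_simp
    rw [e1]
    linarith
  have h2 : ((m : ℝ) + 1) / Real.log (m + 1) / (m : ℝ) ^ 2 =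
      1 / ((m + 1) * Real.log (m + 1)) +
        (2 * m + 1) / ((m : ℝ) ^ 2 * (m + 1) * Real.log (m + 1)) := by
    have : Real.log ((m : ℝ) + 1) ≠ 0 := by linarith
    field_simp
    ring
  have h3 : (2 * (m : ℝ) + 1) / ((m : ℝ) ^ 2 * (m + 1) * Real.log (m + 1)) ≤
      3 * (1 / ((m : ℝ) - 1) - 1 / m) := by
    have e1 : (2 * (m : ℝ) + 1) / ((m : ℝ) ^ 2 * (m + 1) * Real.log (m + 1)) ≤
        (2 * (m : ℝ) + 1) / ((m : ℝ) ^ 2 * (m + 1)) := by
      apply div_le_div_of_nonneg_left (by linarith) (by positivity)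
      have : 0 < (m : ℝ) ^ 2 * (m + 1) := by positivity
      nlinarith
    refine e1.trans ?_
    have e2 : 3 * (1 / ((m : ℝ) - 1) - 1 / m) = 3 / (m * (m - 1)) := by
      have : (m : ℝ) - 1 ≠ 0 := by linarith
      field_simp
      ring
    rw [e2, div_le_div_iff₀ (by positivity) (by nlinarith)]
    nlinarith
  linarith

/-- There are arbitrarily large `m` with `∑_{p ≤ m} log (m/p) ≥ (1 - ε) m / log m`. -/
theorem exists_good {ε : ℝ} (hε : 0 < ε) (Y : ℕ) :
    ∃ m : ℕ, Y ≤ m ∧ (1 - ε) * m / Real.log m ≤ II m := by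
  by_contra hcon
  push Not at hcon
  set Y' := max Y 3 with hY'
  have hY3 : 3 ≤ Y' := le_max_right _ _
  have hYY : Y ≤ Y' := le_max_left _ _
  wlog hε1 : ε < 1 generalizing ε
  · have h2 := this (ε := 1 / 2) (by norm_num) (fun m hm => ?_) (by norm_num)
    · exact h2
    · refine lt_of_lt_of_le (hcon m hm) ?_
      have h3 : 0 ≤ Real.log (m : ℝ) := Real.log_natCast_nonneg m
      refine div_le_div_of_nonneg_right ?_ h3
      have : (0 : ℝ) ≤ m := by positivity
      push Not at hε1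
      nlinarith
  -- for every M
  have key : ∀ M : ℕ, Y' ≤ M → Real.log (Real.log M) - 1 - 2 ≤
      (∑ m ∈ Ico 2 Y', II (m + 1) / (m : ℝ) ^ 2) +
        (1 - ε) * (Real.log (Real.log M) - Real.log (Real.log Y')) + 3 := by
    intro M hM
    have hM3 : 3 ≤ M := hY3.trans hM
    have h1 := mertens_lower M hM3
    have h2 := II_lower M (by omega)
    have h3 := aux_sum M (by omega)
    rw [sum_sub_distrib] at h2
    rw [← sum_Ico_consecutive _ (by omega : 2 ≤ Y') hM] at h2
    have h4 : ∑ m ∈ Ico Y' M, II (m + 1) / (m : ℝ) ^ 2 ≤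
        (1 - ε) * ∑ m ∈ Ico Y' M, ((Real.log (Real.log (m + 1)) - Real.log (Real.log m)) +
        3 * (1 / ((m : ℝ) - 1) - 1 / m)) := by
      rw [mul_sum]
      refine sum_le_sum fun m hm => ?_
      rw [Finset.mem_Ico] at hm
      have e1 := hcon (m + 1) (by omega)
      have e2 := upper_term (m := m) (by omega)
      have e3 : (0 : ℝ) < (m : ℝ) ^ 2 := by
        have : (0 : ℝ) < m := by exact_mod_cast (by omega : 0 < m)
        positivity
      push_cast at e1
      calc II (m + 1) / (m : ℝ) ^ 2 ≤ ((1 - ε) * (m + 1) / Real.log (m + 1)) / (m : ℝ) ^ 2 :=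
            div_le_div_of_nonneg_right e1.le e3.le
        _ = (1 - ε) * (((m : ℝ) + 1) / Real.log (m + 1) / (m : ℝ) ^ 2) := by ring
        _ ≤ _ := mul_le_mul_of_nonneg_left e2 (by linarith)
    have h5 : ∀ M : ℕ, Y' ≤ M → ∑ m ∈ Ico Y' M,
        ((Real.log (Real.log (m + 1)) - Real.log (Real.log m)) +
        3 * (1 / ((m : ℝ) - 1) - 1 / m)) ≤
        (Real.log (Real.log M) - Real.log (Real.log Y')) + 3 - 3 / ((M : ℝ) - 1) := by
      intro M hM
      induction M, hM using Nat.le_induction with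
      | base =>
        simp only [Ico_self, sum_empty, sub_self, zero_add]
        have : (2 : ℝ) ≤ (Y' : ℝ) - 1 := by
          have : (3 : ℝ) ≤ Y' := by exact_mod_cast hY3
          linarith
        have : 3 / ((Y' : ℝ) - 1) ≤ 3 := by
          rw [div_le_iff₀ (by linarith)]; linarith
        linarith
      | succ k hk ih =>
        rw [sum_Ico_succ_top hk]
        push_cast
        have e1 : (k : ℝ) + 1 - 1 = k := by ring
        rw [e1]
        have e2 : 3 * (1 / ((k : ℝ) - 1) - 1 / k) = 3 / ((k : ℝ) - 1) - 3 / k := by ring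
        rw [e2]
        linarith
    have h6 := h5 M hM
    have h7 : (0 : ℝ) ≤ 3 / ((M : ℝ) - 1) := by
      have : (3 : ℝ) ≤ M := by exact_mod_cast hM3
      have : (0 : ℝ) < (M : ℝ) - 1 := by linarith
      positivity
    have h8 : (1 - ε) * ∑ m ∈ Ico Y' M,
        ((Real.log (Real.log (m + 1)) - Real.log (Real.log m)) +
        3 * (1 / ((m : ℝ) - 1) - 1 / m)) ≤
        (1 - ε) * ((Real.log (Real.log M) - Real.log (Real.log Y')) + 3) :=
      mul_le_mul_of_nonneg_left (by linarith) (by linarith)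
    have h9 : (1 - ε) * ((Real.log (Real.log M) - Real.log (Real.log Y')) + 3) ≤
        (1 - ε) * (Real.log (Real.log M) - Real.log (Real.log Y')) + 3 := by nlinarith
    linarith
  have htend : Tendsto (fun M : ℕ => ε * Real.log (Real.log M)) atTop atTop := by
    refine Tendsto.const_mul_atTop hε ?_
    exact Real.tendsto_log_atTop.comp (Real.tendsto_log_atTop.comp tendsto_natCast_atTop_atTop)
  obtain ⟨M, hM1, hM2⟩ := ((htend.eventually_gt_atTop
    ((∑ m ∈ Ico 2 Y', II (m + 1) / (m : ℝ) ^ 2) -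
      (1 - ε) * Real.log (Real.log Y') + 6)).and (eventually_ge_atTop Y')).exists
  have := key M hM2
  linarith

end

end Pool.Agent.H390R2
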