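import Pool.Agent.H390R2.Assemble
import Pool.Agent.H390R2.Mertens
import Pool.Agent.H390R2.Lattice

open Finset Nat Filter Topology

namespace Pool.Agent.H390R2

lemma II_eq {m : ℕ} (hm : 1 ≤ m) :
    II m = (Nat.primeCounting m : ℝ) * Real.log m - ∑ p ∈ primesLE m, Real.log p := by
  unfold II
  rw [← Nat.primesLE_card_eq_primeCounting, ← nsmul_eq_mul, ← Finset.sum_const,
    ← Finset.sum_sub_distrib]
  refine Finset.sum_congr rfl fun p hp => ?_
  have h1 : (0 : ℝ) < p := by exact_mod_cast (prime_of_mem_primesLE hp).pos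
  have h2 : (0 : ℝ) < m := by exact_mod_cast hm
  rw [Real.log_div h2.ne' h1.ne']

/-- `log` is negligible against the identity -/
lemma ev_pow (k : ℕ) {a : ℝ} (ha : 0 < a) (b : ℝ) :
    ∀ᶠ m : ℕ in atTop, b * Real.log m ^ k ≤ a * m := by
  have h1 := (Real.isLittleO_pow_log_id_atTop (n := k)).comp_tendsto tendsto_natCast_atTop_atTop
  have h2 := h1.bound (c := a / (|b| + 1)) (by positivity)
  filter_upwards [h2, eventually_ge_atTop 1] with m hm hm1
  simp only [Function.comp_apply, id, Real.norm_eq_abs] at hm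
  have h3 : (0 : ℝ) ≤ m := by positivity
  have h4 : 0 ≤ Real.log m := Real.log_natCast_nonneg m
  rw [abs_of_nonneg h3, abs_of_nonneg (by positivity)] at hm
  have h5 : b * Real.log m ^ k ≤ (|b| + 1) * Real.log m ^ k := by
    have := le_abs_self b
    have h6 : 0 ≤ Real.log m ^ k := by positivity
    nlinarith
  calc b * Real.log m ^ k ≤ (|b| + 1) * Real.log m ^ k := h5
    _ ≤ (|b| + 1) * (a / (|b| + 1) * m) := by gcongr
    _ = a * m := by field_simp

lemma ev_log (b : ℝ) : ∀ᶠ m : ℕ in atTop, b ≤ Real.log m :=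
  (Real.tendsto_log_atTop.comp tendsto_natCast_atTop_atTop).eventually_ge_atTop b

lemma ev_pi : ∀ᶠ m : ℕ in atTop, (m : ℝ) / (2 * Real.log m) ≤ Nat.primeCounting m := by
  filter_upwards [ev_pow 1 (a := 1 / 100) (by norm_num) 1, ev_log 1, eventually_ge_atTop 1000]
    with m h1 h2 h3
  have h4 := Chebyshev.pi_ge m
  refine le_trans ?_ h4
  have hm : (1000 : ℝ) ≤ m := by exact_mod_cast h3
  have h5 : Real.log ((m : ℝ) + 1) ≤ Real.log m + 1 := by
    have : (m : ℝ) + 1 ≤ Real.exp 1 * m := by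
      have := Real.add_one_le_exp (1 : ℝ)
      nlinarith
    have h6 := Real.log_le_log (by positivity) this
    rw [Real.log_mul (Real.exp_pos 1).ne' (by positivity), Real.log_exp] at h6
    linarith
  rw [div_le_div_iff₀ (by linarith) (by linarith)]
  have h7 : (0.693 : ℝ) ≤ Real.log 2 := by linarith [Real.log_two_gt_d9]
  have h8 : (m : ℝ) ≤ 2 * (m * Real.log 2 - Real.log (m + 1)) := by nlinarith
  calc (m : ℝ) * Real.log m ≤ 2 * (m * Real.log 2 - Real.log (m + 1)) * Real.log m := by gcongr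
    _ = _ := by ring

lemma ev_II : ∃ D : ℝ, 0 ≤ D ∧ ∀ᶠ m : ℕ in atTop, II m ≤ D * Nat.primeCounting m := by
  obtain ⟨C, hC0, hC⟩ := Chebyshev.primeCounting_sub_theta_div_log_isBigO.exists_nonneg
  refine ⟨2 * C, by positivity, ?_⟩
  have h1 := tendsto_natCast_atTop_atTop.eventually hC.bound
  filter_upwards [h1, ev_pi, ev_log 1, eventually_ge_atTop 1] with m h1 h2 h3 h4
  rw [II_eq h4, ← Chebyshev.theta_eq_sum_primesLE_log]
  simp only [Nat.floor_natCast, Real.norm_eq_abs] at h1
  have hm : (0 : ℝ) < m := by exact_mod_cast h4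
  have hL : 0 < Real.log m := by linarith
  rw [abs_of_nonneg (a := (m : ℝ) / Real.log m ^ 2) (by positivity)] at h1
  have h5 := (le_abs_self _).trans h1
  have h6 : (Nat.primeCounting m : ℝ) * Real.log m - Chebyshev.theta m =
      ((Nat.primeCounting m : ℝ) - Chebyshev.theta m / Real.log m) * Real.log m := by
    field_simp
  rw [h6]
  calc ((Nat.primeCounting m : ℝ) - Chebyshev.theta m / Real.log m) * Real.log m
      ≤ C * (m / Real.log m ^ 2) * Real.log m := by gcongr
    _ = 2 * C * (m / (2 * Real.log m)) := by field_simp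
    _ ≤ 2 * C * Nat.primeCounting m := by gcongr

lemma loglog_two : -(1 / 2 : ℝ) ≤ Real.log (Real.log 2) := by
  rw [Real.le_log_iff_exp_le (Real.log_pos one_lt_two)]
  have h1 : (0.6931 : ℝ) ≤ Real.log 2 := by linarith [Real.log_two_gt_d9]
  refine le_trans ?_ h1
  rw [Real.exp_neg]
  have h2 : (1.625 : ℝ) ≤ Real.exp (1 / 2) := by
    have := Real.quadratic_le_exp_of_nonneg (x := 1 / 2) (by norm_num)
    linarith
  have h3 : (Real.exp (1 / 2))⁻¹ ≤ (1.625 : ℝ)⁻¹ := inv_anti₀ (by norm_num) h2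
  refine h3.trans (by norm_num)

lemma log_forty : (3.6655 : ℝ) ≤ Real.log 40 := by
  have h1 : (40 : ℝ) = 2 ^ 5 * (5 / 4) := by norm_num
  rw [h1, Real.log_mul (by norm_num) (by norm_num), Real.log_pow]
  have h2 : (0.2 : ℝ) ≤ Real.log (5 / 4) := by
    have := Real.one_sub_inv_le_log_of_pos (x := (5 / 4 : ℝ)) (by norm_num)
    refine le_trans (by norm_num) this
  have h3 : (0.6931 : ℝ) ≤ Real.log 2 := by linarith [Real.log_two_gt_d9]
  push_cast
  linarith

end Pool.Agent.H390R2
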