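import Pool.Agent.H390R2.Asym

open Finset Nat Filter Topology

namespace Pool.Agent.H390R2

/-- The algebra of the final optimisation, for one fixed `m`. Here `n = π(m)`, `L = log m`,
`J = II m / n`. -/
lemma opt {ε K n m L J X1 : ℝ} (hε : 0 < ε) (hε1 : ε ≤ 1 / 4)
    (hK : K ^ 2 * (1 + 2 * ε) * Real.exp (3 * ε) * 18 * Real.exp (-(44 / 15)) ≤
      (2 - ε) ^ 4 * Real.exp 1 * (1 - ε))
    (hn : 0 < n) (hm : 0 < m) (hL : 0 < L)
    (hgood : (1 - ε) * m / L ≤ n * J)
    (hX1 : X1 = (1 + 2 * ε) * (18 * Real.exp (3 * ε) * Real.exp (-(44 / 15)) *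
      (n * m * L * Real.exp (-J)))) :
    K * √X1 ≤ (2 - ε) * L * ((2 - ε) * n) := by
  have hX0 : 0 ≤ X1 := by rw [hX1]; positivity
  have h2 : 0 < 2 - ε := by linarith
  have hR : 0 ≤ (2 - ε) * L * ((2 - ε) * n) := by positivity
  refine abs_le_of_sq_le_sq' ?_ hR |>.2
  rw [mul_pow, Real.sq_sqrt hX0]
  -- `J ≤ exp (J - 1)`
  have h3 : J * Real.exp (1 - J) ≤ 1 := by
    have := Real.add_one_le_exp (J - 1)
    calc J * Real.exp (1 - J) ≤ Real.exp (J - 1) * Real.exp (1 - J) := by
          gcongr; linarith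
      _ = 1 := by rw [← Real.exp_add]; simp
  have h4 : Real.exp 1 * (1 - ε) * m * Real.exp (-J) ≤ n * L := by
    have h5 : (1 - ε) * m ≤ n * J * L := by rwa [div_le_iff₀ hL] at hgood
    have h6 : Real.exp (1 - J) = Real.exp 1 * Real.exp (-J) := by
      rw [← Real.exp_add]; ring_nf
    calc Real.exp 1 * (1 - ε) * m * Real.exp (-J) = ((1 - ε) * m) * Real.exp (1 - J) := by
          rw [h6]; ring
      _ ≤ (n * J * L) * Real.exp (1 - J) := by gcongr
      _ = n * L * (J * Real.exp (1 - J)) := by ring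
      _ ≤ n * L * 1 := by gcongr
      _ = n * L := by ring
  calc K ^ 2 * X1 = (K ^ 2 * (1 + 2 * ε) * Real.exp (3 * ε) * 18 * Real.exp (-(44 / 15))) *
        (n * m * L * Real.exp (-J)) := by rw [hX1]; ring
    _ ≤ ((2 - ε) ^ 4 * Real.exp 1 * (1 - ε)) * (n * m * L * Real.exp (-J)) := by gcongr
    _ = (2 - ε) ^ 4 * (n * L) * (Real.exp 1 * (1 - ε) * m * Real.exp (-J)) := by ring
    _ ≤ (2 - ε) ^ 4 * (n * L) * (n * L) := by gcongr
    _ = ((2 - ε) * L * ((2 - ε) * n)) ^ 2 := by ring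

/-- monotonicity of `√x / log x` -/
lemma sqrt_div_log {x X : ℝ} (hx : Real.exp 2 ≤ x) (hX : x ≤ X) :
    √x / Real.log x ≤ √X / Real.log X := by
  have h1 := Real.log_div_sqrt_antitoneOn (a := x) (b := X) hx (hx.trans hX) hX
  simp only at h1
  have hx0 : 0 < x := lt_of_lt_of_le (Real.exp_pos 2) hx
  have hX0 : 0 < X := lt_of_lt_of_le hx0 hX
  have hlx : 2 ≤ Real.log x := by
    rw [Real.le_log_iff_exp_le hx0]; exact hx
  have hlX : 2 ≤ Real.log X := by
    rw [Real.le_log_iff_exp_le hX0]; exact hx.trans hX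
  have h2 : 0 < √x := Real.sqrt_pos.mpr hx0
  have h3 : 0 < √X := Real.sqrt_pos.mpr hX0
  have h4 := inv_anti₀ (by positivity) h1
  rw [inv_div, inv_div] at h4
  exact h4

theorem core {ε K : ℝ} (hε : 0 < ε) (hε1 : ε ≤ 1 / 4) (hK0 : 0 ≤ K)
    (hK : K ^ 2 * (1 + 2 * ε) * Real.exp (3 * ε) * 18 * Real.exp (-(44 / 15)) ≤
      (2 - ε) ^ 4 * Real.exp 1 * (1 - ε)) (X0 : ℝ) :
    ∃ a b c : ℕ, IsABCTriple a b c ∧ X0 < Real.log c ∧
      K * √(Real.log c) / Real.log (Real.log c) <
        Real.log c - Real.log (rad (a * b * c)) := by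
  obtain ⟨n0, x0, hx0, hlat⟩ := lattice hε (by linarith)
  obtain ⟨D, hD0, hD⟩ := ev_II
  set B : ℝ := max (Real.exp 2) (max (X0 + 1) n0) with hB
  have hBe : Real.exp 2 ≤ B := le_max_left _ _
  have hBX : X0 + 1 ≤ B := (le_max_left _ _).trans (le_max_right _ _)
  have hBn : (n0 : ℝ) ≤ B := (le_max_right _ _).trans (le_max_right _ _)
  have hB0 : 0 < B := lt_of_lt_of_le (Real.exp_pos 2) hBe
  obtain ⟨b9, hb9⟩ := exists_nat_ge (1 / (18 * ε * Real.exp (-(44 / 15) - D)))
  have hev : ∀ᶠ m : ℕ in atTop,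
      45 ≤ m ∧ b9 ≤ m ∧ 1 ≤ Real.log m ∧ (44 / 15 + D) / ε ≤ Real.log m ∧
      (m : ℝ) / (2 * Real.log m) ≤ Nat.primeCounting m ∧
      II m ≤ D * Nat.primeCounting m ∧
      Real.exp D * Real.log m ^ 1 ≤ x0 * m ∧
      2 * B * Real.log m ^ 1 ≤ 1 * m ∧
      2 * Real.log m ^ 1 ≤ ε * m ∧
      20 * Real.log m ^ 2 ≤ ε * m := by
    filter_upwards [eventually_ge_atTop 45, eventually_ge_atTop b9, ev_log 1,
      ev_log ((44 / 15 + D) / ε), ev_pi, hD, ev_pow 1 hx0 (Real.exp D),
      ev_pow 1 (a := 1) one_pos (2 * B), ev_pow 1 hε 2, ev_pow 2 hε 20]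
      with m h1 h2 h3 h4 h5 h6 h7 h8 h9 h10
    exact ⟨h1, h2, h3, h4, h5, h6, h7, h8, h9, h10⟩
  obtain ⟨Y, hY⟩ := eventually_atTop.mp hev
  obtain ⟨m, hmY, hgood⟩ := exists_good hε Y
  obtain ⟨h1, h2, h3, h4, h5, h6, h7, h8, h9, h10⟩ := hY m hmY
  clear hev hY hD hmY
  have hm45 : (45 : ℝ) ≤ m := by exact_mod_cast h1
  have hm0 : (0 : ℝ) < m := by linarith
  set L : ℝ := Real.log m with hL
  have hL0 : 0 < L := by linarith
  have hLm : L ≤ m := (Real.log_le_sub_one_of_pos hm0).trans (by linarith)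
  set n : ℝ := (Nat.primeCounting m : ℝ) with hn
  have hn0 : 0 < n := lt_of_lt_of_le (by positivity) h5
  have hnm : n ≤ m := by
    rw [hn, ← Nat.primesLE_card_eq_primeCounting]
    have : (primesLE m).card ≤ m := by
      have h := Finset.card_le_card (s := primesLE m) (t := Finset.Icc 1 m) (fun p hp => by
        rw [Finset.mem_Icc]
        exact ⟨(prime_of_mem_primesLE hp).one_le, le_of_mem_primesLE hp⟩)
      simpa using h
    exact_mod_cast this
  rw [pow_one] at h7 h8 h9
  have hnL : (m : ℝ) / 2 ≤ n * L := by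
    rw [div_le_iff₀ (by positivity)] at h5
    linarith
  have hnB : B ≤ n := by
    refine le_trans ?_ h5
    rw [le_div_iff₀ (by positivity)]
    linarith
  have hεn : 1 ≤ ε * n := by
    have : 1 ≤ ε * (m / (2 * L)) := by
      rw [mul_div_assoc', le_div_iff₀ (by positivity)]; linarith
    exact this.trans (by gcongr)
  have hεL : 10 * L ≤ ε * n := by
    have : 10 * L ≤ ε * (m / (2 * L)) := by
      rw [mul_div_assoc', le_div_iff₀ (by positivity)]
      calc 10 * L * (2 * L) = 20 * L ^ 2 := by ring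
        _ ≤ ε * m := h10
    exact this.trans (by gcongr)
  set J : ℝ := II m / n with hJ
  have hnJ : n * J = II m := by rw [hJ]; field_simp
  have hJD : J ≤ D := by
    rw [hJ, div_le_iff₀ hn0]; exact h6
  have hII0 : 0 < II m := lt_of_lt_of_le (by
    have : 0 < 1 - ε := by linarith
    positivity) hgood
  have hJ0 : 0 < J := by positivity
  set θ : ℝ := ∑ p ∈ primesLE m, Real.log p with hθ
  have hθJ : θ = n * L - n * J := by
    rw [hnJ, II_eq (by omega)]; ring
  -- the modulus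
  set N : ℕ := ⌈Real.exp (θ + 2 * n)⌉₊ with hN
  have hNle : Real.exp (θ + 2 * n) ≤ N := Nat.le_ceil _
  have hNlt : (N : ℝ) < Real.exp (θ + 2 * n) + 1 := Nat.ceil_lt_add_one (Real.exp_pos _).le
  have hN0' : (0 : ℝ) < N := lt_of_lt_of_le (Real.exp_pos _) hNle
  have hN0 : 0 < N := by exact_mod_cast hN0'
  have hθ0 : 0 ≤ θ := Finset.sum_nonneg fun p hp =>
    Real.log_natCast_nonneg p
  have hlogN1 : θ + 2 * n ≤ Real.log N := by
    rw [Real.le_log_iff_exp_le hN0']; exact hNle
  have hlogN2 : Real.log N ≤ θ + 2 * n + 1 := by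
    rw [Real.log_le_iff_le_exp hN0']
    refine hNlt.le.trans ?_
    rw [Real.exp_add (θ + 2 * n) 1]
    have h11 : 1 ≤ Real.exp (θ + 2 * n) := Real.one_le_exp (by positivity)
    have h12 : 2 ≤ Real.exp 1 := by linarith [Real.add_one_le_exp (1 : ℝ)]
    nlinarith
  -- the double logarithms
  have hlogp : ∀ p : {p // p ∈ primesLE m}, Real.log 2 ≤ Real.log (p : ℕ) := fun p =>
    Real.log_le_log two_pos (by exact_mod_cast two_le_of_mem_primesLE p.2)
  have hlogp' : ∀ p : {p // p ∈ primesLE m}, Real.log (p : ℕ) ≤ L := fun p =>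
    Real.log_le_log (by exact_mod_cast (prime_of_mem_primesLE p.2).pos)
      (by exact_mod_cast le_of_mem_primesLE p.2)
  have hl2 : (0 : ℝ) < Real.log 2 := Real.log_pos one_lt_two
  have hlogp0 : ∀ p : {p // p ∈ primesLE m}, 0 < Real.log (p : ℕ) := fun p =>
    hl2.trans_le (hlogp p)
  have hcard : (Fintype.card {p // p ∈ primesLE m} : ℝ) = n := by
    rw [hn, ← Nat.primesLE_card_eq_primeCounting, Fintype.card_coe]
  set LL : ℝ := ∑ p : {p // p ∈ primesLE m}, Real.log (Real.log (p : ℕ)) with hLL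
  have hLL1 : LL ≤ n * Real.log L := by
    rw [← hcard, ← Finset.card_univ, ← nsmul_eq_mul, ← Finset.sum_const]
    exact Finset.sum_le_sum fun p _ => Real.log_le_log (hlogp0 p) (hlogp' p)
  have hLL2 : -(n / 2) ≤ LL := by
    have : n * (-(1 / 2)) ≤ LL := by
      rw [← hcard, ← Finset.card_univ, ← nsmul_eq_mul, ← Finset.sum_const]
      refine Finset.sum_le_sum fun p _ => ?_
      exact loglog_two.trans (Real.log_le_log hl2 (hlogp p))
    linarith
  -- the scale
  set s : ℝ := (Real.log N + LL) / n + (Real.log 40 - 74 / 15) + 2 * ε with hs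
  have hsn : s * n = Real.log N + LL + n * (Real.log 40 - 74 / 15 + 2 * ε) := by
    rw [hs]; field_simp; ring
  have hs1 : s ≤ L - J + 2 + Real.log L + (Real.log 40 - 74 / 15) + 3 * ε := by
    refine le_of_mul_le_mul_right ?_ hn0
    rw [hsn]
    linarith
  have hs2 : L - D ≤ s := by
    refine le_of_mul_le_mul_right ?_ hn0
    rw [hsn]
    have := log_forty
    have h13 : n * J ≤ n * D := by gcongr
    have h14 : n * (3.6655 : ℝ) ≤ n * Real.log 40 := by gcongr
    have h15 : 0 < n * ε := by positivity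
    linarith
  set σ : ℝ := Real.exp (-s) with hσ
  have hσ0 : 0 < σ := Real.exp_pos _
  have hσw : ∀ p : {p // p ∈ primesLE m}, σ * Real.log (p : ℕ) ≤ x0 := by
    intro p
    have h16 : σ ≤ Real.exp D / m := by
      rw [hσ]
      have : Real.exp (-s) ≤ Real.exp (D - L) := Real.exp_le_exp.mpr (by linarith)
      rwa [Real.exp_sub, hL, Real.exp_log hm0] at this
    calc σ * Real.log (p : ℕ) ≤ Real.exp D / m * L := by
          gcongr
          exact hlogp' p
      _ = Real.exp D * L / m := by ring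
      _ ≤ x0 := by rw [div_le_iff₀ hm0]; exact h7
  have hcond : Real.log N + ∑ p : {p // p ∈ primesLE m}, Real.log (σ * Real.log (p : ℕ)) +
      Fintype.card {p // p ∈ primesLE m} * (Real.log 40 - 74 / 15 + 2 * ε) ≤ 0 := by
    have h17 : ∑ p : {p // p ∈ primesLE m}, Real.log (σ * Real.log (p : ℕ)) = -(s * n) + LL := by
      have : ∀ p : {p // p ∈ primesLE m}, Real.log (σ * Real.log (p : ℕ)) =
          -s + Real.log (Real.log (p : ℕ)) := by
        intro p
        rw [Real.log_mul hσ0.ne' (hlogp0 p).ne', hσ, Real.log_exp]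
      simp only [this]
      rw [Finset.sum_add_distrib, Finset.sum_const, nsmul_eq_mul, Finset.card_univ, hcard]
      ring
    rw [h17, hcard, hsn]
    linarith
  set lam : ℝ := (1 + ε) * (9 / 10) * n / σ with hlam
  have hlam0 : 0 < lam := by positivity
  obtain ⟨a, b, c, habc, hcle, hcrad⟩ := exists_triple (m := m) (N := N) (lam := lam) hN0 hlam0
    (by
      intro W
      obtain ⟨e, he, hdvd, hle⟩ := hlat {p // p ∈ primesLE m}
        (fun p => Real.log (p : ℕ)) N W σ
        (by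
          have : (n0 : ℝ) ≤ (Fintype.card {p // p ∈ primesLE m} : ℝ) := by
            rw [hcard]; exact hBn.trans hnB
          exact_mod_cast this) hN0 hlogp0 hσ0 hσw hcond
      refine ⟨e, he, hdvd, ?_⟩
      rw [hcard] at hle
      exact hle)
  rw [← hθ] at hcrad
  -- upper bound for `lam`
  set A : ℝ := 18 * Real.exp (3 * ε) * Real.exp (-(44 / 15)) * (n * m * L * Real.exp (-J)) with hA
  have hA0 : 0 < A := by positivity
  have hlamA : lam ≤ 2 * (1 + ε) * A := by
    have h18 : 1 / σ ≤ Real.exp (L - J + 2 + Real.log L + (Real.log 40 - 74 / 15) + 3 * ε) := by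
      rw [hσ, Real.exp_neg, one_div, inv_inv]
      exact Real.exp_le_exp.mpr hs1
    have h19 : Real.exp (L - J + 2 + Real.log L + (Real.log 40 - 74 / 15) + 3 * ε) =
        40 * (Real.exp (3 * ε) * Real.exp (-(44 / 15))) * (m * L * Real.exp (-J)) := by
      have : L - J + 2 + Real.log L + (Real.log 40 - 74 / 15) + 3 * ε =
          Real.log 40 + (3 * ε + -(44 / 15)) + (L + Real.log L + -J) := by ring
      rw [this, Real.exp_add, Real.exp_add, Real.exp_add, Real.exp_add, Real.exp_add,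
        Real.exp_log (by norm_num), hL, Real.exp_log hm0, Real.exp_log (by rw [← hL]; exact hL0)]
    rw [h19] at h18
    calc lam = (1 + ε) * (9 / 10) * n * (1 / σ) := by rw [hlam]; ring
      _ ≤ (1 + ε) * (9 / 10) * n *
          (40 * (Real.exp (3 * ε) * Real.exp (-(44 / 15))) * (m * L * Real.exp (-J))) := by gcongr
      _ = 2 * (1 + ε) * A := by rw [hA]; ring
  -- crude bound for `lam`
  have hlamm : lam ≤ (m : ℝ) ^ 4 := by
    have h20 : Real.exp (3 * ε) * Real.exp (-(44 / 15)) ≤ 1 := by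
      rw [← Real.exp_add]; exact Real.exp_le_one_iff.mpr (by linarith)
    have h21 : Real.exp (-J) ≤ 1 := Real.exp_le_one_iff.mpr (by linarith)
    have h22 : A ≤ 18 * (n * m * L) := by
      calc A = 18 * (Real.exp (3 * ε) * Real.exp (-(44 / 15))) * (n * m * L * Real.exp (-J)) := by
            rw [hA]; ring
        _ ≤ 18 * 1 * (n * m * L * 1) := by gcongr
        _ = 18 * (n * m * L) := by ring
    calc lam ≤ 2 * (1 + ε) * A := hlamA
      _ ≤ 2 * (1 + 1 / 4) * (18 * (n * m * L)) := by gcongr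
      _ = 45 * (n * m * L) := by ring
      _ ≤ m * (m * m * m) := by gcongr
      _ = (m : ℝ) ^ 4 := by ring
  have hlam1 : lam + 1 ≤ (m : ℝ) ^ 5 := by
    have : (1 : ℝ) ≤ (m : ℝ) ^ 4 := one_le_pow₀ (by linarith)
    calc lam + 1 ≤ (m : ℝ) ^ 4 + (m : ℝ) ^ 4 := by linarith
      _ = 2 * (m : ℝ) ^ 4 := by ring
      _ ≤ m * (m : ℝ) ^ 4 := by gcongr; linarith
      _ = (m : ℝ) ^ 5 := by ring
  have hprod : lam * (lam + 1) ≤ (m : ℝ) ^ 9 := by
    calc lam * (lam + 1) ≤ (m : ℝ) ^ 4 * (m : ℝ) ^ 5 := by gcongr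
      _ = (m : ℝ) ^ 9 := by ring
  have hlogprod : Real.log (lam * (lam + 1)) ≤ 9 * L := by
    have := Real.log_le_log (by positivity) hprod
    rwa [Real.log_pow] at this
  -- the error term is at most one
  have hεn4 : ε * n ≤ 1 / 4 * n := by gcongr
  have herr : lam * (lam + 1) / (N * Real.log 2) ≤ 1 := by
    rw [div_le_one (by positivity)]
    rw [← Real.log_le_log_iff (by positivity) (by positivity),
      Real.log_mul hN0'.ne' hl2.ne']
    linarith [loglog_two]
  have hdiff : (2 - ε) * n < Real.log c - Real.log (rad (a * b * c)) := by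
    linarith [loglog_two]
  have hrad0 : 0 ≤ Real.log (rad (a * b * c)) := Real.log_natCast_nonneg _
  have hcn : (2 - ε) * n < Real.log c := by linarith
  have hcB : B < Real.log c := by linarith
  -- the upper bound for `log c`
  set X1 : ℝ := (1 + 2 * ε) * A with hX1
  have hAlow : 9 * Real.exp (-(44 / 15) - D) * (m : ℝ) ^ 2 ≤ A := by
    have h23 : Real.exp (-D) ≤ Real.exp (-J) := Real.exp_le_exp.mpr (by linarith)
    have h24 : 1 ≤ Real.exp (3 * ε) := Real.one_le_exp (by positivity)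
    calc 9 * Real.exp (-(44 / 15) - D) * (m : ℝ) ^ 2
        = 18 * 1 * Real.exp (-(44 / 15)) * ((m / 2) * m * Real.exp (-D)) := by
          rw [sub_eq_add_neg, Real.exp_add]; ring
      _ ≤ 18 * Real.exp (3 * ε) * Real.exp (-(44 / 15)) * ((n * L) * m * Real.exp (-J)) := by
          gcongr
      _ = A := by rw [hA]; ring
  have hcX1 : Real.log c ≤ X1 := by
    have h25 : 1 / 2 ≤ ε * A := by
      have h26 : 1 / (18 * ε * Real.exp (-(44 / 15) - D)) ≤ m :=
        hb9.trans (by exact_mod_cast h2)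
      rw [div_le_iff₀ (by positivity)] at h26
      have h27 : (m : ℝ) ≤ (m : ℝ) ^ 2 := by nlinarith
      calc (1 / 2 : ℝ) ≤ (m * (18 * ε * Real.exp (-(44 / 15) - D))) / 2 := by linarith
        _ = ε * (9 * Real.exp (-(44 / 15) - D) * m) := by ring
        _ ≤ ε * (9 * Real.exp (-(44 / 15) - D) * (m : ℝ) ^ 2) := by gcongr
        _ ≤ ε * A := by gcongr
    rw [hX1]
    linarith
  have hX1log : (2 - ε) * L ≤ Real.log X1 := by
    have h28 : Real.exp (-(44 / 15) - D) * (m : ℝ) ^ 2 ≤ X1 := by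
      rw [hX1]
      have h30 : 0 ≤ Real.exp (-(44 / 15) - D) * (m : ℝ) ^ 2 := by positivity
      have h31 : 0 ≤ ε * A := by positivity
      linarith
    have h29 := Real.log_le_log (by positivity) h28
    rw [Real.log_mul (Real.exp_pos _).ne' (by positivity), Real.log_exp, Real.log_pow] at h29
    rw [div_le_iff₀ hε] at h4
    push_cast at h29
    linarith
  refine ⟨a, b, c, habc, by linarith, ?_⟩
  have hopt := opt (X1 := X1) (J := J) (K := K) hε hε1 hK hn0 hm0 hL0 (by rw [hnJ]; exact hgood)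
    (by rw [hX1])
  have h2ε : 0 < 2 - ε := by linarith
  refine lt_of_le_of_lt ?_ hdiff
  calc K * √(Real.log c) / Real.log (Real.log c)
      = K * (√(Real.log c) / Real.log (Real.log c)) := by ring
    _ ≤ K * (√X1 / Real.log X1) := by
        gcongr ?_ * ?_
        exact sqrt_div_log (hBe.trans hcB.le) hcX1
    _ ≤ K * (√X1 / ((2 - ε) * L)) := by gcongr
    _ = K * √X1 / ((2 - ε) * L) := by ring
    _ ≤ (2 - ε) * n := by
        rw [div_le_iff₀ (by positivity)]
        linarith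

end Pool.Agent.H390R2
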