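import Mathlib

open Finset Nat

namespace Pool.Agent.H390R2

/-- The radical of a natural number: the product of its distinct prime factors. -/
def rad (n : ℕ) : ℕ := ∏ p ∈ n.primeFactors, p

/-- `(a, b, c)` is an abc-triple: positive integers, pairwise coprime, `a + b = c`. -/
def IsABCTriple (a b c : ℕ) : Prop :=
  0 < a ∧ 0 < b ∧ 0 < c ∧ a + b = c ∧ Nat.Coprime a b ∧ Nat.Coprime a c ∧ Nat.Coprime b c

lemma rad_le {n : ℕ} (hn : 0 < n) : rad n ≤ n :=
  Nat.le_of_dvd hn (Nat.prod_primeFactors_dvd n)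

lemma rad_bound {a b c m : ℕ} (ha : 0 < a) (hb : 0 < b) (hc : 0 < c)
    (hbp : b.primeFactors ⊆ primesLE m) (hcp : c.primeFactors ⊆ primesLE m) :
    rad (a * b * c) ≤ a * ∏ p ∈ primesLE m, p := by
  unfold rad
  have h1 : (a * b * c).primeFactors ⊆ a.primeFactors ∪ primesLE m := by
    rw [Nat.primeFactors_mul (by positivity) hc.ne', Nat.primeFactors_mul ha.ne' hb.ne']
    intro p hp
    simp only [Finset.mem_union] at hp ⊢
    rcases hp with (hp | hp) | hp
    · exact Or.inl hp
    · exact Or.inr (hbp hp)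
    · exact Or.inr (hcp hp)
  have hpos : ∀ p ∈ a.primeFactors ∪ primesLE m, 1 ≤ p := by
    intro p hp
    rw [Finset.mem_union] at hp
    rcases hp with hp | hp
    · exact (Nat.prime_of_mem_primeFactors hp).one_le
    · exact (prime_of_mem_primesLE hp).one_le
  calc ∏ p ∈ (a * b * c).primeFactors, p ≤ ∏ p ∈ a.primeFactors ∪ primesLE m, p :=
        Finset.prod_le_prod_of_subset_of_one_le' h1 fun p hp _ => hpos p hp
    _ ≤ (∏ p ∈ a.primeFactors, p) * ∏ p ∈ primesLE m, p := by
        rw [← Finset.prod_union_inter]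
        refine Nat.le_mul_of_pos_right _ (Finset.prod_pos fun p hp => ?_)
        exact (Nat.prime_of_mem_primeFactors (Finset.mem_inter.mp hp).1).pos
    _ ≤ a * ∏ p ∈ primesLE m, p := Nat.mul_le_mul_right _ (rad_le ha)

section
variable {m : ℕ} (e : {p // p ∈ primesLE m} → ℤ)

/-- numerator attached to an exponent vector -/
def num : ℕ := ∏ p : {p // p ∈ primesLE m}, (p : ℕ) ^ (e p).toNat

lemma num_pos : 0 < num e :=
  Finset.prod_pos fun p _ => Nat.pow_pos (prime_of_mem_primesLE p.2).pos

lemma num_primeFactors : (num e).primeFactors ⊆ primesLE m := by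
  intro q hq
  have hq1 := Nat.prime_of_mem_primeFactors hq
  have hq2 := Nat.dvd_of_mem_primeFactors hq
  unfold num at hq2
  rw [Prime.dvd_finsetProd_iff hq1.prime] at hq2
  obtain ⟨p, _, hp⟩ := hq2
  have h1 := hq1.dvd_of_dvd_pow hp
  have h2 := (Nat.prime_dvd_prime_iff_eq hq1 (prime_of_mem_primesLE p.2)).mp h1
  rw [h2]; exact p.2

lemma log_num : Real.log (num e) = ∑ p : {p // p ∈ primesLE m}, ((e p).toNat : ℝ) * Real.log (p : ℕ) := by
  unfold num
  push_cast
  rw [Real.log_prod]
  · refine Finset.sum_congr rfl fun p _ => ?_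
    rw [Real.log_pow]
  · intro p _
    have : (0 : ℝ) < (p : ℕ) := by exact_mod_cast (prime_of_mem_primesLE p.2).pos
    positivity

lemma num_coprime : Nat.Coprime (num e) (num (-e)) := by
  unfold num
  refine Nat.Coprime.prod_left fun p _ => Nat.Coprime.prod_right fun q _ => ?_
  by_cases hpq : p = q
  · subst hpq
    simp only [Pi.neg_apply]
    rcases le_total 0 (e p) with h | h
    · have : (-e p).toNat = 0 := by omega
      rw [this, pow_zero]; exact Nat.coprime_one_right _
    · have : (e p).toNat = 0 := by omega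
      rw [this, pow_zero]; exact Nat.coprime_one_left _
  · refine Nat.Coprime.pow _ _ ?_
    rw [Nat.coprime_primes (prime_of_mem_primesLE p.2) (prime_of_mem_primesLE q.2)]
    intro h
    exact hpq (Subtype.ext h)

lemma num_eq_one (h : num e = 1) : ∀ p, (e p).toNat = 0 := by
  intro p
  unfold num at h
  have h1 : (p : ℕ) ^ (e p).toNat ∣ 1 := by
    rw [← h]
    exact Finset.dvd_prod_of_mem _ (Finset.mem_univ p)
  have h2 := Nat.dvd_one.mp h1
  by_contra hne
  have := Nat.one_lt_pow hne (prime_of_mem_primesLE p.2).one_lt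
  omega

lemma num_ne (he : e ≠ 0) : num e ≠ num (-e) := by
  intro h
  have h1 := num_coprime e
  rw [← h, Nat.coprime_self] at h1
  have h2 := num_eq_one e h1
  have h3 := num_eq_one (-e) (h ▸ h1)
  apply he
  funext p
  have a1 := h2 p
  have a2 := h3 p
  simp only [Pi.neg_apply] at a2
  simp only [Pi.zero_apply]
  omega

/-- the triple attached to a nonzero exponent vector -/
theorem triple (he : e ≠ 0) :
    ∃ a b c : ℕ, IsABCTriple a b c ∧
      Real.log c = (∑ p : {p // p ∈ primesLE m}, |(e p : ℝ)| * Real.log (p : ℕ) +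
        |∑ p : {p // p ∈ primesLE m}, (e p : ℝ) * Real.log (p : ℕ)|) / 2 ∧
      (rad (a * b * c) : ℝ) ≤ c * |∑ p : {p // p ∈ primesLE m}, (e p : ℝ) * Real.log (p : ℕ)| *
        ∏ p ∈ primesLE m, (p : ℝ) := by
  set A := num e with hA
  set B := num (-e) with hB
  have hA0 : 0 < A := num_pos e
  have hB0 : 0 < B := num_pos (-e)
  have hAB : A ≠ B := num_ne e he
  have hcop : Nat.Coprime A B := num_coprime e
  have hlA := log_num e
  have hlB := log_num (-e)
  rw [← hA] at hlA
  rw [← hB] at hlB
  have hsub : ∑ p : {p // p ∈ primesLE m}, (e p : ℝ) * Real.log (p : ℕ) = Real.log A - Real.log B := by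
    rw [hlA, hlB, ← Finset.sum_sub_distrib]
    refine Finset.sum_congr rfl fun p _ => ?_
    rw [← sub_mul]
    congr 1
    have : (e p) = ((e p).toNat : ℤ) - ((-e) p).toNat := by
      simp only [Pi.neg_apply]; omega
    exact_mod_cast congrArg (fun z : ℤ => (z : ℝ)) this
  have hadd : ∑ p : {p // p ∈ primesLE m}, |(e p : ℝ)| * Real.log (p : ℕ) = Real.log A + Real.log B := by
    rw [hlA, hlB, ← Finset.sum_add_distrib]
    refine Finset.sum_congr rfl fun p _ => ?_
    rw [← add_mul]
    congr 1
    have : |e p| = ((e p).toNat : ℤ) + ((-e) p).toNat := by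
      simp only [Pi.neg_apply]
      rcases abs_cases (e p) with h | h <;> omega
    exact_mod_cast congrArg (fun z : ℤ => (z : ℝ)) this
  rw [hsub, hadd]
  have main : ∀ x y : ℕ, 0 < x → 0 < y → x < y → Nat.Coprime x y →
      x.primeFactors ⊆ primesLE m → y.primeFactors ⊆ primesLE m →
      ∃ a b c : ℕ, IsABCTriple a b c ∧
      Real.log c = (Real.log y + Real.log x + |Real.log y - Real.log x|) / 2 ∧
      (rad (a * b * c) : ℝ) ≤ c * |Real.log y - Real.log x| *
        ∏ p ∈ primesLE m, (p : ℝ) := by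
    intro x y hx hy hxy hc hxp hyp
    have hx' : (0 : ℝ) < x := by exact_mod_cast hx
    have hy' : (0 : ℝ) < y := by exact_mod_cast hy
    have hl : Real.log x < Real.log y := Real.log_lt_log hx' (by exact_mod_cast hxy)
    have h1 : Nat.Coprime (y - x) x := (Nat.coprime_sub_self_left hxy.le).mpr hc.symm
    have h2 : Nat.Coprime (y - x) y := by
      have := (Nat.coprime_self_sub_left hxy.le (m := x) (n := y)).mpr hc
      exact this
    refine ⟨y - x, x, y, ⟨by omega, hx, hy, by omega, h1, h2, hc⟩, ?_, ?_⟩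
    · rw [abs_of_pos (by linarith)]; ring
    · rw [abs_of_pos (by linarith)]
      have h3 := rad_bound (a := y - x) (by omega) hx hy hxp hyp
      have h4 : (rad ((y - x) * x * y) : ℝ) ≤ ((y - x : ℕ) : ℝ) * ∏ p ∈ primesLE m, (p : ℝ) := by
        have h5 : ((rad ((y - x) * x * y) : ℕ) : ℝ) ≤ (((y - x) * ∏ p ∈ primesLE m, p : ℕ) : ℝ) :=
          Nat.cast_le.mpr h3
        rwa [Nat.cast_mul, Nat.cast_prod] at h5
      refine h4.trans (mul_le_mul_of_nonneg_right ?_ (Finset.prod_nonneg fun _ _ => by positivity))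
      rw [Nat.cast_sub hxy.le]
      have h5 := Real.add_one_le_exp (Real.log x - Real.log y)
      rw [Real.exp_sub, Real.exp_log hx', Real.exp_log hy'] at h5
      have h6 : (y : ℝ) * (x / y) = x := by field_simp
      nlinarith
  rcases lt_or_gt_of_ne hAB with h | h
  · obtain ⟨a, b, c, h1, h2, h3⟩ := main A B hA0 hB0 h hcop (num_primeFactors e)
      (num_primeFactors (-e))
    refine ⟨a, b, c, h1, ?_, ?_⟩
    · rw [h2, abs_sub_comm, add_comm (Real.log B)]
    · rw [abs_sub_comm]; exact h3
  · exact main B A hB0 hA0 h hcop.symm (num_primeFactors (-e)) (num_primeFactors e)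

end

end Pool.Agent.H390R2
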